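import Pool.Agent.H13.R45.Grid
import Pool.Agent.H74.R45.Def

set_option autoImplicit false
open Finset

/-! # The tied forms of the environments `XJ`

`PT w h j` : the grid points inside the natural caps behind the line: `(-1, y)`, `j < y < h`, `y` even
(faces), `(w + 1, y)`, `0 ≤ y < j - 1`, `y` even (faces), if `j = 0` also `(x, -1)`, `x` odd (vertices), if
`j = h` also `(x, h)`, `0 < x < w`, `x` even (vertices). At each of them two labels of the line are
replaced by one: `eK` (kept, weight `qT`) and `eR` (removed: closed at the left and right walls, open at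
the floor and at the ceiling). `ET`, `WT`, `qT` : random labels, open labels, weights of the tied form.
`XJ_tied` : `incW` is the same at all corners which are not at the points of `PT`. -/

namespace Pool.Agent.H13.R45

open Pool.Agent.H75.Perc Pool.Agent.H75.TwoArm Pool.Agent.Q1 Pool.Agent.H33.Q1
open Pool.Agent.H75.Four Pool.Agent.H69.Q1
open Pool.Agent.H74.R45 Pool.Agent.H13.Q1

/-- the points inside the caps -/
def PTp (w h j : ℤ) (g : ℤ × ℤ) : Prop :=
  (g.1 = -1 ∧ j < g.2 ∧ g.2 < h ∧ g.2 % 2 = 0) ∨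
  (g.1 = w + 1 ∧ 0 ≤ g.2 ∧ g.2 < j - 1 ∧ g.2 % 2 = 0) ∨
  (j = 0 ∧ g.2 = -1 ∧ 0 < g.1 ∧ g.1 < w ∧ g.1 % 2 = 1) ∨
  (j = h ∧ g.2 = h ∧ 0 < g.1 ∧ g.1 < w ∧ g.1 % 2 = 0)

instance (w h j : ℤ) (g : ℤ × ℤ) : Decidable (PTp w h j g) := by
  unfold PTp; infer_instance

/-- the points inside the caps -/
noncomputable def PT (w h j : ℤ) : Finset (ℤ × ℤ) :=
  ((Icc (-1) (w + 1)) ×ˢ (Icc (-1) h)).filter (PTp w h j)

variable {w h j x y : ℤ} {a b : ℂ}

theorem mem_PT (hw : 0 ≤ w) (h0 : 0 ≤ j) (h1 : j ≤ h) {g : ℤ × ℤ} :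
    g ∈ PT w h j ↔ PTp w h j g := by
  unfold PT
  rw [mem_filter, mem_product, mem_Icc, mem_Icc]
  constructor
  · exact fun h => h.2
  · intro h
    refine ⟨?_, h⟩
    unfold PTp at h
    omega

/-- the label which is kept -/
def eK (w : ℤ) (g : ℤ × ℤ) : ℤ × ℤ :=
  if g.1 = -1 then lt (g.1, g.2) else if g.1 = w + 1 then lt (g.1 - 1, g.2 - 1)
  else if g.2 = -1 then lt (g.1 - 1, g.2) else lt (g.1, g.2 - 1)

/-- the label which is removed -/
def eR (w : ℤ) (g : ℤ × ℤ) : ℤ × ℤ :=
  if g.1 = -1 then lt (g.1, g.2 - 1) else if g.1 = w + 1 then lt (g.1 - 1, g.2)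
  else if g.2 = -1 then lt (g.1, g.2) else lt (g.1 - 1, g.2 - 1)

/-- random labels of the tied form -/
noncomputable def ET (w h j : ℤ) : Finset (ℤ × ℤ) := EJ w h j \ (PT w h j).image (eR w)

/-- removed labels which are open -/
noncomputable def OT (w h j : ℤ) : Finset (ℤ × ℤ) :=
  ((PT w h j).filter (fun g => ev g = true)).image (eR w)

/-- open labels of the tied form -/
noncomputable def WT (w h j : ℤ) (Wo : Finset (ℤ × ℤ)) : Finset (ℤ × ℤ) := WJ w h j Wo ∪ OT w h j

/-- open weights of the tied form -/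
noncomputable def qT (w h j : ℤ) (a b : ℂ) (e : ℤ × ℤ) : ℂ :=
  if ((tt e).1 = -1 ∧ (tt e).2 % 2 = 0 ∧ j < (tt e).2 ∧ (tt e).2 < h) ∨
    ((tt e).1 = w ∧ (tt e).2 % 2 = 1 ∧ -1 ≤ (tt e).2 ∧ (tt e).2 < j - 1) then 1 - b * (1 - b)
  else if (j = 0 ∧ (tt e).2 = -1 ∧ (tt e).1 % 2 = 0 ∧ 0 ≤ (tt e).1 ∧ (tt e).1 < w) ∨
    (j = h ∧ (tt e).2 = h - 1 ∧ (tt e).1 % 2 = 0 ∧ 0 < (tt e).1 ∧ (tt e).1 < w) then a * (1 - a)
  else qJ w h j a b e

theorem mem_OT (hw : 0 ≤ w) (w2 : w % 2 = 0) (h2 : h % 2 = 0) (h0 : 0 ≤ j) (h1 : j ≤ h)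
    (j2 : j % 2 = 0) :
    lt (x, y) ∈ OT w h j ↔ (j = 0 ∧ y = -1 ∧ 0 < x ∧ x < w ∧ x % 2 = 1) ∨
      (j = h ∧ y = h - 1 ∧ 0 < x ∧ x + 1 < w ∧ x % 2 = 1) := by
  unfold OT
  simp only [mem_image, mem_filter, Prod.exists]
  constructor
  · rintro ⟨a, b, ⟨h3, h4⟩, h5⟩
    rw [mem_PT hw h0 h1] at h3
    rw [ev_true] at h4
    unfold PTp at h3
    unfold eR at h5
    simp only at h3 h5
    rcases h3 with h3 | h3 | h3 | h3
    · omega
    · omega
    · rw [if_neg (by omega), if_neg (by omega), if_pos (by omega)] at h5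
      have := lt_inj h5
      simp only [Prod.mk.injEq] at this
      omega
    · rw [if_neg (by omega), if_neg (by omega), if_neg (by omega)] at h5
      have := lt_inj h5
      simp only [Prod.mk.injEq] at this
      omega
  · rintro (h3 | h3)
    · refine ⟨x, y, ⟨(mem_PT hw h0 h1).2 ?_, ev_true.2 (by omega)⟩, ?_⟩
      · unfold PTp; simp only; omega
      · unfold eR
        simp only
        rw [if_neg (by omega), if_neg (by omega), if_pos (by omega)]
    · refine ⟨x + 1, y + 1, ⟨(mem_PT hw h0 h1).2 ?_, ev_true.2 (by omega)⟩, ?_⟩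
      · unfold PTp; simp only; omega
      · unfold eR
        simp only
        rw [if_neg (by omega), if_neg (by omega), if_neg (by omega)]
        congr 2 <;> ring

theorem mem_ET (hw : 0 ≤ w) (w2 : w % 2 = 0) (h2 : h % 2 = 0) (h0 : 0 ≤ j) (h1 : j ≤ h)
    (j2 : j % 2 = 0) :
    lt (x, y) ∈ ET w h j ↔ lt (x, y) ∈ EJ w h j ∧ ¬ (
      (x = -1 ∧ j < y ∧ y + 1 < h ∧ y % 2 = 1) ∨ (x = w ∧ 0 ≤ y ∧ y < j - 1 ∧ y % 2 = 0) ∨
      (j = 0 ∧ y = -1 ∧ 0 < x ∧ x < w ∧ x % 2 = 1) ∨
      (j = h ∧ y = h - 1 ∧ 0 < x ∧ x + 1 < w ∧ x % 2 = 1)) := by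
  unfold ET
  rw [mem_sdiff]
  refine and_congr_right fun _ => not_congr ?_
  simp only [mem_image, Prod.exists]
  constructor
  · rintro ⟨a, b, h3, h5⟩
    rw [mem_PT hw h0 h1] at h3
    unfold PTp at h3
    unfold eR at h5
    simp only at h3 h5
    rcases h3 with h3 | h3 | h3 | h3
    · rw [if_pos (by omega)] at h5
      have := lt_inj h5
      simp only [Prod.mk.injEq] at this
      omega
    · rw [if_neg (by omega), if_pos (by omega)] at h5
      have := lt_inj h5
      simp only [Prod.mk.injEq] at this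
      omega
    · rw [if_neg (by omega), if_neg (by omega), if_pos (by omega)] at h5
      have := lt_inj h5
      simp only [Prod.mk.injEq] at this
      omega
    · rw [if_neg (by omega), if_neg (by omega), if_neg (by omega)] at h5
      have := lt_inj h5
      simp only [Prod.mk.injEq] at this
      omega
  · rintro (h3 | h3 | h3 | h3)
    · refine ⟨x, y + 1, (mem_PT hw h0 h1).2 ?_, ?_⟩
      · unfold PTp; simp only; omega
      · unfold eR
        simp only
        rw [if_pos (by omega)]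
        congr 2; ring
    · refine ⟨x + 1, y, (mem_PT hw h0 h1).2 ?_, ?_⟩
      · unfold PTp; simp only; omega
      · unfold eR
        simp only
        rw [if_neg (by omega), if_pos (by omega)]
        congr 2; ring
    · refine ⟨x, y, (mem_PT hw h0 h1).2 ?_, ?_⟩
      · unfold PTp; simp only; omega
      · unfold eR
        simp only
        rw [if_neg (by omega), if_neg (by omega), if_pos (by omega)]
    · refine ⟨x + 1, y + 1, (mem_PT hw h0 h1).2 ?_, ?_⟩
      · unfold PTp; simp only; omega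
      · unfold eR
        simp only
        rw [if_neg (by omega), if_neg (by omega), if_neg (by omega)]
        congr 2 <;> ring

/-- the caps -/
theorem cap_PT (O : Out w h) (h0 : 0 ≤ j) (h1 : j ≤ h) (j2 : j % 2 = 0) {g : ℤ × ℤ}
    (hg : g ∈ PT w h j) :
    Cap (EJ w h j) (WJ w h j O.Wo) (ev g) (gp g) (eK w g) (eR w g) := by
  have hw := O.hw
  have w2 := O.w2
  have h2 := O.h2
  obtain ⟨x, y⟩ := g
  rw [mem_PT (by omega) h0 h1] at hg
  unfold PTp at hg
  simp only at hg
  have key : ∀ e, Tg (x, y) e → ∃ u v, e = lt (u, v) ∧ (u = x ∨ u = x - 1) ∧ (v = y ∨ v = y - 1) := by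
    rintro e (h | h | h | h)
    · exact ⟨x, y, h, Or.inl rfl, Or.inl rfl⟩
    · exact ⟨x - 1, y, h, Or.inr rfl, Or.inl rfl⟩
    · exact ⟨x, y - 1, h, Or.inl rfl, Or.inr rfl⟩
    · exact ⟨x - 1, y - 1, h, Or.inr rfl, Or.inr rfl⟩
  have nl : ∀ {u v u' v' : ℤ}, lt (u, v) ≠ lt (u', v') → ¬ (u = u' ∧ v = v') := by
    rintro u v u' v' h ⟨rfl, rfl⟩; exact h rfl
  have ln : ∀ {u v u' v' : ℤ}, ¬ (u = u' ∧ v = v') → lt (u, v) ≠ lt (u', v') := by
    intro u v u' v' h h'
    have := lt_inj h'
    simp only [Prod.mk.injEq] at this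
    exact h this
  unfold eK eR WJ
  simp only
  rcases hg with hg | hg | hg | hg
  · rw [if_pos (by omega), if_pos (by omega)]
    refine cap_grid (Or.inl rfl) (Or.inr (Or.inr (Or.inl rfl))) (ln (by omega))
      (mem_EJ.2 (by omega)) (mem_EJ.2 (by omega)) (fun hp => ?_) (fun _ e he n1 n2 => ?_)
    · simp only at hp; omega
    · obtain ⟨u, v, rfl, hu, hv⟩ := key e he
      have n1 := nl n1
      have n2 := nl n2
      exact mem_union_left _ (H74.R45.mem_WR.2 (by omega))
  · rw [if_neg (by omega), if_pos (by omega), if_neg (by omega), if_pos (by omega)]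
    refine cap_grid (Or.inr (Or.inr (Or.inr rfl))) (Or.inr (Or.inl rfl)) (ln (by omega))
      (mem_EJ.2 (by omega)) (mem_EJ.2 (by omega)) (fun hp => ?_) (fun _ e he n1 n2 => ?_)
    · simp only at hp; omega
    · obtain ⟨u, v, rfl, hu, hv⟩ := key e he
      have n1 := nl n1
      have n2 := nl n2
      exact mem_union_left _ (H74.R45.mem_WR.2 (by omega))
  · rw [if_neg (by omega), if_neg (by omega), if_pos (by omega), if_neg (by omega),
      if_neg (by omega), if_pos (by omega)]
    refine cap_grid (Or.inr (Or.inl rfl)) (Or.inl rfl) (ln (by omega))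
      (mem_EJ.2 (by omega)) (mem_EJ.2 (by omega)) (fun _ e he n1 n2 => ?_) (fun hp => ?_)
    · obtain ⟨u, v, rfl, hu, hv⟩ := key e he
      have n1 := nl n1
      have n2 := nl n2
      intro hm
      rw [mem_union, mem_union, mem_EJ, H74.R45.mem_WR] at hm
      rcases hm with hm | hm | hm
      · omega
      · omega
      · have := O.far _ _ hm
        omega
    · simp only at hp; omega
  · rw [if_neg (by omega), if_neg (by omega), if_neg (by omega), if_neg (by omega),
      if_neg (by omega), if_neg (by omega)]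
    refine cap_grid (Or.inr (Or.inr (Or.inl rfl))) (Or.inr (Or.inr (Or.inr rfl))) (ln (by omega))
      (mem_EJ.2 (by omega)) (mem_EJ.2 (by omega)) (fun _ e he n1 n2 => ?_) (fun hp => ?_)
    · obtain ⟨u, v, rfl, hu, hv⟩ := key e he
      have n1 := nl n1
      have n2 := nl n2
      intro hm
      rw [mem_union, mem_union, mem_EJ, H74.R45.mem_WR] at hm
      rcases hm with hm | hm | hm
      · omega
      · omega
      · have := O.far _ _ hm
        omega
    · simp only at hp; omega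

/-- the kept and removed labels of different points are different -/
theorem dis_PT (hw : 0 ≤ w) (w2 : w % 2 = 0) (h2 : h % 2 = 0) (h0 : 0 ≤ j) (h1 : j ≤ h)
    (hh : 2 ≤ h) (j2 : j % 2 = 0) {k l : ℤ × ℤ}
    (hk : k ∈ PT w h j) (hl : l ∈ PT w h j) (hne : k ≠ l) :
    eK w k ≠ eK w l ∧ eK w k ≠ eR w l ∧ eR w k ≠ eR w l := by
  obtain ⟨x, y⟩ := k
  obtain ⟨x', y'⟩ := l
  rw [mem_PT hw h0 h1] at hk hl
  unfold PTp at hk hl
  simp only at hk hl
  have hne' : ¬ (x = x' ∧ y = y') := by
    rintro ⟨rfl, rfl⟩; exact hne rfl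
  have ln : ∀ {u v u' v' : ℤ}, ¬ (u = u' ∧ v = v') → lt (u, v) ≠ lt (u', v') := by
    intro u v u' v' h h'
    have := lt_inj h'
    simp only [Prod.mk.injEq] at this
    exact h this
  unfold eK eR
  simp only
  refine ⟨?_, ?_, ?_⟩
  all_goals
    rcases hk with hk | hk | hk | hk <;> rcases hl with hl | hl | hl | hl
  all_goals
    first
    | omega
    | (split_ifs <;> first | omega | exact ln (by omega))

/-- values of `qJ` -/
theorem qJ_side (hx : x = -1 ∨ x = w) :
    qJ w h j a b (lt (x, y)) = if (x + y) % 2 = 1 then b else 1 - b := by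
  unfold qJ
  simp only [tt_lt]
  rw [if_pos hx]

theorem qJ_row (hx : ¬ (x = -1 ∨ x = w)) (hy : y = j - 1) :
    qJ w h j a b (lt (x, y)) = if (x + y) % 2 = 0 then a else 1 - a := by
  unfold qJ
  simp only [tt_lt]
  rw [if_neg hx, if_pos hy]

/-- the weights of the kept labels -/
theorem qT_eK (hw : 2 ≤ w) (w2 : w % 2 = 0) (h2 : h % 2 = 0) (h0 : 0 ≤ j) (h1 : j ≤ h)
    (hh : 2 ≤ h) (j2 : j % 2 = 0) {g : ℤ × ℤ} (hg : g ∈ PT w h j) :
    qT w h j a b (eK w g) = mg (ev g) (qJ w h j a b (eK w g)) (qJ w h j a b (eR w g)) := by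
  obtain ⟨x, y⟩ := g
  rw [mem_PT (by omega) h0 h1] at hg
  unfold PTp at hg
  simp only at hg
  rcases hg with hg | hg | hg | hg
  · have e1 : ev (x, y) = false := ev_false.2 (by omega)
    have e2 : eK w (x, y) = lt (x, y) := by unfold eK; rw [if_pos (by simp only; omega)]
    have e3 : eR w (x, y) = lt (x, y - 1) := by unfold eR; rw [if_pos (by simp only; omega)]
    have q1 : qT w h j a b (lt (x, y)) = 1 - b * (1 - b) := by
      unfold qT; simp only [tt_lt]; rw [if_pos (by omega)]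
    rw [e1, e2, e3, q1, qJ_side (by omega), qJ_side (by omega), if_pos (by omega),
      if_neg (by omega)]
    simp only [mg, Bool.false_eq_true, if_false]
    ring
  · have e1 : ev (x, y) = false := ev_false.2 (by omega)
    have e2 : eK w (x, y) = lt (x - 1, y - 1) := by
      unfold eK; rw [if_neg (by simp only; omega), if_pos (by simp only; omega)]
    have e3 : eR w (x, y) = lt (x - 1, y) := by
      unfold eR; rw [if_neg (by simp only; omega), if_pos (by simp only; omega)]
    have q1 : qT w h j a b (lt (x - 1, y - 1)) = 1 - b * (1 - b) := by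
      unfold qT; simp only [tt_lt]; rw [if_pos (by omega)]
    rw [e1, e2, e3, q1, qJ_side (by omega), qJ_side (by omega), if_pos (by omega),
      if_neg (by omega)]
    simp only [mg, Bool.false_eq_true, if_false]
    ring
  · have e1 : ev (x, y) = true := ev_true.2 (by omega)
    have e2 : eK w (x, y) = lt (x - 1, y) := by
      unfold eK
      rw [if_neg (by simp only; omega), if_neg (by simp only; omega), if_pos (by simp only; omega)]
    have e3 : eR w (x, y) = lt (x, y) := by
      unfold eR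
      rw [if_neg (by simp only; omega), if_neg (by simp only; omega), if_pos (by simp only; omega)]
    have q1 : qT w h j a b (lt (x - 1, y)) = a * (1 - a) := by
      unfold qT; simp only [tt_lt]; rw [if_neg (by omega), if_pos (by omega)]
    rw [e1, e2, e3, q1, qJ_row (by omega) (by omega), qJ_row (by omega) (by omega),
      if_neg (by omega), if_pos (by omega)]
    simp only [mg, if_true]
    ring
  · have e1 : ev (x, y) = true := ev_true.2 (by omega)
    have e2 : eK w (x, y) = lt (x, y - 1) := by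
      unfold eK
      rw [if_neg (by simp only; omega), if_neg (by simp only; omega), if_neg (by simp only; omega)]
    have e3 : eR w (x, y) = lt (x - 1, y - 1) := by
      unfold eR
      rw [if_neg (by simp only; omega), if_neg (by simp only; omega), if_neg (by simp only; omega)]
    have q1 : qT w h j a b (lt (x, y - 1)) = a * (1 - a) := by
      unfold qT; simp only [tt_lt]; rw [if_neg (by omega), if_pos (by omega)]
    rw [e1, e2, e3, q1, qJ_row (by omega) (by omega), qJ_row (by omega) (by omega),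
      if_neg (by omega), if_pos (by omega)]
    simp only [mg, if_true]
    ring

/-- the other weights -/
theorem qT_other (hw : 2 ≤ w) (w2 : w % 2 = 0) (h2 : h % 2 = 0) (h0 : 0 ≤ j) (h1 : j ≤ h)
    (hh : 2 ≤ h) (j2 : j % 2 = 0) {e : ℤ × ℤ} (he : e ∈ EJ w h j)
    (hn : ∀ k ∈ PT w h j, e ≠ eK w k ∧ e ≠ eR w k) : qT w h j a b e = qJ w h j a b e := by
  obtain ⟨x, y, rfl⟩ := exists_lt (odd_EJ he)
  rw [mem_EJ] at he
  unfold qT
  simp only [tt_lt]
  have m : ∀ {g : ℤ × ℤ}, PTp w h j g → g ∈ PT w h j := fun hg =>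
    (mem_PT (by omega) h0 h1).2 hg
  rw [if_neg, if_neg]
  · rintro (h3 | h3)
    · refine (hn (x + 1, y) (m ?_)).1 ?_
      · unfold PTp; simp only; omega
      · unfold eK
        simp only
        rw [if_neg (by omega), if_neg (by omega), if_pos (by omega)]
        congr 2; ring
    · refine (hn (x, y + 1) (m ?_)).1 ?_
      · unfold PTp; simp only; omega
      · unfold eK
        simp only
        rw [if_neg (by omega), if_neg (by omega), if_neg (by omega)]
        congr 2; ring
  · rintro (h3 | h3)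
    · refine (hn (x, y) (m ?_)).1 ?_
      · unfold PTp; simp only; omega
      · unfold eK
        simp only
        rw [if_pos (by omega)]
    · refine (hn (x + 1, y + 1) (m ?_)).1 ?_
      · unfold PTp; simp only; omega
      · unfold eK
        simp only
        rw [if_neg (by omega), if_pos (by omega)]
        congr 2 <;> ring

/-! ### The tied environment -/

theorem OT_sub (hw : 2 ≤ w) (w2 : w % 2 = 0) (h2 : h % 2 = 0) (h0 : 0 ≤ j) (h1 : j ≤ h)
    (hh : 2 ≤ h) (j2 : j % 2 = 0) : OT w h j ⊆ EJ w h j := by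
  intro e he
  have ho : (e.1 + e.2) % 2 = 1 := by
    unfold OT at he
    obtain ⟨g, -, rfl⟩ := mem_image.1 he
    unfold eR
    split_ifs <;> exact lt_odd _
  obtain ⟨x, y, rfl⟩ := exists_lt ho
  rw [mem_OT (by omega) w2 h2 h0 h1 j2] at he
  rw [mem_EJ]
  omega

theorem ET_sub : ET w h j ⊆ EJ w h j := sdiff_subset

theorem disj_ETWT (O : Out w h) (h0 : 0 ≤ j) (h1 : j ≤ h) :
    Disjoint (ET w h j) (WT w h j O.Wo) := by
  unfold WT
  rw [disjoint_union_right]
  refine ⟨(disj_EW O h0 h1).mono_left ET_sub, ?_⟩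
  rw [disjoint_left]
  intro e he he'
  unfold ET at he
  unfold OT at he'
  obtain ⟨g, hg, rfl⟩ := mem_image.1 he'
  exact (mem_sdiff.1 he).2 (mem_image_of_mem _ (mem_filter.1 hg).1)

theorem ETWT_sub (O : Out w h) (h0 : 0 ≤ j) (h1 : j ≤ h) (j2 : j % 2 = 0) :
    ET w h j ∪ WT w h j O.Wo ⊆ GA w h ∪ O.Wo := by
  refine Subset.trans ?_ (EW_sub O h0 h1)
  unfold WT
  refine union_subset (ET_sub.trans subset_union_left) (union_subset subset_union_right ?_)
  exact (OT_sub O.hw O.w2 O.h2 h0 h1 O.hh j2).trans subset_union_left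

/-- **The tied form of the environment number `j`.** -/
noncomputable def XT (O : Out w h) (j : ℤ) (h0 : 0 ≤ j) (h1 : j ≤ h) (j2 : j % 2 = 0) : Env :=
  Env.plane (ET w h j) (WT w h j O.Wo) O.c0 O.k0 O.g (fun _ he => odd_EJ (ET_sub he))
    (disj_ETWT O h0 h1) O.hk
    (fun h => O.hroot (EJ_sub (by have := O.hw; omega) h0 h1 (ET_sub h)))
    (O.hg.anti (ETWT_sub O h0 h1 j2)) (fun v hv => O.hlow v (hv.mono (ETWT_sub O h0 h1 j2)))

variable {O : Out w h} {h0 : 0 ≤ j} {h1 : j ≤ h} {j2 : j % 2 = 0}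

@[simp] theorem XT_E : (XT O j h0 h1 j2).E = ET w h j := rfl
@[simp] theorem XT_c0 : (XT O j h0 h1 j2).c0 = O.c0 := rfl
@[simp] theorem XT_k0 : (XT O j h0 h1 j2).k0 = O.k0 := rfl
@[simp] theorem XT_T : (XT O j h0 h1 j2).T = 4 := rfl

/-- **The tied form has the same increments** at all corners which are not at the points inside the
caps. -/
theorem XJ_tied {c : ℤ × ℤ} (hr : ∀ g ∈ PT w h j, ¬ Ag g O.c0) (hc : ∀ g ∈ PT w h j, ¬ Ag g c) :
    (XT O j h0 h1 j2).incW (qT w h j a b) c = (XJ O j h0 h1).incW (qJ w h j a b) c := by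
  have hw := O.hw
  have w2 := O.w2
  have h2 := O.h2
  have hh := O.hh
  unfold XT XJ
  rw [plane_incW, plane_incW]
  unfold WT OT ET
  exact iW_ties (PT w h j) ev gp (eK w) (eR w) (fun g hg => cap_PT O h0 h1 j2 hg)
    (disj_EW O h0 h1) (fun k hk l hl hne => dis_PT (by omega) w2 h2 h0 h1 hh j2 hk hl hne)
    hr hc (fun k hk => qT_eK hw w2 h2 h0 h1 hh j2 hk)
    (fun e he hn => qT_other hw w2 h2 h0 h1 hh j2 he hn)

/-- the vertical edges -/
theorem XJ_tied_ve {x y : ℤ} (hr : ∀ g ∈ PT w h j, ¬ Ag g O.c0) (p1 : ¬ PTp w h j (x, y))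
    (p2 : ¬ PTp w h j (x, y + 1)) :
    (XT O j h0 h1 j2).incW (qT w h j a b) (ve (x, y)) =
      (XJ O j h0 h1).incW (qJ w h j a b) (ve (x, y)) := by
  refine XJ_tied hr fun g hg h => ?_
  rw [mem_PT (by have := O.hw; omega) h0 h1] at hg
  rcases ag_ve.1 h with h | h
  · rw [h] at hg; exact p1 hg
  · rw [h] at hg; exact p2 hg

/-- the horizontal edges -/
theorem XJ_tied_he {x y : ℤ} (hr : ∀ g ∈ PT w h j, ¬ Ag g O.c0) (p1 : ¬ PTp w h j (x, y))
    (p2 : ¬ PTp w h j (x + 1, y)) :
    (XT O j h0 h1 j2).incW (qT w h j a b) (he (x, y)) =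
      (XJ O j h0 h1).incW (qJ w h j a b) (he (x, y)) := by
  refine XJ_tied hr fun g hg h => ?_
  rw [mem_PT (by have := O.hw; omega) h0 h1] at hg
  rcases ag_he.1 h with h | h
  · rw [h] at hg; exact p1 hg
  · rw [h] at hg; exact p2 hg

end Pool.Agent.H13.R45
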