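import Pool.Agent.H13.R45.Tie
import Pool.Agent.H39.Q1.CutEnv
import Pool.Agent.Q1.M6c.PlaneDob

set_option autoImplicit false
open Finset

/-! # The families of ties of the tied forms

Every tie is a tile `(x, y)` with `x + y` odd. Left wall: vertex `(0, y)` tied to `(-1, y + 1)`. Right wall:
`(w, y + 1)` tied to `(w + 1, y)`. Floor: face `(x + 1, 0)` tied to `(x, -1)`. Ceiling: face `(x, h - 1)` tied
to `(x + 1, h)`. `tiesL`, `tiesR` : `TiesO`, `tiesF`, `tiesU` : `TiesC` of helper39. -/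

namespace Pool.Agent.H13.R45

open Pool.Agent.H75.Perc Pool.Agent.H75.TwoArm Pool.Agent.Q1 Pool.Agent.H33.Q1
open Pool.Agent.H75.Four Pool.Agent.H69.Q1
open Pool.Agent.H74.R45 Pool.Agent.H13.Q1
open Pool.Agent.H39.Q1 (TiesO TiesC mem_du_of)

variable {w h j x y : ℤ} {a b : ℂ}

/-! ### Connections in rectangles of tiles -/

/-- edges of the colour `o`: open labels between vertices, closed labels between faces -/
noncomputable def Gc (o : Bool) (R : Finset (ℤ × ℤ)) : Finset (ℤ × ℤ) := if o then R else du R ∅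

/-- the label of an edge of the colour `o` -/
def tc (o : Bool) : ℤ × ℤ := if o then 0 else (1, 1)

theorem mem_Gc {o : Bool} {R : Finset (ℤ × ℤ)} {p q e : ℤ × ℤ} (he : e ∈ R)
    (h : p + q = e + tc o) : p + q ∈ Gc o R := by
  unfold Gc
  cases o
  · simp only [Bool.false_eq_true, if_false]
    refine mem_du_of ?_ (notMem_empty _)
    rw [h]
    unfold tc
    simp only [Bool.false_eq_true, if_false, add_sub_cancel_right]
    exact he
  · simp only [if_true]
    rw [h]
    unfold tc
    simp only [if_true, add_zero]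
    exact he

/-- the diagonal from `(x, y)` to `(x+1, y+1)` -/
theorem ad_up {R : Finset (ℤ × ℤ)} (he : lt (x, y) ∈ R) :
    Ad (Gc (ev (x, y)) R) (gp (x, y)) (gp (x + 1, y + 1)) := by
  refine ⟨?_, mem_Gc he ?_⟩
  · unfold gp IsUnit4
    simp only [Prod.mk_sub_mk, Prod.mk.injEq]
    omega
  · unfold gp lt tc ev
    simp only
    rcases Int.emod_two_eq_zero_or_one (x + y) with h | h
    · rw [if_pos (by simpa using h)]
      simp only [Prod.mk_add_mk, add_zero, Prod.mk.injEq]
      omega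
    · rw [if_neg (by simpa using h)]
      simp only [Prod.mk_add_mk, Prod.mk.injEq]
      omega

/-- the diagonal from `(x+1, y)` to `(x, y+1)` -/
theorem ad_dn {R : Finset (ℤ × ℤ)} (he : lt (x, y) ∈ R) :
    Ad (Gc (ev (x + 1, y)) R) (gp (x + 1, y)) (gp (x, y + 1)) := by
  refine ⟨?_, mem_Gc he ?_⟩
  · unfold gp IsUnit4
    simp only [Prod.mk_sub_mk, Prod.mk.injEq]
    omega
  · unfold gp lt tc ev
    simp only
    rcases Int.emod_two_eq_zero_or_one (x + 1 + y) with h | h
    · rw [if_pos (by simpa using h)]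
      simp only [Prod.mk_add_mk, add_zero, Prod.mk.injEq]
      omega
    · rw [if_neg (by simpa using h)]
      simp only [Prod.mk_add_mk, Prod.mk.injEq]
      omega

theorem ev_eq {x y x' y' : ℤ} (h : (x + y) % 2 = (x' + y') % 2) : ev (x, y) = ev (x', y') := by
  unfold ev; simp only [h]

variable {x0 x1 y0 y1 : ℤ} {o : Bool}

/-- the base point of the colour `o` -/
def bp (o : Bool) (x0 y0 : ℤ) : ℤ × ℤ := if ev (x0, y0) = o then (x0, y0) else (x0 + 1, y0)

theorem rect_base (hx : x0 < x1) (hy : y0 < y1) (n : ℕ) : ∀ x y : ℤ, x0 ≤ x → x ≤ x1 → y0 ≤ y →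
    y ≤ y1 → ev (x, y) = o → (x - x0) + (y - y0) ≤ n →
    Co (Gc o (RT x0 x1 y0 y1)) (gp (x, y)) (gp (bp o x0 y0)) := by
  induction n using Nat.strong_induction_on with
  | _ n ih =>
    intro x y h1 h2 h3 h4 he hn
    by_cases hx0 : x = x0
    · by_cases hy0 : y = y0
      · subst hx0; subst hy0
        unfold bp; rw [if_pos he]
        exact Co.refl _ _
      · -- left side: to the point below on the right, then to the left
        have s1 : Ad (Gc o (RT x0 x1 y0 y1)) (gp (x + 1, y - 1)) (gp (x, y)) := by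
          have := ad_dn (x := x) (y := y - 1) (R := RT x0 x1 y0 y1) (lt_mem_RT.2 (by omega))
          rw [show y - 1 + 1 = y by ring, ev_eq (x' := x) (y' := y) (by omega), he] at this
          exact this
        by_cases hy1 : y - 1 = y0
        · have e1 : bp o x0 y0 = (x + 1, y - 1) := by
            unfold bp
            rw [if_neg, hx0, hy1]
            intro h5
            rw [← he] at h5
            unfold ev at h5
            simp only [decide_eq_decide] at h5
            omega
          rw [e1]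
          exact Relation.ReflTransGen.single s1.symm
        · have s2 : Ad (Gc o (RT x0 x1 y0 y1)) (gp (x, y - 2)) (gp (x + 1, y - 1)) := by
            have := ad_up (x := x) (y := y - 2) (R := RT x0 x1 y0 y1) (lt_mem_RT.2 (by omega))
            rw [show y - 2 + 1 = y - 1 by ring, ev_eq (x' := x) (y' := y) (by omega), he] at this
            exact this
          refine Co.trans (Relation.ReflTransGen.single s1.symm)
            (Co.trans (Relation.ReflTransGen.single s2.symm) ?_)
          have hn0 : 2 ≤ n := by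
            by_contra hcon
            have : (n : ℤ) ≤ 1 := by exact_mod_cast (by omega : n ≤ 1)
            omega
          exact ih (n - 2) (by omega) x (y - 2) h1 h2 (by omega) (by omega)
            (by rw [← he]; exact ev_eq (by omega)) (by push_cast [hn0]; omega)
    · by_cases hy0 : y = y0
      · have s1 : Ad (Gc o (RT x0 x1 y0 y1)) (gp (x, y)) (gp (x - 1, y + 1)) := by
          have := ad_dn (x := x - 1) (y := y) (R := RT x0 x1 y0 y1) (lt_mem_RT.2 (by omega))
          rw [show x - 1 + 1 = x by ring, he] at this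
          exact this
        by_cases hx1 : x - 1 = x0
        · have e1 : bp o x0 y0 = (x, y) := by
            unfold bp
            rw [if_neg, ← hx1, hy0]
            · congr 1; ring
            · intro h5
              rw [← he] at h5
              unfold ev at h5
              simp only [decide_eq_decide] at h5
              omega
          rw [e1]
          exact Co.refl _ _
        · have s2 : Ad (Gc o (RT x0 x1 y0 y1)) (gp (x - 2, y)) (gp (x - 1, y + 1)) := by
            have := ad_up (x := x - 2) (y := y) (R := RT x0 x1 y0 y1) (lt_mem_RT.2 (by omega))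
            rw [show x - 2 + 1 = x - 1 by ring, ev_eq (x' := x) (y' := y) (by omega), he] at this
            exact this
          refine Co.trans (Relation.ReflTransGen.single s1)
            (Co.trans (Relation.ReflTransGen.single s2.symm) ?_)
          have hn0 : 2 ≤ n := by
            by_contra hcon
            have : (n : ℤ) ≤ 1 := by exact_mod_cast (by omega : n ≤ 1)
            omega
          exact ih (n - 2) (by omega) (x - 2) y (by omega) (by omega) h3 h4
            (by rw [← he]; exact ev_eq (by omega)) (by push_cast [hn0]; omega)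
      · -- inside: down to the left
        have s1 : Ad (Gc o (RT x0 x1 y0 y1)) (gp (x - 1, y - 1)) (gp (x, y)) := by
          have := ad_up (x := x - 1) (y := y - 1) (R := RT x0 x1 y0 y1) (lt_mem_RT.2 (by omega))
          rw [show x - 1 + 1 = x by ring, show y - 1 + 1 = y by ring,
            ev_eq (x' := x) (y' := y) (by omega), he] at this
          exact this
        refine Co.trans (Relation.ReflTransGen.single s1.symm) ?_
        have hn0 : 2 ≤ n := by
          by_contra hcon
          have : (n : ℤ) ≤ 1 := by exact_mod_cast (by omega : n ≤ 1)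
          omega
        exact ih (n - 2) (by omega) (x - 1) (y - 1) (by omega) (by omega) (by omega) (by omega)
          (by rw [← he]; exact ev_eq (by omega)) (by push_cast [hn0]; omega)

/-- **All points of one colour of a rectangle of tiles are joined.** -/
theorem rect_co (hx : x0 < x1) (hy : y0 < y1) {p q : ℤ × ℤ} (hp : x0 ≤ p.1 ∧ p.1 ≤ x1 ∧ y0 ≤ p.2 ∧
    p.2 ≤ y1) (hq : x0 ≤ q.1 ∧ q.1 ≤ x1 ∧ y0 ≤ q.2 ∧ q.2 ≤ y1) (hep : ev p = o) (heq : ev q = o) :
    Co (Gc o (RT x0 x1 y0 y1)) (gp p) (gp q) := by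
  have k : ∀ p : ℤ × ℤ, (x0 ≤ p.1 ∧ p.1 ≤ x1 ∧ y0 ≤ p.2 ∧ p.2 ≤ y1) → ev p = o →
      Co (Gc o (RT x0 x1 y0 y1)) (gp p) (gp (bp o x0 y0)) := by
    rintro ⟨x, y⟩ ⟨h1, h2, h3, h4⟩ he
    simp only at h1 h2 h3 h4
    refine rect_base hx hy ((x - x0) + (y - y0)).toNat x y h1 h2 h3 h4 he ?_
    rw [Int.toNat_of_nonneg (by omega)]
  exact (k p hp hep).trans (k q hq heq).symm

/-- the ends of an edge of a rectangle of tiles -/
theorem rect_end {p q : ℤ × ℤ} (h : IsUnit4 (q - p))
    (he : if o = true then p + q ∈ RT x0 x1 y0 y1 else p + q - (1, 1) ∈ RT x0 x1 y0 y1) :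
    ∃ g : ℤ × ℤ, (x0 ≤ g.1 ∧ g.1 ≤ x1 ∧ y0 ≤ g.2 ∧ g.2 ≤ y1) ∧ ev g = o ∧ gp g = p := by
  obtain ⟨p1, p2⟩ := p
  obtain ⟨q1, q2⟩ := q
  have hu := unit_cases h
  simp only at hu
  cases o
  · simp only [Bool.false_eq_true, if_false] at he
    obtain ⟨x, y, h1, h2, h3, h4, h5⟩ := mem_RT.1 he
    unfold lt at h1
    simp only [Prod.mk_add_mk, Prod.mk_sub_mk, Prod.mk.injEq] at h1
    refine ⟨(p1 + p2 - 1, p2 - p1), ?_, ?_, ?_⟩
    · simp only; omega
    · rw [ev_false]; omega
    · unfold gp; simp only [Prod.mk.injEq]; omega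
  · simp only [if_true] at he
    obtain ⟨x, y, h1, h2, h3, h4, h5⟩ := mem_RT.1 he
    unfold lt at h1
    simp only [Prod.mk_add_mk, Prod.mk.injEq] at h1
    refine ⟨(p1 + p2, p2 - p1), ?_, ?_, ?_⟩
    · simp only; omega
    · rw [ev_true]; omega
    · unfold gp; simp only [Prod.mk.injEq]; omega

/-! ### The four families -/

/-- ties of the left wall -/
noncomputable def TiL (h j : ℤ) : Finset (ℤ × ℤ) :=
  (RT (-1) 0 (j + 1) h).filter (fun e => (tt e).2 % 2 = 0)

/-- ties of the right wall -/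
noncomputable def TiR (w j : ℤ) : Finset (ℤ × ℤ) :=
  (RT w (w + 1) (-1) (j - 1)).filter (fun e => (tt e).2 % 2 = 1)

/-- ties of the floor -/
noncomputable def TiF (w : ℤ) : Finset (ℤ × ℤ) :=
  (RT 0 w (-1) 0).filter (fun e => (tt e).1 % 2 = 0)

/-- ties of the ceiling -/
noncomputable def TiU (w h : ℤ) : Finset (ℤ × ℤ) :=
  (RT 1 w (h - 1) h).filter (fun e => (tt e).1 % 2 = 0)

theorem mem_TiL : lt (x, y) ∈ TiL h j ↔ x = -1 ∧ j < y ∧ y < h ∧ y % 2 = 0 := by
  unfold TiL; rw [mem_filter, lt_mem_RT, tt_lt]; simp only; omega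

theorem mem_TiR : lt (x, y) ∈ TiR w j ↔ x = w ∧ -1 ≤ y ∧ y < j - 1 ∧ y % 2 = 1 := by
  unfold TiR; rw [mem_filter, lt_mem_RT, tt_lt]; simp only; omega

theorem mem_TiF : lt (x, y) ∈ TiF w ↔ y = -1 ∧ 0 ≤ x ∧ x < w ∧ x % 2 = 0 := by
  unfold TiF; rw [mem_filter, lt_mem_RT, tt_lt]; simp only; omega

theorem mem_TiU : lt (x, y) ∈ TiU w h ↔ y = h - 1 ∧ 0 < x ∧ x < w ∧ x % 2 = 0 := by
  unfold TiU; rw [mem_filter, lt_mem_RT, tt_lt]; simp only; omega

theorem odd_TiL {e : ℤ × ℤ} (he : e ∈ TiL h j) : (e.1 + e.2) % 2 = 1 :=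
  odd_RT (mem_filter.1 he).1

theorem odd_TiR {e : ℤ × ℤ} (he : e ∈ TiR w j) : (e.1 + e.2) % 2 = 1 :=
  odd_RT (mem_filter.1 he).1

theorem odd_TiF {e : ℤ × ℤ} (he : e ∈ TiF w) : (e.1 + e.2) % 2 = 1 :=
  odd_RT (mem_filter.1 he).1

theorem odd_TiU {e : ℤ × ℤ} (he : e ∈ TiU w h) : (e.1 + e.2) % 2 = 1 :=
  odd_RT (mem_filter.1 he).1

/-- the grid point `(x + i, y + k)` of the label of the tile `(x, y)` -/
def pt (i k : ℤ) (e : ℤ × ℤ) : ℤ × ℤ := gp ((tt e).1 + i, (tt e).2 + k)

theorem pt_lt (i k : ℤ) : pt i k (lt (x, y)) = gp (x + i, y + k) := by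
  unfold pt; rw [tt_lt]

/-- the vertices of a tile `(x, y)`, `x + y` odd -/
theorem vert_odd (ho : (x + y) % 2 = 1) : IsUnit4 (gp (x + 1, y) - gp (x, y + 1)) ∧
    gp (x, y + 1) + gp (x + 1, y) = lt (x, y) := by
  unfold gp lt IsUnit4
  simp only [Prod.mk_sub_mk, Prod.mk_add_mk, Prod.mk.injEq]
  omega

/-- the faces of a tile `(x, y)`, `x + y` odd -/
theorem face_odd (ho : (x + y) % 2 = 1) : IsUnit4 (gp (x + 1, y + 1) - gp (x, y)) ∧
    gp (x, y) + gp (x + 1, y + 1) = lt (x, y) + (1, 1) := by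
  unfold gp lt IsUnit4
  simp only [Prod.mk_sub_mk, Prod.mk_add_mk, Prod.mk.injEq]
  omega

theorem unit_neg' {p q : ℤ × ℤ} (h : IsUnit4 (p - q)) : IsUnit4 (q - p) := by
  have := isUnit4_neg h
  rwa [neg_sub] at this

theorem Gc_true (R : Finset (ℤ × ℤ)) : Gc true R = R := rfl

theorem Gc_false (R : Finset (ℤ × ℤ)) : Gc false R = du R ∅ := rfl

section Fam

variable {O : Out w h} {h0 : 0 ≤ j} {h1 : j ≤ h} {j2 : j % 2 = 0}

/-- random labels of the tied form which are ties -/
theorem TiL_sub (O : Out w h) (h0 : 0 ≤ j) (h1 : j ≤ h) (j2 : j % 2 = 0) :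
    TiL h j ⊆ ET w h j := by
  intro e he
  obtain ⟨x, y, rfl⟩ := exists_lt (odd_TiL he)
  have hw := O.hw
  rw [mem_TiL] at he
  rw [mem_ET (by omega) O.w2 O.h2 h0 h1 j2, mem_EJ]
  omega

theorem TiR_sub (O : Out w h) (h0 : 0 ≤ j) (h1 : j ≤ h) (j2 : j % 2 = 0) :
    TiR w j ⊆ ET w h j := by
  intro e he
  obtain ⟨x, y, rfl⟩ := exists_lt (odd_TiR he)
  have hw := O.hw
  rw [mem_TiR] at he
  rw [mem_ET (by omega) O.w2 O.h2 h0 h1 j2, mem_EJ]
  omega

theorem TiF_sub (O : Out w h) : TiF w ⊆ ET w h 0 := by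
  intro e he
  obtain ⟨x, y, rfl⟩ := exists_lt (odd_TiF he)
  have hw := O.hw
  have hh := O.hh
  rw [mem_TiF] at he
  rw [mem_ET (by omega) O.w2 O.h2 le_rfl (by omega) rfl, mem_EJ]
  omega

theorem TiU_sub (O : Out w h) : TiU w h ⊆ ET w h h := by
  intro e he
  obtain ⟨x, y, rfl⟩ := exists_lt (odd_TiU he)
  have hw := O.hw
  have hh := O.hh
  rw [mem_TiU] at he
  rw [mem_ET (by omega) O.w2 O.h2 (by omega) le_rfl O.h2, mem_EJ]
  omega

/-- **Ties of the left wall.** -/
theorem tiesL : TiesO (XT O j h0 h1 j2) (WT w h j O.Wo) (TiL h j) (RT (-2) (-1) (-1) h)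
    (pt 1 0) (pt 0 1) := by
  have hh := O.hh
  have hsub := TiL_sub O h0 h1 j2
  refine ⟨hsub, (disj_ETWT O h0 h1).mono_left hsub, ?_, ?_, ?_, ?_, ?_⟩
  · intro e he
    obtain ⟨x, y, rfl⟩ := exists_lt (odd_RT he)
    rw [lt_mem_RT] at he
    exact mem_union_left _ (mem_union_left _ (H74.R45.mem_WR.2 (by omega)))
  · intro e he
    obtain ⟨x, y, rfl⟩ := exists_lt (odd_TiL he)
    rw [mem_TiL] at he
    rw [pt_lt, pt_lt, add_zero, add_zero]
    exact (vert_odd (by omega)).1
  · intro e he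
    obtain ⟨x, y, rfl⟩ := exists_lt (odd_TiL he)
    rw [mem_TiL] at he
    rw [pt_lt, pt_lt, add_zero, add_zero]
    exact (vert_odd (by omega)).2
  · intro e he e' he'
    obtain ⟨x, y, rfl⟩ := exists_lt (odd_TiL he)
    obtain ⟨x', y', rfl⟩ := exists_lt (odd_TiL he')
    rw [mem_TiL] at he he'
    rw [pt_lt, pt_lt, add_zero, add_zero, ← Gc_true (RT (-2) (-1) (-1) h)]
    exact rect_co (by omega) (by omega) (by simp only; omega) (by simp only; omega)
      (ev_true.2 (by omega)) (ev_true.2 (by omega))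
  · intro p q hu hl e he
    obtain ⟨x, y, rfl⟩ := exists_lt (odd_TiL he)
    rw [mem_TiL] at he
    obtain ⟨g, hg, hge, rfl⟩ := rect_end (o := true) hu (by simpa using hl)
    rw [pt_lt, add_zero, ← Gc_true (RT (-2) (-1) (-1) h)]
    exact rect_co (by omega) (by omega) (by simp only; omega) hg
      (ev_true.2 (by omega)) hge

/-- **Ties of the right wall.** -/
theorem tiesR : TiesO (XT O j h0 h1 j2) (WT w h j O.Wo) (TiR w j) (RT (w + 1) (w + 2) (-1) h)
    (pt 0 1) (pt 1 0) := by
  have hh := O.hh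
  have w2 := O.w2
  have hsub := TiR_sub O h0 h1 j2
  refine ⟨hsub, (disj_ETWT O h0 h1).mono_left hsub, ?_, ?_, ?_, ?_, ?_⟩
  · intro e he
    obtain ⟨x, y, rfl⟩ := exists_lt (odd_RT he)
    rw [lt_mem_RT] at he
    exact mem_union_left _ (mem_union_left _ (H74.R45.mem_WR.2 (by omega)))
  · intro e he
    obtain ⟨x, y, rfl⟩ := exists_lt (odd_TiR he)
    rw [mem_TiR] at he
    rw [pt_lt, pt_lt, add_zero, add_zero]
    exact unit_neg' (vert_odd (by omega)).1
  · intro e he
    obtain ⟨x, y, rfl⟩ := exists_lt (odd_TiR he)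
    rw [mem_TiR] at he
    rw [pt_lt, pt_lt, add_zero, add_zero, add_comm]
    exact (vert_odd (by omega)).2
  · intro e he e' he'
    obtain ⟨x, y, rfl⟩ := exists_lt (odd_TiR he)
    obtain ⟨x', y', rfl⟩ := exists_lt (odd_TiR he')
    rw [mem_TiR] at he he'
    rw [pt_lt, pt_lt, add_zero, add_zero, ← Gc_true (RT (w + 1) (w + 2) (-1) h)]
    exact rect_co (by omega) (by omega) (by simp only; omega) (by simp only; omega)
      (ev_true.2 (by omega)) (ev_true.2 (by omega))
  · intro p q hu hl e he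
    obtain ⟨x, y, rfl⟩ := exists_lt (odd_TiR he)
    rw [mem_TiR] at he
    obtain ⟨g, hg, hge, rfl⟩ := rect_end (o := true) hu (by simpa using hl)
    rw [pt_lt, add_zero, ← Gc_true (RT (w + 1) (w + 2) (-1) h)]
    exact rect_co (by omega) (by omega) (by simp only; omega) hg
      (ev_true.2 (by omega)) hge

/-- **Ties of the floor**, with any rectangle of closed labels below. -/
theorem tiesF {x0 x1 y0 : ℤ} (hx0 : x0 ≤ 0) (hx1 : w ≤ x1) (hy0 : y0 < -1)
    (hW : Disjoint (RT x0 x1 y0 (-1)) O.Wo) :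
    TiesC (XT O 0 le_rfl (by have := O.hh; omega) rfl) (WT w h 0 O.Wo) (TiF w)
      (RT x0 x1 y0 (-1)) (pt 1 1) (pt 0 0) := by
  have hh := O.hh
  have hw := O.hw
  have w2 := O.w2
  have hsub := TiF_sub O
  refine ⟨hsub, (disj_ETWT O le_rfl (by omega)).mono_left hsub, ?_, ?_, ?_, ?_, ?_, ?_⟩
  · rw [disjoint_left]
    intro e he he'
    obtain ⟨x, y, rfl⟩ := exists_lt (odd_RT he)
    rw [lt_mem_RT] at he
    have := ET_sub he'
    rw [mem_EJ] at this
    omega
  · rw [disjoint_left]
    intro e he he'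
    have he2 := he
    obtain ⟨x, y, rfl⟩ := exists_lt (odd_RT he)
    rw [lt_mem_RT] at he
    unfold WT WJ at he'
    rw [mem_union, mem_union, H74.R45.mem_WR, mem_OT (by omega) w2 O.h2 le_rfl (by omega) rfl] at he'
    rcases he' with (h5 | h5) | h5
    · omega
    · exact disjoint_left.1 hW he2 h5
    · omega
  · intro e he
    obtain ⟨x, y, rfl⟩ := exists_lt (odd_TiF he)
    rw [mem_TiF] at he
    rw [pt_lt, pt_lt, add_zero, add_zero]
    exact (face_odd (by omega)).1
  · intro e he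
    obtain ⟨x, y, rfl⟩ := exists_lt (odd_TiF he)
    rw [mem_TiF] at he
    rw [pt_lt, pt_lt, add_zero, add_zero]
    exact (face_odd (by omega)).2
  · intro e he e' he'
    obtain ⟨x, y, rfl⟩ := exists_lt (odd_TiF he)
    obtain ⟨x', y', rfl⟩ := exists_lt (odd_TiF he')
    rw [mem_TiF] at he he'
    rw [pt_lt, pt_lt, add_zero, add_zero, add_zero, add_zero, ← Gc_false]
    exact rect_co (by omega) (by omega) (by simp only; omega) (by simp only; omega)
      (ev_false.2 (by omega)) (ev_false.2 (by omega))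
  · intro p q hu hl e he
    obtain ⟨x, y, rfl⟩ := exists_lt (odd_TiF he)
    rw [mem_TiF] at he
    obtain ⟨g, hg, hge, rfl⟩ := rect_end (o := false) hu (by simpa using hl)
    rw [pt_lt, add_zero, add_zero, ← Gc_false]
    exact rect_co (by omega) (by omega) (by simp only; omega) hg
      (ev_false.2 (by omega)) hge

/-- **Ties of the ceiling**, with any rectangle of closed labels above. -/
theorem tiesU {x0 x1 y1 : ℤ} (hx0 : x0 ≤ 1) (hx1 : w ≤ x1) (hy1 : h < y1)
    (hW : Disjoint (RT x0 x1 h y1) O.Wo) :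
    TiesC (XT O h (by have := O.hh; omega) le_rfl O.h2) (WT w h h O.Wo) (TiU w h)
      (RT x0 x1 h y1) (pt 0 0) (pt 1 1) := by
  have hh := O.hh
  have h2 := O.h2
  have hw := O.hw
  have w2 := O.w2
  have hsub := TiU_sub O
  refine ⟨hsub, (disj_ETWT O (by omega) le_rfl).mono_left hsub, ?_, ?_, ?_, ?_, ?_, ?_⟩
  · rw [disjoint_left]
    intro e he he'
    obtain ⟨x, y, rfl⟩ := exists_lt (odd_RT he)
    rw [lt_mem_RT] at he
    have := ET_sub he'
    rw [mem_EJ] at this
    omega
  · rw [disjoint_left]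
    intro e he he'
    have he2 := he
    obtain ⟨x, y, rfl⟩ := exists_lt (odd_RT he)
    rw [lt_mem_RT] at he
    unfold WT WJ at he'
    rw [mem_union, mem_union, H74.R45.mem_WR, mem_OT (by omega) w2 O.h2 (by omega) le_rfl h2] at he'
    rcases he' with (h5 | h5) | h5
    · omega
    · exact disjoint_left.1 hW he2 h5
    · omega
  · intro e he
    obtain ⟨x, y, rfl⟩ := exists_lt (odd_TiU he)
    rw [mem_TiU] at he
    rw [pt_lt, pt_lt, add_zero, add_zero]
    exact unit_neg' (face_odd (by omega)).1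
  · intro e he
    obtain ⟨x, y, rfl⟩ := exists_lt (odd_TiU he)
    rw [mem_TiU] at he
    rw [pt_lt, pt_lt, add_zero, add_zero, add_comm]
    exact (face_odd (by omega)).2
  · intro e he e' he'
    obtain ⟨x, y, rfl⟩ := exists_lt (odd_TiU he)
    obtain ⟨x', y', rfl⟩ := exists_lt (odd_TiU he')
    rw [mem_TiU] at he he'
    rw [pt_lt, pt_lt, ← Gc_false]
    exact rect_co (by omega) (by omega) (by simp only; omega) (by simp only; omega)
      (ev_false.2 (by omega)) (ev_false.2 (by omega))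
  · intro p q hu hl e he
    obtain ⟨x, y, rfl⟩ := exists_lt (odd_TiU he)
    rw [mem_TiU] at he
    obtain ⟨g, hg, hge, rfl⟩ := rect_end (o := false) hu (by simpa using hl)
    rw [pt_lt, ← Gc_false]
    exact rect_co (by omega) (by omega) (by simp only; omega) hg
      (ev_false.2 (by omega)) hge

/-- the tied form is a plane environment -/
theorem XT_planeLike : (XT O j h0 h1 j2).PlaneLike (WT w h j O.Wo) := Env.planeLike_plane

end Fam

end Pool.Agent.H13.R45
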