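import Pool.Agent.H13.Q1.Merge
import Pool.Agent.H74.R45.Geo

set_option autoImplicit false
open Finset

/-! # Grid points of the tile frame

The grid point `(x, y)` of the tile frame is a vertex if `x + y` is even and a face if `x + y` is odd.
`gp (x, y)` is its index. The four corners at the point (`at_iff`), the four tiles at the point
(`lab_at`), and the structure `Cap` of `Merge.lean` in these coordinates (`cap_grid`). -/

namespace Pool.Agent.H13.R45

open Pool.Agent.H75.Perc Pool.Agent.H75.TwoArm Pool.Agent.Q1 Pool.Agent.H33.Q1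
open Pool.Agent.H74.R45 Pool.Agent.H13.Q1

/-- index of the vertex or face at a grid point -/
def gp (g : ℤ × ℤ) : ℤ × ℤ := ((g.1 - g.2 + 1) / 2, (g.1 + g.2 + 1) / 2)

/-- is the grid point a vertex? -/
def ev (g : ℤ × ℤ) : Bool := decide ((g.1 + g.2) % 2 = 0)

theorem ev_true {x y : ℤ} : ev (x, y) = true ↔ (x + y) % 2 = 0 := by
  unfold ev; simp

theorem ev_false {x y : ℤ} : ev (x, y) = false ↔ (x + y) % 2 = 1 := by
  unfold ev; simp

/-- the corner `c` is at the grid point `g` -/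
def Ag (g c : ℤ × ℤ) : Prop := At (ev g) (gp g) c

/-- the four corners at a grid point -/
theorem ag_iff {x y : ℤ} {c : ℤ × ℤ} : Ag (x, y) c ↔
    c = he (x, y) ∨ c = he (x - 1, y) ∨ c = ve (x, y) ∨ c = ve (x, y - 1) := by
  obtain ⟨a, b⟩ := c
  unfold Ag At gp ev he ve vx fi
  simp only [Prod.mk.injEq, decide_eq_true_eq]
  rcases Int.emod_two_eq_zero_or_one (x + y) with h | h
  · rw [if_pos h]; omega
  · rw [if_neg (by omega)]; omega

/-- the grid points of a corner -/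
theorem ag_ve {x y : ℤ} {g : ℤ × ℤ} : Ag g (ve (x, y)) ↔ g = (x, y) ∨ g = (x, y + 1) := by
  obtain ⟨a, b⟩ := g
  rw [ag_iff]
  unfold he ve
  simp only [Prod.mk.injEq]
  omega

theorem ag_he {x y : ℤ} {g : ℤ × ℤ} : Ag g (he (x, y)) ↔ g = (x, y) ∨ g = (x + 1, y) := by
  obtain ⟨a, b⟩ := g
  rw [ag_iff]
  unfold he ve
  simp only [Prod.mk.injEq]
  omega

/-- every corner is an edge of the grid -/
theorem corner_cases (c : ℤ × ℤ) : (∃ x y, c = ve (x, y)) ∨ ∃ x y, c = he (x, y) := by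
  obtain ⟨a, b⟩ := c
  rcases Int.emod_two_eq_zero_or_one (a + b) with h | h
  · right
    refine ⟨(a + b - 2) / 2, (b - a) / 2, ?_⟩
    unfold he
    simp only [Prod.mk.injEq]
    omega
  · left
    refine ⟨(a + b - 1) / 2, (b - a - 1) / 2, ?_⟩
    unfold ve
    simp only [Prod.mk.injEq]
    omega

/-- the tiles at a grid point -/
def Tg (g e : ℤ × ℤ) : Prop :=
  e = lt (g.1, g.2) ∨ e = lt (g.1 - 1, g.2) ∨ e = lt (g.1, g.2 - 1) ∨ e = lt (g.1 - 1, g.2 - 1)

theorem lab_at {g c : ℤ × ℤ} (h : Ag g c) : Tg g (lab c) := by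
  obtain ⟨x, y⟩ := g
  unfold Tg
  simp only
  rcases Int.emod_two_eq_zero_or_one (x + y) with h0 | h0
  · rcases ag_iff.1 h with h | h | h | h
    · rw [h, lab_he_N h0]; exact Or.inl rfl
    · rw [h, lab_he_S (by omega)]; exact Or.inr (Or.inr (Or.inr rfl))
    · rw [h, lab_ve_W h0]; exact Or.inr (Or.inl rfl)
    · rw [h, lab_ve_E (by omega)]; exact Or.inr (Or.inr (Or.inl rfl))
  · rcases ag_iff.1 h with h | h | h | h
    · rw [h, lab_he_S h0]; exact Or.inr (Or.inr (Or.inl rfl))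
    · rw [h, lab_he_N (by omega)]; exact Or.inr (Or.inl rfl)
    · rw [h, lab_ve_E h0]; exact Or.inl rfl
    · rw [h, lab_ve_W (by omega)]; exact Or.inr (Or.inr (Or.inr rfl))

theorem exists_at {g e : ℤ × ℤ} (h : Tg g e) : ∃ c, Ag g c ∧ lab c = e := by
  obtain ⟨x, y⟩ := g
  unfold Tg at h
  simp only at h
  rcases Int.emod_two_eq_zero_or_one (x + y) with h0 | h0
  · rcases h with h | h | h | h
    · exact ⟨he (x, y), ag_iff.2 (Or.inl rfl), by rw [lab_he_N h0, h]⟩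
    · exact ⟨ve (x, y), ag_iff.2 (Or.inr (Or.inr (Or.inl rfl))), by rw [lab_ve_W h0, h]⟩
    · exact ⟨ve (x, y - 1), ag_iff.2 (Or.inr (Or.inr (Or.inr rfl))),
        by rw [lab_ve_E (by omega), h]⟩
    · exact ⟨he (x - 1, y), ag_iff.2 (Or.inr (Or.inl rfl)), by rw [lab_he_S (by omega), h]⟩
  · rcases h with h | h | h | h
    · exact ⟨ve (x, y), ag_iff.2 (Or.inr (Or.inr (Or.inl rfl))), by rw [lab_ve_E h0, h]⟩
    · exact ⟨he (x - 1, y), ag_iff.2 (Or.inr (Or.inl rfl)), by rw [lab_he_N (by omega), h]⟩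
    · exact ⟨he (x, y), ag_iff.2 (Or.inl rfl), by rw [lab_he_S h0, h]⟩
    · exact ⟨ve (x, y - 1), ag_iff.2 (Or.inr (Or.inr (Or.inr rfl))),
        by rw [lab_ve_W (by omega), h]⟩

/-- `Cap` at a grid point -/
theorem cap_grid {E W : Finset (ℤ × ℤ)} {g e1 e2 : ℤ × ℤ} (h1 : Tg g e1) (h2 : Tg g e2)
    (hne : e1 ≠ e2) (m1 : e1 ∈ E) (m2 : e2 ∈ E)
    (hO : (g.1 + g.2) % 2 = 0 → ∀ e, Tg g e → e ≠ e1 → e ≠ e2 → e ∉ E ∪ W)
    (hC : (g.1 + g.2) % 2 = 1 → ∀ e, Tg g e → e ≠ e1 → e ≠ e2 → e ∈ W) :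
    Cap E W (ev g) (gp g) e1 e2 := by
  refine ⟨exists_at h1, exists_at h2, hne, m1, m2, ?_, ?_⟩
  · intro ho x hx n1 n2
    refine hO (ev_true.1 ho) _ (lab_at ?_) n1 n2
    unfold Ag At
    rw [if_pos ho]; exact hx
  · intro ho x hx n1 n2
    refine hC (ev_false.1 ho) _ (lab_at ?_) n1 n2
    unfold Ag At
    rw [if_neg (by rw [ho]; simp)]; exact hx

end Pool.Agent.H13.R45
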