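import Pool.Agent.H13.R45.Mul

set_option autoImplicit false
open Finset

/-! # `Multi` for the lower and the upper tied environment -/

namespace Pool.Agent.H13.R45

open Pool.Agent.H75.Perc Pool.Agent.H75.TwoArm Pool.Agent.Q1 Pool.Agent.H33.Q1
open Pool.Agent.H75.Four Pool.Agent.H69.Q1
open Pool.Agent.H74.R45 Pool.Agent.H13.Q1
open Pool.Agent.H39.Q1

variable {w h H x y : ℤ} {S K B : Finset (ℤ × ℤ)}

/-- the lower environment with frozen real tiles -/
noncomputable def XL (O : Out w h) (S : Finset (ℤ × ℤ)) (hS : S ⊆ RRL h) : Env :=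
  XF O 0 le_rfl (by have := O.hh; omega) rfl (RRL h) S hS (RRL_sub O)

/-- the upper environment with frozen real tiles -/
noncomputable def XU (O : Out w h) (S : Finset (ℤ × ℤ)) (hS : S ⊆ RRU w h) : Env :=
  XF O h (by have := O.hh; omega) le_rfl O.h2 (RRU w h) S hS (RRU_sub O)

/-- open labels of the lower environment with frozen real tiles -/
noncomputable def WL' (O : Out w h) (S : Finset (ℤ × ℤ)) : Finset (ℤ × ℤ) := WT w h 0 O.Wo ∪ S

/-- open labels of the upper environment with frozen real tiles -/
noncomputable def WU' (O : Out w h) (S : Finset (ℤ × ℤ)) : Finset (ℤ × ℤ) := WT w h h O.Wo ∪ S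

variable {O : Out w h}

@[simp] theorem XL_c0 {hS : S ⊆ RRL h} : (XL O S hS).c0 = O.c0 := rfl
@[simp] theorem XU_c0 {hS : S ⊆ RRU w h} : (XU O S hS).c0 = O.c0 := rfl
@[simp] theorem XL_k0 {hS : S ⊆ RRL h} : (XL O S hS).k0 = O.k0 := rfl
@[simp] theorem XU_k0 {hS : S ⊆ RRU w h} : (XU O S hS).k0 = O.k0 := rfl
@[simp] theorem XL_T {hS : S ⊆ RRL h} : (XL O S hS).T = 4 := rfl
@[simp] theorem XU_T {hS : S ⊆ RRU w h} : (XU O S hS).T = 4 := rfl

theorem XL_E {hS : S ⊆ RRL h} : (XL O S hS).E = RT 0 w 0 h ∪ TTL w h := E_low O
theorem XU_E {hS : S ⊆ RRU w h} : (XU O S hS).E = RT 0 w (-1) (h - 1) ∪ TTU w h := E_up O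

/-- the single tile -/
theorem tile_sub {R : Finset (ℤ × ℤ)} (hl : lt (x, y) ∈ R) : RT x (x + 1) y (y + 1) ⊆ R := by
  intro e he
  obtain ⟨u, v, rfl, h1, h2, h3, h4⟩ := mem_RT.1 he
  have e1 : u = x := by omega
  have e2 : v = y := by omega
  rw [e1, e2]; exact hl

theorem Gc_mono {o : Bool} {R R' : Finset (ℤ × ℤ)} (hR : R ⊆ R') : Gc o R ⊆ Gc o R' := by
  unfold Gc
  cases o
  · simp only [Bool.false_eq_true, if_false]
    unfold du
    exact map_subset_map.2 (sdiff_subset_sdiff hR (Subset.refl _))
  · simpa using hR

/-- a real tile next to a wall: its ends are joined to the wall -/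
theorem tile_co {o : Bool} {R : Finset (ℤ × ℤ)} (hl : lt (x, y) ∈ R) {p q : ℤ × ℤ}
    (hpq : IsUnit4 (q - p))
    (he : if o = true then p + q = lt (x, y) else p + q - (1, 1) = lt (x, y)) {g : ℤ × ℤ}
    (hg : InR x (x + 1) y (y + 1) g) (hge : ev g = o) {z : ℤ × ℤ} (hz : Co (Gc o R) z (gp g)) :
    Co (Gc o R) z p := by
  have hm : lt (x, y) ∈ RT x (x + 1) y (y + 1) := lt_mem_RT.2 (by omega)
  obtain ⟨g', h1, h2, h3⟩ := rect_end (o := o) (x0 := x) (x1 := x + 1) (y0 := y) (y1 := y + 1)
    hpq (by
      cases o
      · simp only [Bool.false_eq_true, if_false] at he ⊢; rw [he]; exact hm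
      · simp only [if_true] at he ⊢; rw [he]; exact hm)
  rw [← h3]
  exact hz.trans ((rect_co (o := o) (by omega) (by omega) hg h1 hge h2).mono
    (Gc_mono (tile_sub hl)))

/-- **The lower environment.** `K` : the closed labels of the rectangle `[x0, x1) × [y0, -1)`. -/
theorem multiL (hS : S ⊆ RRL h) {x0 x1 y0 : ℤ} (hx0 : x0 ≤ 0) (hx1 : w ≤ x1) (hy0 : y0 < -1)
    (hK : Disjoint (RT x0 x1 y0 (-1)) O.Wo)
    (hB : RT 0 (H + 1) 0 h ∪ RT 0 w 0 (H + 1) ⊆ B) (hB' : B ⊆ RT 0 w 0 h) (hH : 1 ≤ H) :
    Multi (XL O S hS) (WL' O S) (RT 0 w 0 h) B (TTL w h) fmL id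
      (WlL h S (RT x0 x1 y0 (-1))) (LaL w h H) bL oL := by
  have hw := O.hw
  have hh := O.hh
  have w2 := O.w2
  have h2 := O.h2
  have hTL : Disjoint (TiL h 0) (WL' O S) := by
    rw [disjoint_left]
    intro e he he'
    obtain ⟨x, y, rfl⟩ := exists_lt (odd_TiL he)
    unfold WL' at he'
    rw [mem_TiL] at he
    rw [mem_union, mem_W_low] at he'
    rcases he' with (h5 | h5 | h5 | h5 | h5) | h5
    · omega
    · omega
    · omega
    · omega
    · have := O.far _ _ h5; omega
    · have := mem_RRL.1 (hS h5); omega
  have hTF : Disjoint (TiF w) (WL' O S) := by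
    rw [disjoint_left]
    intro e he he'
    obtain ⟨x, y, rfl⟩ := exists_lt (odd_TiF he)
    unfold WL' at he'
    rw [mem_TiF] at he
    rw [mem_union, mem_W_low] at he'
    rcases he' with (h5 | h5 | h5 | h5 | h5) | h5
    · omega
    · omega
    · omega
    · omega
    · have := O.far _ _ h5; omega
    · have := mem_RRL.1 (hS h5); omega
  refine ⟨XF_planeLike, ?_, ?_, hB', ?_, ?_, ?_, ?_, ?_, ?_, ?_⟩
  · rw [XL_E]; exact subset_union_left
  · rw [XL_E]; exact subset_union_right
  · rw [disjoint_left]
    intro e he he'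
    obtain ⟨x, y, rfl⟩ := exists_lt (odd_RT he)
    unfold WL' at he'
    rw [lt_mem_RT] at he
    rw [mem_union, mem_W_low] at he'
    rcases he' with (h5 | h5 | h5 | h5 | h5) | h5
    · omega
    · omega
    · omega
    · omega
    · have := O.far _ _ h5; omega
    · have := mem_RRL.1 (hS h5); omega
  · rw [disjoint_left]
    intro e he he'
    obtain ⟨x, y, rfl⟩ := exists_lt (odd_RT he)
    rw [lt_mem_RT] at he
    rw [mem_TTL] at he'
    omega
  · intro i hi
    have hi' : i = true := hi
    subst hi'
    rw [TF_L_true]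
    have hsub : RT (-2) (-1) (-1) h ⊆ WL' O S := by
      intro e he
      obtain ⟨x, y, rfl⟩ := exists_lt (odd_RT he)
      rw [lt_mem_RT] at he
      exact mem_union_left _ ((mem_W_low O).2 (by omega))
    refine tiesO_env (tiesL (O := O) (h0 := le_rfl) (h1 := by omega) (j2 := rfl)) ?_ hTL ?_ ?_
      (fun e he => (bL_left he).1) (fun e he => (bL_left he).2) ?_
    · rw [XL_E]; exact subset_union_left.trans subset_union_right
    · unfold WlL
      rw [if_pos rfl]
      exact union_subset hsub subset_union_right
    · unfold WlL; rw [if_pos rfl]; exact subset_union_left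
    · intro p q hpq hl hn e he
      unfold WlL at hl ⊢
      rw [if_pos rfl] at hl ⊢
      obtain ⟨x, y, rfl⟩ := exists_lt (odd_TiL he)
      rw [mem_TiL] at he
      rw [pt_lt, add_zero]
      rcases mem_union.1 hl with h3 | h3
      · exact absurd h3 hn
      · have h4 := hS h3
        obtain ⟨u, v, huv⟩ := exists_lt (odd_RRL h4)
        rw [huv] at h3 h4
        rw [mem_RRL] at h4
        have h5 : lt (u, v) ∈ RT (-2) (-1) (-1) h ∪ S := mem_union_right _ h3
        rw [← Gc_true (RT (-2) (-1) (-1) h ∪ S)]
        rcases h4.2 with h6 | h6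
        · refine tile_co (o := true) (g := (-1, 1)) h5 hpq (by simpa using huv) ?_
            (ev_true.2 (by omega)) ?_
          · unfold InR; simp only; omega
          · exact (rect_co (o := true) (x0 := -2) (x1 := -1) (y0 := -1) (y1 := h) (by omega)
              (by omega) (by simp only; omega) (by simp only; omega) (ev_true.2 (by omega))
              (ev_true.2 (by omega))).mono (Gc_mono subset_union_left)
        · refine tile_co (o := true) (g := (-1, h - 1)) h5 hpq (by simpa using huv) ?_
            (ev_true.2 (by omega)) ?_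
          · unfold InR; simp only; omega
          · exact (rect_co (o := true) (x0 := -2) (x1 := -1) (y0 := -1) (y1 := h) (by omega)
              (by omega) (by simp only; omega) (by simp only; omega) (ev_true.2 (by omega))
              (ev_true.2 (by omega))).mono (Gc_mono subset_union_left)
  · intro i hi
    have hi' : i = false := hi
    subst hi'
    rw [TF_L_false]
    unfold WlL
    rw [if_neg Bool.false_ne_true]
    set K := RT x0 x1 y0 (-1) with hKdef
    have hcases : ∀ e ∈ K ∪ insert (lt (-1, -1)) ({lt (-1, 0)} \ S), e ∈ K ∨ e = lt (-1, -1) ∨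
        (e = lt (-1, 0) ∧ e ∉ S) := by
      intro e he
      rw [mem_union, mem_insert, mem_sdiff, mem_singleton] at he
      exact he
    refine tiesC_env (X := XT O 0 le_rfl (by omega) rfl) (tiesF (O := O) (j := 0) hx0 hx1 hy0 hK) ?_ hTF ?_ ?_
      subset_union_left (fun e he => (bL_floor he).1) (fun e he => (bL_floor he).2) ?_
    · rw [XL_E]; exact subset_union_right.trans subset_union_right
    · rw [XL_E, disjoint_left]
      intro e he he'
      rcases hcases e he with h5 | rfl | ⟨rfl, -⟩
      · obtain ⟨x, y, rfl⟩ := exists_lt (odd_RT h5)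
        rw [hKdef, lt_mem_RT] at h5
        rw [mem_union, lt_mem_RT, mem_TTL] at he'
        omega
      · rw [mem_union, lt_mem_RT, mem_TTL] at he'; omega
      · rw [mem_union, lt_mem_RT, mem_TTL] at he'; omega
    · rw [disjoint_left]
      intro e he he'
      unfold WL' at he'
      rcases hcases e he with h6 | rfl | ⟨rfl, h8⟩
      · have he2 := h6
        obtain ⟨x, y, rfl⟩ := exists_lt (odd_RT h6)
        rw [hKdef, lt_mem_RT] at h6
        rw [mem_union, mem_W_low] at he'
        rcases he' with (h5 | h5 | h5 | h5 | h5) | h5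
        · omega
        · omega
        · omega
        · omega
        · exact disjoint_left.1 hK he2 h5
        · have := mem_RRL.1 (hS h5); omega
      · rw [mem_union, mem_W_low] at he'
        rcases he' with (h5 | h5 | h5 | h5 | h5) | h5
        · omega
        · omega
        · omega
        · omega
        · have := O.far _ _ h5; omega
        · have := mem_RRL.1 (hS h5); omega
      · rw [mem_union, mem_W_low] at he'
        rcases he' with (h5 | h5 | h5 | h5 | h5) | h5
        · omega
        · omega
        · omega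
        · omega
        · have := O.far _ _ h5; omega
        · exact h8 h5
    · intro p q hpq hl hn e he
      obtain ⟨x, y, rfl⟩ := exists_lt (odd_TiF he)
      rw [mem_TiF] at he
      rw [pt_lt, add_zero, add_zero]
      set R := K ∪ insert (lt (-1, -1)) ({lt (-1, 0)} \ S) with hR
      have hKR : K ⊆ R := subset_union_left
      have m1 : lt (-1, -1) ∈ R := by rw [hR]; simp
      rw [← Gc_false R]
      have c1 : Co (Gc false R) (gp (x, y)) (gp (0, -1)) :=
        (rect_co (o := false) (x0 := x0) (x1 := x1) (y0 := y0) (y1 := -1) (by omega) (by omega)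
          (by simp only; omega) (by simp only; omega) (ev_false.2 (by omega))
          (ev_false.2 (by omega))).mono (Gc_mono hKR)
      rcases hcases _ hl with h6 | h6 | ⟨h6, -⟩
      · exact absurd h6 hn
      · refine tile_co (o := false) (g := (0, -1)) m1 hpq (by simpa using h6) ?_
          (ev_false.2 (by omega)) c1
        unfold InR; simp only; omega
      · have c2 : Co (Gc false R) (gp (x, y)) (gp (-1, 0)) := by
          refine c1.trans ((rect_co (o := false) (x0 := -1) (x1 := 0) (y0 := -1) (y1 := 0)
            (by omega) (by omega) (by simp only; omega) (by simp only; omega)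
            (ev_false.2 (by omega)) (ev_false.2 (by omega))).mono (Gc_mono ?_))
          have := tile_sub (R := R) m1
          simpa using this
        have m2 : lt (-1, 0) ∈ R := by rw [← h6]; exact hl
        refine tile_co (o := false) (g := (-1, 0)) m2 hpq (by simpa using h6) ?_
          (ev_false.2 (by omega)) c2
        unfold InR; simp only; omega
  · intro i
    refine Subset.trans ?_ hB
    intro e he
    cases i
    · unfold LaL at he
      rw [if_neg Bool.false_ne_true] at he
      obtain ⟨x, y, rfl⟩ := exists_lt (odd_RT he)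
      rw [lt_mem_RT] at he
      exact mem_union_right _ (lt_mem_RT.2 (by omega))
    · unfold LaL at he
      rw [if_pos rfl] at he
      obtain ⟨x, y, rfl⟩ := exists_lt (odd_RT he)
      rw [lt_mem_RT] at he
      exact mem_union_left _ (lt_mem_RT.2 (by omega))
  · intro i hi p q hpq hp hl
    have hi' : i = true := hi
    subst hi'
    rw [TF_L_true] at hp
    unfold LaL at hp
    rw [if_pos rfl] at hp
    obtain ⟨g, hg, hge, rfl⟩ := grid_VO (x0 := 0) (x1 := H) (y0 := 0) (y1 := h)
      (fun e he => by
        obtain ⟨x, y, rfl⟩ := exists_lt (odd_TiL he)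
        rw [(bL_left he).1, pt_lt]
        rw [mem_TiL] at he
        refine ⟨(x + 1, y + 0), ?_, ev_true.2 (by omega), rfl⟩
        unfold InR; simp only; omega) hp
    have hT := tg_end (o := true) hge hpq (e := gp g + q) (by simp)
    obtain ⟨u, v, huv⟩ := exists_lt (odd_RT hl)
    rw [huv] at hT hl ⊢
    have h7 := tg_lt hT
    unfold InR at hg
    refine hB (mem_union_left _ (lt_mem_RT.2 ?_))
    rw [lt_mem_RT] at hl
    omega
  · intro i hi p q hpq hp hl
    have hi' : i = false := hi
    subst hi'
    rw [TF_L_false] at hp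
    unfold LaL at hp
    rw [if_neg Bool.false_ne_true] at hp
    obtain ⟨g, hg, hge, rfl⟩ := grid_VC (x0 := 0) (x1 := w) (y0 := 0) (y1 := H)
      (fun e he => by
        obtain ⟨x, y, rfl⟩ := exists_lt (odd_TiF he)
        rw [(bL_floor he).1, pt_lt]
        rw [mem_TiF] at he
        refine ⟨(x + 1, y + 1), ?_, ev_false.2 (by omega), rfl⟩
        unfold InR; simp only; omega) hp
    have hT := tg_end (o := false) hge hpq (e := gp g + q - (1, 1)) (by simp)
    obtain ⟨u, v, huv⟩ := exists_lt (odd_RT hl)
    rw [huv] at hT hl ⊢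
    have h7 := tg_lt hT
    unfold InR at hg
    refine hB (mem_union_right _ (lt_mem_RT.2 ?_))
    rw [lt_mem_RT] at hl
    omega

/-- **The upper environment.** `K` : the closed labels of the rectangle `[x0, x1) × [h, y1)`. -/
theorem multiU (hS : S ⊆ RRU w h) {x0 x1 y1 : ℤ} (hx0 : x0 ≤ -1) (hx1 : w ≤ x1) (hy1 : h < y1)
    (hK : Disjoint (RT x0 x1 h y1) O.Wo)
    (hB : RT (w - H - 1) w (-1) (h - 1) ∪ RT 0 w (h - 2 - H) (h - 1) ⊆ B)
    (hB' : B ⊆ RT 0 w (-1) (h - 1)) (hH : 1 ≤ H) :
    Multi (XU O S hS) (WU' O S) (RT 0 w (-1) (h - 1)) B (TTU w h) (fmU w) id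
      (WlU w h S (RT x0 x1 h y1)) (LaU w h H) (bU w) (oU w) := by
  have hw := O.hw
  have hh := O.hh
  have w2 := O.w2
  have h2 := O.h2
  have hTL : Disjoint (TiR w h) (WU' O S) := by
    rw [disjoint_left]
    intro e he he'
    obtain ⟨x, y, rfl⟩ := exists_lt (odd_TiR he)
    unfold WU' at he'
    rw [mem_TiR] at he
    rw [mem_union, mem_W_up] at he'
    rcases he' with (h5 | h5 | h5 | h5 | h5 | h5) | h5
    · omega
    · omega
    · omega
    · omega
    · omega
    · have := O.far _ _ h5; omega
    · have := mem_RRU.1 (hS h5); omega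
  have hTF : Disjoint (TiU w h) (WU' O S) := by
    rw [disjoint_left]
    intro e he he'
    obtain ⟨x, y, rfl⟩ := exists_lt (odd_TiU he)
    unfold WU' at he'
    rw [mem_TiU] at he
    rw [mem_union, mem_W_up] at he'
    rcases he' with (h5 | h5 | h5 | h5 | h5 | h5) | h5
    · omega
    · omega
    · omega
    · omega
    · omega
    · have := O.far _ _ h5; omega
    · have := mem_RRU.1 (hS h5); omega
  refine ⟨XF_planeLike, ?_, ?_, hB', ?_, ?_, ?_, ?_, ?_, ?_, ?_⟩
  · rw [XU_E]; exact subset_union_left
  · rw [XU_E]; exact subset_union_right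
  · rw [disjoint_left]
    intro e he he'
    obtain ⟨x, y, rfl⟩ := exists_lt (odd_RT he)
    unfold WU' at he'
    rw [lt_mem_RT] at he
    rw [mem_union, mem_W_up] at he'
    rcases he' with (h5 | h5 | h5 | h5 | h5 | h5) | h5
    · omega
    · omega
    · omega
    · omega
    · omega
    · have := O.far _ _ h5; omega
    · have := mem_RRU.1 (hS h5); omega
  · rw [disjoint_left]
    intro e he he'
    obtain ⟨x, y, rfl⟩ := exists_lt (odd_RT he)
    rw [lt_mem_RT] at he
    rw [mem_TTU] at he'
    omega
  · intro i hi
    have hi' : i = true := hi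
    subst hi'
    rw [TF_U_true]
    unfold WlU
    rw [if_pos rfl]
    set K' := RT (w + 1) (w + 2) (-1) h with hKdef
    have hcases : ∀ e ∈ K' ∪ insert (lt (w, h - 1)) (S ∩ {lt (w - 1, h - 1)}),
        e ∈ K' ∨ e = lt (w, h - 1) ∨ (e = lt (w - 1, h - 1) ∧ e ∈ S) := by
      intro e he
      rw [mem_union, mem_insert, mem_inter, mem_singleton] at he
      tauto
    refine tiesO_env (X := XT O h (by omega) le_rfl h2)
      (tiesR (O := O) (h0 := by omega) (h1 := le_rfl) (j2 := h2)) ?_ hTL ?_
      subset_union_left (fun e he => (bU_right he).1) (fun e he => (bU_right he).2) ?_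
    · rw [XU_E]; exact subset_union_left.trans subset_union_right
    · intro e he
      rcases hcases e he with h5 | rfl | ⟨rfl, h6⟩
      · obtain ⟨x, y, rfl⟩ := exists_lt (odd_RT h5)
        rw [hKdef, lt_mem_RT] at h5
        exact mem_union_left _ ((mem_W_up O).2 (by omega))
      · exact mem_union_left _ ((mem_W_up O).2 (by omega))
      · exact mem_union_right _ h6
    · intro p q hpq hl hn e he
      obtain ⟨x, y, rfl⟩ := exists_lt (odd_TiR he)
      rw [mem_TiR] at he
      rw [pt_lt, add_zero]
      set R := K' ∪ insert (lt (w, h - 1)) (S ∩ {lt (w - 1, h - 1)}) with hR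
      have hKR : K' ⊆ R := subset_union_left
      have m1 : lt (w, h - 1) ∈ R := by rw [hR]; simp
      rw [← Gc_true R]
      have c1 : Co (Gc true R) (gp (x + 1, y)) (gp (w + 1, h - 1)) :=
        (rect_co (o := true) (x0 := w + 1) (x1 := w + 2) (y0 := -1) (y1 := h) (by omega) (by omega)
          (by simp only; omega) (by simp only; omega) (ev_true.2 (by omega))
          (ev_true.2 (by omega))).mono (Gc_mono hKR)
      rcases hcases _ hl with h6 | h6 | ⟨h6, -⟩
      · exact absurd h6 hn
      · refine tile_co (o := true) (g := (w + 1, h - 1)) m1 hpq (by simpa using h6) ?_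
          (ev_true.2 (by omega)) c1
        unfold InR; simp only; omega
      · have c2 : Co (Gc true R) (gp (x + 1, y)) (gp (w, h)) := by
          refine c1.trans ((rect_co (o := true) (x0 := w) (x1 := w + 1) (y0 := h - 1) (y1 := h)
            (by omega) (by omega) (by simp only; omega) (by simp only; omega)
            (ev_true.2 (by omega)) (ev_true.2 (by omega))).mono (Gc_mono ?_))
          have := tile_sub (R := R) m1
          rwa [sub_add_cancel] at this
        have m2 : lt (w - 1, h - 1) ∈ R := by rw [← h6]; exact hl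
        refine tile_co (o := true) (g := (w, h)) m2 hpq (by simpa using h6) ?_
          (ev_true.2 (by omega)) c2
        unfold InR; simp only; omega
  · intro i hi
    have hi' : i = false := hi
    subst hi'
    rw [TF_U_false]
    unfold WlU
    rw [if_neg Bool.false_ne_true]
    set K := RT x0 x1 h y1 with hKdef
    have hcases : ∀ e ∈ K ∪ insert (lt (-1, h - 1)) (RRU w h \ S), e ∈ K ∨ e = lt (-1, h - 1) ∨
        (e ∈ RRU w h ∧ e ∉ S) := by
      intro e he
      rw [mem_union, mem_insert, mem_sdiff] at he
      exact he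
    refine tiesC_env (X := XT O h (by omega) le_rfl h2) (tiesU (O := O) (j := 0) (x0 := x0) (x1 := x1) (y1 := y1) (by omega) hx1 hy1 hK) ?_ hTF
      ?_ ?_ subset_union_left (fun e he => (bU_ceil he).1) (fun e he => (bU_ceil he).2) ?_
    · rw [XU_E]; exact subset_union_right.trans subset_union_right
    · rw [XU_E, disjoint_left]
      intro e he he'
      rcases hcases e he with h5 | rfl | ⟨h5, -⟩
      · obtain ⟨x, y, rfl⟩ := exists_lt (odd_RT h5)
        rw [hKdef, lt_mem_RT] at h5
        rw [mem_union, lt_mem_RT, mem_TTU] at he'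
        omega
      · rw [mem_union, lt_mem_RT, mem_TTU] at he'; omega
      · obtain ⟨x, y, rfl⟩ := exists_lt (odd_RRU h5)
        rw [mem_RRU] at h5
        rw [mem_union, lt_mem_RT, mem_TTU] at he'
        omega
    · rw [disjoint_left]
      intro e he he'
      unfold WU' at he'
      rcases hcases e he with h6 | rfl | ⟨h7, h8⟩
      · have he2 := h6
        obtain ⟨x, y, rfl⟩ := exists_lt (odd_RT h6)
        rw [hKdef, lt_mem_RT] at h6
        rw [mem_union, mem_W_up] at he'
        rcases he' with (h5 | h5 | h5 | h5 | h5 | h5) | h5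
        · omega
        · omega
        · omega
        · omega
        · omega
        · exact disjoint_left.1 hK he2 h5
        · have := mem_RRU.1 (hS h5); omega
      · rw [mem_union, mem_W_up] at he'
        rcases he' with (h5 | h5 | h5 | h5 | h5 | h5) | h5
        · omega
        · omega
        · omega
        · omega
        · omega
        · have := O.far _ _ h5; omega
        · have := mem_RRU.1 (hS h5); omega
      · obtain ⟨x, y, rfl⟩ := exists_lt (odd_RRU h7)
        rw [mem_RRU] at h7
        rw [mem_union, mem_W_up] at he'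
        rcases he' with (h5 | h5 | h5 | h5 | h5 | h5) | h5
        · omega
        · omega
        · omega
        · omega
        · omega
        · have := O.far _ _ h5; omega
        · exact h8 h5
    · intro p q hpq hl hn e he
      obtain ⟨x, y, rfl⟩ := exists_lt (odd_TiU he)
      rw [mem_TiU] at he
      rw [pt_lt]
      rw [← Gc_false (K ∪ insert (lt (-1, h - 1)) (RRU w h \ S))]
      rcases hcases _ hl with h3 | h3 | ⟨h4, h3'⟩
      · exact absurd h3 hn
      · rw [h3] at hl
        refine tile_co (o := false) (g := (-1, h)) hl hpq (by simpa using h3) ?_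
          (ev_false.2 (by omega)) ?_
        · unfold InR; simp only; omega
        · exact (rect_co (o := false) (x0 := x0) (x1 := x1) (y0 := h) (y1 := y1) (by omega)
            (by omega) (by simp only; omega) (by simp only; omega) (ev_false.2 (by omega))
            (ev_false.2 (by omega))).mono (Gc_mono subset_union_left)
      · obtain ⟨u, v, huv⟩ := exists_lt (odd_RRU h4)
        rw [huv] at hl h4
        rw [mem_RRU] at h4
        rcases h4.1 with h6 | h6
        · refine tile_co (o := false) (g := (1, h)) hl hpq (by simpa using huv) ?_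
            (ev_false.2 (by omega)) ?_
          · unfold InR; simp only; omega
          · exact (rect_co (o := false) (x0 := x0) (x1 := x1) (y0 := h) (y1 := y1) (by omega)
              (by omega) (by simp only; omega) (by simp only; omega) (ev_false.2 (by omega))
              (ev_false.2 (by omega))).mono (Gc_mono subset_union_left)
        · refine tile_co (o := false) (g := (w - 1, h)) hl hpq (by simpa using huv) ?_
            (ev_false.2 (by omega)) ?_
          · unfold InR; simp only; omega
          · exact (rect_co (o := false) (x0 := x0) (x1 := x1) (y0 := h) (y1 := y1) (by omega)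
              (by omega) (by simp only; omega) (by simp only; omega) (ev_false.2 (by omega))
              (ev_false.2 (by omega))).mono (Gc_mono subset_union_left)
  · intro i
    refine Subset.trans ?_ hB
    intro e he
    cases i
    · unfold LaU at he
      rw [if_neg Bool.false_ne_true] at he
      obtain ⟨x, y, rfl⟩ := exists_lt (odd_RT he)
      rw [lt_mem_RT] at he
      exact mem_union_right _ (lt_mem_RT.2 (by omega))
    · unfold LaU at he
      rw [if_pos rfl] at he
      obtain ⟨x, y, rfl⟩ := exists_lt (odd_RT he)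
      rw [lt_mem_RT] at he
      exact mem_union_left _ (lt_mem_RT.2 (by omega))
  · intro i hi p q hpq hp hl
    have hi' : i = true := hi
    subst hi'
    rw [TF_U_true] at hp
    unfold LaU at hp
    rw [if_pos rfl] at hp
    obtain ⟨g, hg, hge, rfl⟩ := grid_VO (x0 := w - H) (x1 := w) (y0 := -1) (y1 := h - 1)
      (fun e he => by
        obtain ⟨x, y, rfl⟩ := exists_lt (odd_TiR he)
        rw [(bU_right he).1, pt_lt]
        rw [mem_TiR] at he
        refine ⟨(x + 0, y + 1), ?_, ev_true.2 (by omega), rfl⟩
        unfold InR; simp only; omega) hp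
    have hT := tg_end (o := true) hge hpq (e := gp g + q) (by simp)
    obtain ⟨u, v, huv⟩ := exists_lt (odd_RT hl)
    rw [huv] at hT hl ⊢
    have h7 := tg_lt hT
    unfold InR at hg
    refine hB (mem_union_left _ (lt_mem_RT.2 ?_))
    rw [lt_mem_RT] at hl
    omega
  · intro i hi p q hpq hp hl
    have hi' : i = false := hi
    subst hi'
    rw [TF_U_false] at hp
    unfold LaU at hp
    rw [if_neg Bool.false_ne_true] at hp
    obtain ⟨g, hg, hge, rfl⟩ := grid_VC (x0 := 0) (x1 := w) (y0 := h - 1 - H) (y1 := h - 1)
      (fun e he => by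
        obtain ⟨x, y, rfl⟩ := exists_lt (odd_TiU he)
        rw [(bU_ceil he).1, pt_lt]
        rw [mem_TiU] at he
        refine ⟨(x + 0, y + 0), ?_, ev_false.2 (by omega), rfl⟩
        unfold InR; simp only; omega) hp
    have hT := tg_end (o := false) hge hpq (e := gp g + q - (1, 1)) (by simp)
    obtain ⟨u, v, huv⟩ := exists_lt (odd_RT hl)
    rw [huv] at hT hl ⊢
    have h7 := tg_lt hT
    unfold InR at hg
    refine hB (mem_union_right _ (lt_mem_RT.2 ?_))
    rw [lt_mem_RT] at hl
    omega

end Pool.Agent.H13.R45
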