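import Pool.Agent.H13.R45.NatF
import Pool.Agent.Q1.M6e.ThmC

set_option autoImplicit false
open Finset

/-! # `OFar` (helper15) gives `WFar` and `RootFr` -/

namespace Pool.Agent.H13.R45

open Pool.Agent.H75.Perc Pool.Agent.H75.TwoArm Pool.Agent.Q1 Pool.Agent.H33.Q1
open Pool.Agent.H75.Four Pool.Agent.H69.Q1
open Pool.Agent.H74.R45 Pool.Agent.H13.Q1
open Pool.Agent.Q1.M6c Pool.Agent.Q1.M6e

variable {w h : ℤ} {O : Out w h} {L : ℤ}

/-- the two grid points of a corner are within distance one of its vertex -/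
theorem ag_near {g c : ℤ × ℤ} (hg : Ag g c) :
    ((tv (vx c)).1 - 1 ≤ g.1 ∧ g.1 ≤ (tv (vx c)).1 + 1) ∧
    ((tv (vx c)).2 - 1 ≤ g.2 ∧ g.2 ≤ (tv (vx c)).2 + 1) := by
  obtain ⟨g1, g2⟩ := g
  rcases corner_cases c with ⟨x, y, rfl⟩ | ⟨x, y, rfl⟩
  · rw [ag_ve, Prod.mk.injEq, Prod.mk.injEq] at hg
    unfold tv vx ve
    dsimp only
    rcases hg with ⟨rfl, rfl⟩ | ⟨rfl, rfl⟩
    · omega
    · omega
  · rw [ag_he, Prod.mk.injEq, Prod.mk.injEq] at hg
    unfold tv vx he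
    dsimp only
    rcases hg with ⟨rfl, rfl⟩ | ⟨rfl, rfl⟩
    · omega
    · omega

theorem wFar_of (hO : OFar O L) : WFar O L := hO.wo

theorem rootFr_of (hO : OFar O L) (hL : 4 ≤ L) :
    RootFr O (-(L - 1)) (w + (L - 1)) (-(L - 1)) (h + (L - 1)) where
  hr0 := by omega
  hr1 := by omega
  hs0 := by omega
  hs1 := by omega
  out := by
    intro g hg
    have h1 := ag_near hg
    have h2 := hO.root (tv (vx O.c0)).1 (tv (vx O.c0)).2 rfl
    unfold OutF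
    omega

/-- the root is not at a point of the caps -/
theorem root_PT {j : ℤ} (h0 : 0 ≤ j) (h1 : j ≤ h) (hO : OFar O L) (hL : 3 ≤ L) :
    ∀ g ∈ PT w h j, ¬ Ag g O.c0 := by
  intro g hg ha
  have hw := O.hw
  have hh := O.hh
  have h2 := ag_near ha
  have h3 := hO.root (tv (vx O.c0)).1 (tv (vx O.c0)).2 rfl
  obtain ⟨x, y⟩ := g
  rw [mem_PT (by omega) h0 h1] at hg
  unfold PTp at hg
  omega

theorem cor_PT {j : ℤ} (hw : 0 ≤ w) (h0 : 0 ≤ j) (h1 : j ≤ h) {c : ℤ × ℤ}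
    (hc : ∀ g, Ag g c → ¬ PTp w h j g) : ∀ g ∈ PT w h j, ¬ Ag g c := by
  intro g hg ha
  rw [mem_PT (by omega) h0 h1] at hg
  exact hc g ha hg

/-- vertical edges of `[0, w] × [0, h]` are not at the points of the caps below -/
theorem ve_low {x y : ℤ} (hw : 0 ≤ w) (hh : 2 ≤ h) (hx : 0 ≤ x) (hx' : x ≤ w) (hy : 0 ≤ y) :
    ∀ g ∈ PT w h 0, ¬ Ag g (ve (x, y)) := by
  refine cor_PT hw le_rfl (by omega) fun g hg hp => ?_
  rw [ag_ve] at hg
  unfold PTp at hp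
  rcases hg with rfl | rfl
  · dsimp only at hp; omega
  · dsimp only at hp; omega

theorem he_low {x y : ℤ} (hw : 0 ≤ w) (hh : 2 ≤ h) (hx : 0 ≤ x) (hx' : x < w) (hy : 0 ≤ y) :
    ∀ g ∈ PT w h 0, ¬ Ag g (he (x, y)) := by
  refine cor_PT hw le_rfl (by omega) fun g hg hp => ?_
  rw [ag_he] at hg
  unfold PTp at hp
  rcases hg with rfl | rfl
  · dsimp only at hp; omega
  · dsimp only at hp; omega

theorem ve_up {x y : ℤ} (hw : 0 ≤ w) (hh : 2 ≤ h) (hx : 0 ≤ x) (hx' : x ≤ w) (hy : y < h - 1) :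
    ∀ g ∈ PT w h h, ¬ Ag g (ve (x, y)) := by
  refine cor_PT hw (by omega) le_rfl fun g hg hp => ?_
  rw [ag_ve] at hg
  unfold PTp at hp
  rcases hg with rfl | rfl
  · dsimp only at hp; omega
  · dsimp only at hp; omega

theorem he_up {x y : ℤ} (hw : 0 ≤ w) (hh : 2 ≤ h) (hx : 0 ≤ x) (hx' : x < w) (hy : y ≤ h - 1) :
    ∀ g ∈ PT w h h, ¬ Ag g (he (x, y)) := by
  refine cor_PT hw (by omega) le_rfl fun g hg hp => ?_
  rw [ag_he] at hg
  unfold PTp at hp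
  rcases hg with rfl | rfl
  · dsimp only at hp; omega
  · dsimp only at hp; omega

end Pool.Agent.H13.R45
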