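import Pool.Agent.H13.R45.Mul4
import Pool.Agent.H74.R45.Cmp
import Pool.Agent.Q1.M6c.Dob

set_option autoImplicit false
open Finset

/-! # Frozen tied environments with deterministic or natural walls, as natural plane environments

`α` : the column (left wall, right wall) is natural (`s = 1/4`), otherwise all its ties are tied; `β` : the
same for the row (floor, ceiling). `ENL`, `WNL`, `XNL` : random labels, open labels, environment below;
`ENU`, `WNU`, `XNU` : above. `natL`, `natU` : the weighted increments of the tied environment are those of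
the natural environment. -/

namespace Pool.Agent.H13.R45

open Pool.Agent.H75.Perc Pool.Agent.H75.TwoArm Pool.Agent.Q1 Pool.Agent.H33.Q1
open Pool.Agent.H75.Four Pool.Agent.H69.Q1
open Pool.Agent.H74.R45 Pool.Agent.H13.Q1
open Pool.Agent.Q1.M6c

variable {w h : ℤ} {S : Finset (ℤ × ℤ)} {O : Out w h} {α β : Bool} {x y : ℤ}

/-- a plane environment inside the surroundings `O` -/
noncomputable def EO (O : Out w h) (E W : Finset (ℤ × ℤ)) (hd : Disjoint E W) (hE : E ⊆ GA w h)
    (hW : W ⊆ GA w h ∪ O.Wo) : Env :=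
  Env.plane E W O.c0 O.k0 O.g (fun _ he => odd_RT (hE he)) hd O.hk (fun h => O.hroot (hE h))
    (O.hg.anti (union_subset (hE.trans subset_union_left) hW))
    (fun v hv => O.hlow v (hv.mono (union_subset (hE.trans subset_union_left) hW)))

section EO

variable {E W : Finset (ℤ × ℤ)} {hd : Disjoint E W} {hE : E ⊆ GA w h} {hW : W ⊆ GA w h ∪ O.Wo}

@[simp] theorem EO_E : (EO O E W hd hE hW).E = E := rfl
@[simp] theorem EO_c0 : (EO O E W hd hE hW).c0 = O.c0 := rfl
@[simp] theorem EO_k0 : (EO O E W hd hE hW).k0 = O.k0 := rfl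
@[simp] theorem EO_T : (EO O E W hd hE hW).T = 4 := rfl

theorem EO_incW (q : ℤ × ℤ → ℂ) (c : ℤ × ℤ) :
    (EO O E W hd hE hW).incW q c = iW E W q O.c0 O.k0 c := plane_incW q c

theorem EO_inc (c : ℤ × ℤ) :
    (EO O E W hd hE hW).inc c = iW E W (fun _ => 1 / 2) O.c0 O.k0 c := by
  rw [Env.inc_eq, ← EO_incW (hd := hd) (hE := hE) (hW := hW)]
  rfl

theorem EO_planeEnv (ho : ∀ e ∈ W, (e.1 + e.2) % 2 = 1) : PlaneEnv (EO O E W hd hE hW) W :=
  planeEnv_plane ho

end EO

/-! ### The lower environment -/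

/-- random labels, below -/
noncomputable def ENL (w h : ℤ) (α β : Bool) : Finset (ℤ × ℤ) :=
  RT 0 w 0 h ∪ (if α = true then RT (-1) 0 1 (h - 1) else ∅) ∪
    (if β = true then RT 0 w (-1) 0 else ∅)

/-- open labels, below -/
noncomputable def WNL (O : Out w h) (α β : Bool) (S : Finset (ℤ × ℤ)) : Finset (ℤ × ℤ) :=
  (WJ w h 0 O.Wo ∪ S) ∪ (if α = true then ∅ else TiL h 0) ∪ (if β = true then ∅ else OT w h 0)

/-- random labels, above -/
noncomputable def ENU (w h : ℤ) (α β : Bool) : Finset (ℤ × ℤ) :=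
  RT 0 w (-1) (h - 1) ∪ (if α = true then RT w (w + 1) (-1) (h - 1) else ∅) ∪
    (if β = true then RT 1 (w - 1) (h - 1) h else ∅)

/-- open labels, above -/
noncomputable def WNU (O : Out w h) (α β : Bool) (S : Finset (ℤ × ℤ)) : Finset (ℤ × ℤ) :=
  (WJ w h h O.Wo ∪ S) ∪ (if α = true then ∅ else TiR w h) ∪ (if β = true then ∅ else OT w h h)

theorem mem_ifT {b : Bool} {A : Finset (ℤ × ℤ)} {l : ℤ × ℤ} :
    l ∈ (if b = true then A else ∅) ↔ b = true ∧ l ∈ A := by
  cases b
  · simp
  · simp

theorem mem_ifF {b : Bool} {A : Finset (ℤ × ℤ)} {l : ℤ × ℤ} :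
    l ∈ (if b = true then ∅ else A) ↔ b = false ∧ l ∈ A := by
  cases b
  · simp
  · simp

theorem mem_ENL : lt (x, y) ∈ ENL w h α β ↔ (0 ≤ x ∧ x < w ∧ 0 ≤ y ∧ y < h) ∨
    (α = true ∧ x = -1 ∧ 1 ≤ y ∧ y < h - 1) ∨ (β = true ∧ 0 ≤ x ∧ x < w ∧ y = -1) := by
  unfold ENL
  rw [mem_union, mem_union, mem_ifT, mem_ifT, lt_mem_RT, lt_mem_RT, lt_mem_RT, or_assoc]
  refine or_congr Iff.rfl (or_congr (and_congr_right fun _ => ?_) (and_congr_right fun _ => ?_))
  · omega
  · omega

theorem mem_ENU : lt (x, y) ∈ ENU w h α β ↔ (0 ≤ x ∧ x < w ∧ -1 ≤ y ∧ y < h - 1) ∨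
    (α = true ∧ x = w ∧ -1 ≤ y ∧ y < h - 1) ∨ (β = true ∧ 1 ≤ x ∧ x < w - 1 ∧ y = h - 1) := by
  unfold ENU
  rw [mem_union, mem_union, mem_ifT, mem_ifT, lt_mem_RT, lt_mem_RT, lt_mem_RT, or_assoc]
  refine or_congr Iff.rfl (or_congr (and_congr_right fun _ => ?_) (and_congr_right fun _ => ?_))
  · omega
  · omega

theorem odd_ENL {e : ℤ × ℤ} (he : e ∈ ENL w h α β) : (e.1 + e.2) % 2 = 1 := by
  unfold ENL at he
  rcases mem_union.1 he with h1 | h1
  · rcases mem_union.1 h1 with h2 | h2
    · exact odd_RT h2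
    · split_ifs at h2
      · exact odd_RT h2
      · exact absurd h2 (notMem_empty _)
  · split_ifs at h1
    · exact odd_RT h1
    · exact absurd h1 (notMem_empty _)

theorem odd_ENU {e : ℤ × ℤ} (he : e ∈ ENU w h α β) : (e.1 + e.2) % 2 = 1 := by
  unfold ENU at he
  rcases mem_union.1 he with h1 | h1
  · rcases mem_union.1 h1 with h2 | h2
    · exact odd_RT h2
    · split_ifs at h2
      · exact odd_RT h2
      · exact absurd h2 (notMem_empty _)
  · split_ifs at h1
    · exact odd_RT h1
    · exact absurd h1 (notMem_empty _)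

/-- open labels below -/
theorem mem_WNL (O : Out w h) : lt (x, y) ∈ WNL O α β S ↔
    (((x = w ∨ x = -2 ∨ x = w + 1) ∧ -1 ≤ y ∧ y < h) ∨ lt (x, y) ∈ O.Wo ∨ lt (x, y) ∈ S) ∨
    (α = false ∧ x = -1 ∧ 0 < y ∧ y < h ∧ y % 2 = 0) ∨
    (β = false ∧ y = -1 ∧ 0 < x ∧ x < w ∧ x % 2 = 1) := by
  have hw := O.hw
  have hh := O.hh
  have w2 := O.w2
  have h2 := O.h2
  unfold WNL WJ
  rw [mem_union, mem_union, mem_union, mem_union, mem_ifF, mem_ifF, H74.R45.mem_WR, mem_TiL,
    mem_OT (by omega) w2 h2 le_rfl (by omega) rfl, or_assoc]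
  refine or_congr ?_ (or_congr Iff.rfl (and_congr_right fun _ => ?_))
  · rw [or_assoc]
    refine or_congr ?_ Iff.rfl
    omega
  · omega

/-- open labels above -/
theorem mem_WNU (O : Out w h) : lt (x, y) ∈ WNU O α β S ↔
    (((x = -1 ∨ x = -2 ∨ x = w + 1) ∧ -1 ≤ y ∧ y < h - 1) ∨
      ((x = w ∨ x = -2 ∨ x = w + 1) ∧ y = h - 1) ∨ lt (x, y) ∈ O.Wo ∨ lt (x, y) ∈ S) ∨
    (α = false ∧ x = w ∧ -1 ≤ y ∧ y < h - 1 ∧ y % 2 = 1) ∨
    (β = false ∧ y = h - 1 ∧ 0 < x ∧ x + 1 < w ∧ x % 2 = 1) := by
  have hw := O.hw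
  have hh := O.hh
  have w2 := O.w2
  have h2 := O.h2
  unfold WNU WJ
  rw [mem_union, mem_union, mem_union, mem_union, mem_ifF, mem_ifF, H74.R45.mem_WR, mem_TiR,
    mem_OT (by omega) w2 h2 (by omega) le_rfl h2, or_assoc]
  refine or_congr ?_ (or_congr Iff.rfl (and_congr_right fun _ => ?_))
  · rw [or_assoc, ← or_assoc (a := (x = -1 ∨ x = -2 ∨ x = w + 1) ∧ -1 ≤ y ∧ y < h - 1)]
    refine or_congr ?_ Iff.rfl
    omega
  · omega

/-! ### Comparison with the tied form, below -/

/-- weights of the real form, below: real tiles frozen, natural or deterministic column and row -/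
noncomputable def qEL (h : ℤ) (S : Finset (ℤ × ℤ)) (α β : Bool) (e : ℤ × ℤ) : ℂ :=
  if e ∈ RRL h then (if e ∈ S then 1 else 0)
  else if (tt e).1 = -1 then
    (if α = true then 1 / 2 else if (tt e).2 % 2 = 0 then 1 else 0)
  else if (tt e).2 = -1 then
    (if β = true then 1 / 2 else if (tt e).1 % 2 = 1 then 1 else 0)
  else 1 / 2

/-- weights of the tied form, below -/
noncomputable def qTL (w h : ℤ) (S : Finset (ℤ × ℤ)) (α β : Bool) (e : ℤ × ℤ) : ℂ :=
  if e ∈ RRL h then (if e ∈ S then 1 else 0)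
  else if e ∈ TiL h 0 then (if α = true then 3 / 4 else 1)
  else if e ∈ TiF w then (if β = true then 1 / 4 else 0)
  else 1 / 2

theorem ENL_sub (O : Out w h) : ENL w h α β ⊆ EJ w h 0 := by
  have := O.hw
  have := O.hh
  intro e he
  obtain ⟨x, y, rfl⟩ := exists_lt (odd_ENL he)
  rw [mem_ENL] at he
  rw [mem_EJ]
  rcases he with h1 | ⟨-, h1⟩ | ⟨-, h1⟩ <;> omega

/-- the real form, below -/
theorem real_low (O : Out w h) (hS : S ⊆ RRL h) (c0 : ℤ × ℤ) (k0 : ℤ) (c : ℤ × ℤ) :
    iW (EJ w h 0) (WJ w h 0 O.Wo) (qEL h S α β) c0 k0 c =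
      iW (ENL w h α β) (WNL O α β S) (fun _ => 1 / 2) c0 k0 c := by
  classical
  have hw := O.hw
  have hh := O.hh
  have w2 := O.w2
  have h2 := O.h2
  have hq : ∀ e ∈ EJ w h 0 \ ENL w h α β, qEL h S α β e =
      if e ∈ WNL O α β S then 1 else 0 := by
    intro e he
    obtain ⟨h3, h4⟩ := mem_sdiff.1 he
    obtain ⟨x, y, rfl⟩ := exists_lt (odd_EJ h3)
    have hWo : lt (x, y) ∉ O.Wo := by
      intro h5
      have := O.far x y h5
      rw [mem_EJ] at h3
      omega
    rw [mem_EJ] at h3
    rw [mem_ENL, not_or, not_or] at h4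
    obtain ⟨h4a, h4b, h4c⟩ := h4
    unfold qEL
    simp only [tt_lt]
    by_cases hr : lt (x, y) ∈ RRL h
    · rw [if_pos hr]
      refine if_congr ?_ rfl rfl
      rw [mem_WNL]
      rw [mem_RRL] at hr
      constructor
      · intro h5; exact Or.inl (Or.inr (Or.inr h5))
      · rintro ((h5 | h5 | h5) | ⟨-, h5⟩ | ⟨-, h5⟩)
        · omega
        · exact absurd h5 hWo
        · exact h5
        · omega
        · omega
    · rw [if_neg hr]
      have hSn : lt (x, y) ∉ S := fun h5 => hr (hS h5)
      rw [mem_RRL] at hr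
      by_cases hx : x = -1
      · rw [if_pos hx]
        cases α
        · rw [if_neg Bool.false_ne_true]
          refine if_congr ?_ rfl rfl
          rw [mem_WNL]
          constructor
          · intro h5; right; left; exact ⟨rfl, hx, by omega, by omega, h5⟩
          · rintro ((h5 | h5 | h5) | ⟨-, h5⟩ | ⟨-, h5⟩)
            · omega
            · exact absurd h5 hWo
            · exact absurd h5 hSn
            · omega
            · omega
        · exact absurd ⟨rfl, hx, by omega, by omega⟩ h4b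
      · rw [if_neg hx]
        have hy : y = -1 := by
          by_contra hy
          exact h4a (by omega)
        rw [if_pos hy]
        cases β
        · rw [if_neg Bool.false_ne_true]
          refine if_congr ?_ rfl rfl
          rw [mem_WNL]
          constructor
          · intro h5; right; right; exact ⟨rfl, hy, by omega, by omega, h5⟩
          · rintro ((h5 | h5 | h5) | ⟨-, h5⟩ | ⟨-, h5⟩)
            · omega
            · exact absurd h5 hWo
            · exact absurd h5 hSn
            · omega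
            · omega
        · exact absurd ⟨rfl, by omega, by omega, hy⟩ h4c
  rw [iW_det (p := fun e => e ∈ WNL O α β S) sdiff_subset hq, Finset.sdiff_sdiff_eq_self (ENL_sub O)]
  have hW : WJ w h 0 O.Wo ∪ (EJ w h 0 \ ENL w h α β).filter (fun e => e ∈ WNL O α β S) =
      WNL O α β S := by
    ext l
    rw [mem_union, mem_filter]
    constructor
    · rintro (h1 | ⟨-, h1⟩)
      · unfold WNL
        exact mem_union_left _ (mem_union_left _ (mem_union_left _ h1))
      · exact h1
    · intro h1
      have h1' := h1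
      unfold WNL at h1'
      rw [mem_union, mem_union, mem_union, mem_ifF, mem_ifF] at h1'
      have hin : ∀ (hE : l ∈ EJ w h 0) (hn : l ∉ ENL w h α β), l ∈ WJ w h 0 O.Wo ∨
          l ∈ EJ w h 0 \ ENL w h α β ∧ l ∈ WNL O α β S := fun hE hn =>
        Or.inr ⟨mem_sdiff.2 ⟨hE, hn⟩, h1⟩
      rcases h1' with ((h3 | h3) | ⟨ha, h3⟩) | ⟨hb, h3⟩
      · exact Or.inl h3
      · obtain ⟨x, y, rfl⟩ := exists_lt (odd_RRL (hS h3))
        have h5 := mem_RRL.1 (hS h3)
        refine hin (mem_EJ.2 (by omega)) ?_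
        rw [mem_ENL]
        rintro (h6 | ⟨-, h6⟩ | ⟨-, h6⟩) <;> omega
      · obtain ⟨x, y, rfl⟩ := exists_lt (odd_TiL h3)
        rw [mem_TiL] at h3
        refine hin (mem_EJ.2 (by omega)) ?_
        rw [mem_ENL]
        rintro (h6 | ⟨h6, -⟩ | ⟨-, h6⟩)
        · omega
        · rw [ha] at h6; exact Bool.false_ne_true h6
        · omega
      · have ho : (l.1 + l.2) % 2 = 1 := odd_EJ (OT_sub hw w2 h2 le_rfl (by omega) hh rfl h3)
        obtain ⟨x, y, rfl⟩ := exists_lt ho
        rw [mem_OT (by omega) w2 h2 le_rfl (by omega) rfl] at h3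
        have h5 : y = -1 ∧ 0 < x ∧ x < w := by omega
        refine hin (mem_EJ.2 (by omega)) ?_
        rw [mem_ENL]
        rintro (h6 | ⟨-, h6⟩ | ⟨h6, -⟩)
        · omega
        · omega
        · rw [hb] at h6; exact Bool.false_ne_true h6
  rw [hW]
  unfold H13.Q1.iW
  refine Ec_congr_q (fun e he => ?_) _
  obtain ⟨x, y, rfl⟩ := exists_lt (odd_ENL he)
  rw [mem_ENL] at he
  unfold qEL
  simp only [tt_lt]
  rcases he with h1 | ⟨ha, h1⟩ | ⟨hb, h1⟩
  · rw [if_neg (by rw [mem_RRL]; omega), if_neg (by omega), if_neg (by omega)]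
  · rw [if_neg (by rw [mem_RRL]; omega), if_pos (by omega), if_pos ha]
  · rw [if_neg (by rw [mem_RRL]; omega), if_neg (by omega), if_pos (by omega), if_pos hb]

/-- the tied form, below -/
theorem tied_low (O : Out w h) (hS : S ⊆ RRL h) {c : ℤ × ℤ} (hr : ∀ g ∈ PT w h 0, ¬ Ag g O.c0)
    (hc : ∀ g ∈ PT w h 0, ¬ Ag g c) :
    iW (RT 0 w 0 h ∪ TTL w h) (WL' O S) (qTL w h S α β) O.c0 O.k0 c =
      iW (EJ w h 0) (WJ w h 0 O.Wo) (qEL h S α β) O.c0 O.k0 c := by
  classical
  have hw := O.hw
  have hh := O.hh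
  have w2 := O.w2
  have h2 := O.h2
  have e1 : iW (ET w h 0) (WT w h 0 O.Wo) (qTL w h S α β) O.c0 O.k0 c =
      iW (EJ w h 0) (WJ w h 0 O.Wo) (qEL h S α β) O.c0 O.k0 c := by
    unfold ET WT OT
    refine iW_ties (PT w h 0) ev gp (eK w) (eR w) (fun g hg => cap_PT O le_rfl (by omega) rfl hg)
      (disj_EW O le_rfl (by omega))
      (fun k hk l hl hne => dis_PT (by omega) w2 h2 le_rfl (by omega) hh rfl hk hl hne)
      hr hc ?_ ?_
    · intro g hg
      obtain ⟨x, y⟩ := g
      rw [mem_PT (by omega) le_rfl (by omega)] at hg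
      unfold PTp at hg
      simp only at hg
      rcases hg with hg | hg | hg | hg
      · have f1 : ev (x, y) = false := ev_false.2 (by omega)
        have f2 : eK w (x, y) = lt (x, y) := by unfold eK; rw [if_pos (by simp only; omega)]
        have f3 : eR w (x, y) = lt (x, y - 1) := by unfold eR; rw [if_pos (by simp only; omega)]
        have q1 : qTL w h S α β (lt (x, y)) = if α = true then 3 / 4 else 1 := by
          unfold qTL
          rw [if_neg (by rw [mem_RRL]; omega), if_pos (mem_TiL.2 (by omega))]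
        have q2 : qEL h S α β (lt (x, y)) = if α = true then 1 / 2 else 1 := by
          unfold qEL
          simp only [tt_lt]
          rw [if_neg (by rw [mem_RRL]; omega), if_pos (by omega), if_pos (by omega : y % 2 = 0)]
        have q3 : qEL h S α β (lt (x, y - 1)) = if α = true then 1 / 2 else 0 := by
          unfold qEL
          simp only [tt_lt]
          rw [if_neg (by rw [mem_RRL]; omega), if_pos (by omega),
            if_neg (by omega : ¬ (y - 1) % 2 = 0)]
        rw [f1, f2, f3, q1, q2, q3]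
        unfold mg
        cases α
        · simp
        · simp only [if_true, Bool.false_eq_true, if_false]; norm_num
      · omega
      · have f1 : ev (x, y) = true := ev_true.2 (by omega)
        have f2 : eK w (x, y) = lt (x - 1, y) := by
          unfold eK
          rw [if_neg (by simp only; omega), if_neg (by simp only; omega),
            if_pos (by simp only; omega)]
        have f3 : eR w (x, y) = lt (x, y) := by
          unfold eR
          rw [if_neg (by simp only; omega), if_neg (by simp only; omega),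
            if_pos (by simp only; omega)]
        have q1 : qTL w h S α β (lt (x - 1, y)) = if β = true then 1 / 4 else 0 := by
          unfold qTL
          rw [if_neg (by rw [mem_RRL]; omega), if_neg (by rw [mem_TiL]; omega),
            if_pos (mem_TiF.2 (by omega))]
        have q2 : qEL h S α β (lt (x - 1, y)) = if β = true then 1 / 2 else 0 := by
          unfold qEL
          simp only [tt_lt]
          rw [if_neg (by rw [mem_RRL]; omega), if_neg (by omega), if_pos (by omega),
            if_neg (by omega : ¬ (x - 1) % 2 = 1)]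
        have q3 : qEL h S α β (lt (x, y)) = if β = true then 1 / 2 else 1 := by
          unfold qEL
          simp only [tt_lt]
          rw [if_neg (by rw [mem_RRL]; omega), if_neg (by omega), if_pos (by omega),
            if_pos (by omega : x % 2 = 1)]
        rw [f1, f2, f3, q1, q2, q3]
        unfold mg
        cases β
        · simp
        · simp only [if_true]; norm_num
      · omega
    · intro e he hn
      obtain ⟨x, y, rfl⟩ := exists_lt (odd_EJ he)
      rw [mem_EJ] at he
      unfold qTL qEL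
      simp only [tt_lt]
      by_cases hrr : lt (x, y) ∈ RRL h
      · rw [if_pos hrr, if_pos hrr]
      · rw [if_neg hrr, if_neg hrr]
        rw [mem_RRL] at hrr
        have m : ∀ {g : ℤ × ℤ}, PTp w h 0 g → g ∈ PT w h 0 := fun hg =>
          (mem_PT (by omega) le_rfl (by omega)).2 hg
        by_cases hx : x = -1
        · exfalso
          by_cases hy : y % 2 = 0
          · refine (hn (x, y) (m ?_)).1 ?_
            · unfold PTp; simp only; omega
            · unfold eK; rw [if_pos (by simp only; omega)]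
          · refine (hn (x, y + 1) (m ?_)).2 ?_
            · unfold PTp; simp only; omega
            · unfold eR
              rw [if_pos (by simp only; omega)]
              congr 2; ring
        · by_cases hy : y = -1
          · exfalso
            by_cases hx2 : x % 2 = 1
            · refine (hn (x, y) (m ?_)).2 ?_
              · exact Or.inr (Or.inr (Or.inl ⟨rfl, hy, by simp only; omega, by simp only; omega,
                  hx2⟩))
              · unfold eR
                rw [if_neg (by simp only; omega), if_neg (by simp only; omega),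
                  if_pos (by simp only; omega)]
            · refine (hn (x + 1, y) (m ?_)).1 ?_
              · exact Or.inr (Or.inr (Or.inl ⟨rfl, hy, by simp only; omega, by simp only; omega,
                  by simp only; omega⟩))
              · unfold eK
                rw [if_neg (by simp only; omega), if_neg (by simp only; omega),
                  if_pos (by simp only; omega)]
                congr 2; ring
          · rw [if_neg (by rw [mem_TiL]; omega), if_neg (by rw [mem_TiF]; omega), if_neg hx,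
              if_neg hy]
  rw [← e1, iW_det (RRL_sub O) (p := fun e => e ∈ S) (fun e he => by
    unfold qTL
    rw [if_pos he]), E_low O]
  congr 1
  unfold WL'
  congr 1
  ext l
  rw [mem_filter]
  exact ⟨fun h1 => ⟨hS h1, h1⟩, fun h1 => h1.2⟩

theorem WNL_sub (O : Out w h) (hS : S ⊆ RRL h) : WNL O α β S ⊆ GA w h ∪ O.Wo := by
  have hw := O.hw
  have hh := O.hh
  have w2 := O.w2
  have h2 := O.h2
  intro l hl
  unfold WNL at hl
  rw [mem_union, mem_union, mem_union, mem_ifF, mem_ifF] at hl
  have hE : EJ w h 0 ⊆ GA w h := EJ_sub (by omega) le_rfl (by omega)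
  rcases hl with ((h3 | h3) | ⟨-, h3⟩) | ⟨-, h3⟩
  · exact EW_sub O le_rfl (by omega) (mem_union_right _ h3)
  · exact mem_union_left _ (hE (ET_sub (RRL_sub O (hS h3))))
  · exact mem_union_left _ (hE (ET_sub (TiL_sub O le_rfl (by omega) rfl h3)))
  · exact mem_union_left _ (hE (OT_sub hw w2 h2 le_rfl (by omega) hh rfl h3))

theorem disj_NL (O : Out w h) (hS : S ⊆ RRL h) : Disjoint (ENL w h α β) (WNL O α β S) := by
  have hw := O.hw
  have hh := O.hh
  rw [disjoint_left]
  intro e he he'
  obtain ⟨x, y, rfl⟩ := exists_lt (odd_ENL he)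
  rw [mem_ENL] at he
  rw [mem_WNL] at he'
  rcases he' with (h5 | h5 | h5) | ⟨ha, h5⟩ | ⟨hb, h5⟩
  · rcases he with h6 | ⟨-, h6⟩ | ⟨-, h6⟩ <;> omega
  · have := O.far x y h5
    rcases he with h6 | ⟨-, h6⟩ | ⟨-, h6⟩ <;> omega
  · have := mem_RRL.1 (hS h5)
    rcases he with h6 | ⟨-, h6⟩ | ⟨-, h6⟩ <;> omega
  · rcases he with h6 | ⟨h7, h6⟩ | ⟨-, h6⟩
    · omega
    · rw [ha] at h7; exact Bool.false_ne_true h7
    · omega
  · rcases he with h6 | ⟨-, h6⟩ | ⟨h7, h6⟩
    · omega
    · omega
    · rw [hb] at h7; exact Bool.false_ne_true h7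

/-- **The natural environment below**: frozen real tiles `S`, column natural iff `α`, row iff `β`. -/
noncomputable def XNL (O : Out w h) (α β : Bool) (S : Finset (ℤ × ℤ)) (hS : S ⊆ RRL h) : Env :=
  EO O (ENL w h α β) (WNL O α β S) (disj_NL O hS)
    ((ENL_sub O).trans (EJ_sub (by have := O.hw; omega) le_rfl (by have := O.hh; omega)))
    (WNL_sub O hS)

/-- **The tied environment with frozen real tiles and the natural environment.** -/
theorem natL (hS : S ⊆ RRL h) {c : ℤ × ℤ} (hr : ∀ g ∈ PT w h 0, ¬ Ag g O.c0)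
    (hc : ∀ g ∈ PT w h 0, ¬ Ag g c) :
    (XL O S hS).incW (qTL w h S α β) c = (XNL O α β S hS).inc c := by
  unfold XL XNL
  rw [XF_incW, EO_inc, E_low O, ← real_low O hS, ← tied_low O hS hr hc]
  rfl

/-! ### Comparison with the tied form, above -/

/-- weights of the real form, above -/
noncomputable def qEU (w h : ℤ) (S : Finset (ℤ × ℤ)) (α β : Bool) (e : ℤ × ℤ) : ℂ :=
  if e ∈ RRU w h then (if e ∈ S then 1 else 0)
  else if (tt e).1 = w then
    (if α = true then 1 / 2 else if (tt e).2 % 2 = 1 then 1 else 0)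
  else if (tt e).2 = h - 1 then
    (if β = true then 1 / 2 else if (tt e).1 % 2 = 1 then 1 else 0)
  else 1 / 2

/-- weights of the tied form, above -/
noncomputable def qTU (w h : ℤ) (S : Finset (ℤ × ℤ)) (α β : Bool) (e : ℤ × ℤ) : ℂ :=
  if e ∈ RRU w h then (if e ∈ S then 1 else 0)
  else if e ∈ TiR w h then (if α = true then 3 / 4 else 1)
  else if e ∈ TiU w h then (if β = true then 1 / 4 else 0)
  else 1 / 2

theorem ENU_sub (O : Out w h) : ENU w h α β ⊆ EJ w h h := by
  have := O.hw
  have := O.hh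
  intro e he
  obtain ⟨x, y, rfl⟩ := exists_lt (odd_ENU he)
  rw [mem_ENU] at he
  rw [mem_EJ]
  rcases he with h1 | ⟨-, h1⟩ | ⟨-, h1⟩ <;> omega

/-- the real form, above -/
theorem real_up (O : Out w h) (hS : S ⊆ RRU w h) (c0 : ℤ × ℤ) (k0 : ℤ) (c : ℤ × ℤ) :
    iW (EJ w h h) (WJ w h h O.Wo) (qEU w h S α β) c0 k0 c =
      iW (ENU w h α β) (WNU O α β S) (fun _ => 1 / 2) c0 k0 c := by
  classical
  have hw := O.hw
  have hh := O.hh
  have w2 := O.w2
  have h2 := O.h2
  have hq : ∀ e ∈ EJ w h h \ ENU w h α β, qEU w h S α β e =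
      if e ∈ WNU O α β S then 1 else 0 := by
    intro e he
    obtain ⟨h3, h4⟩ := mem_sdiff.1 he
    obtain ⟨x, y, rfl⟩ := exists_lt (odd_EJ h3)
    have hWo : lt (x, y) ∉ O.Wo := by
      intro h5
      have := O.far x y h5
      rw [mem_EJ] at h3
      omega
    rw [mem_EJ] at h3
    rw [mem_ENU, not_or, not_or] at h4
    obtain ⟨h4a, h4b, h4c⟩ := h4
    unfold qEU
    simp only [tt_lt]
    by_cases hr : lt (x, y) ∈ RRU w h
    · rw [if_pos hr]
      refine if_congr ?_ rfl rfl
      rw [mem_WNU]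
      rw [mem_RRU] at hr
      constructor
      · intro h5; exact Or.inl (Or.inr (Or.inr (Or.inr h5)))
      · rintro ((h5 | h5 | h5 | h5) | ⟨-, h5⟩ | ⟨-, h5⟩)
        · omega
        · omega
        · exact absurd h5 hWo
        · exact h5
        · omega
        · omega
    · rw [if_neg hr]
      have hSn : lt (x, y) ∉ S := fun h5 => hr (hS h5)
      rw [mem_RRU] at hr
      by_cases hx : x = w
      · rw [if_pos hx]
        cases α
        · rw [if_neg Bool.false_ne_true]
          refine if_congr ?_ rfl rfl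
          rw [mem_WNU]
          constructor
          · intro h5; right; left; exact ⟨rfl, hx, by omega, by omega, h5⟩
          · rintro ((h5 | h5 | h5 | h5) | ⟨-, h5⟩ | ⟨-, h5⟩)
            · omega
            · omega
            · exact absurd h5 hWo
            · exact absurd h5 hSn
            · omega
            · omega
        · exact absurd ⟨rfl, hx, by omega, by omega⟩ h4b
      · rw [if_neg hx]
        have hy : y = h - 1 := by
          by_contra hy
          exact h4a (by omega)
        rw [if_pos hy]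
        cases β
        · rw [if_neg Bool.false_ne_true]
          refine if_congr ?_ rfl rfl
          rw [mem_WNU]
          constructor
          · intro h5; right; right; exact ⟨rfl, hy, by omega, by omega, h5⟩
          · rintro ((h5 | h5 | h5 | h5) | ⟨-, h5⟩ | ⟨-, h5⟩)
            · omega
            · omega
            · exact absurd h5 hWo
            · exact absurd h5 hSn
            · omega
            · omega
        · exact absurd ⟨rfl, by omega, by omega, hy⟩ h4c
  rw [iW_det (p := fun e => e ∈ WNU O α β S) sdiff_subset hq,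
    Finset.sdiff_sdiff_eq_self (ENU_sub O)]
  have hW : WJ w h h O.Wo ∪ (EJ w h h \ ENU w h α β).filter (fun e => e ∈ WNU O α β S) =
      WNU O α β S := by
    ext l
    rw [mem_union, mem_filter]
    constructor
    · rintro (h1 | ⟨-, h1⟩)
      · unfold WNU
        exact mem_union_left _ (mem_union_left _ (mem_union_left _ h1))
      · exact h1
    · intro h1
      have h1' := h1
      unfold WNU at h1'
      rw [mem_union, mem_union, mem_union, mem_ifF, mem_ifF] at h1'
      have hin : ∀ (hE : l ∈ EJ w h h) (hn : l ∉ ENU w h α β), l ∈ WJ w h h O.Wo ∨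
          l ∈ EJ w h h \ ENU w h α β ∧ l ∈ WNU O α β S := fun hE hn =>
        Or.inr ⟨mem_sdiff.2 ⟨hE, hn⟩, h1⟩
      rcases h1' with ((h3 | h3) | ⟨ha, h3⟩) | ⟨hb, h3⟩
      · exact Or.inl h3
      · obtain ⟨x, y, rfl⟩ := exists_lt (odd_RRU (hS h3))
        have h5 := mem_RRU.1 (hS h3)
        refine hin (mem_EJ.2 (by omega)) ?_
        rw [mem_ENU]
        rintro (h6 | ⟨-, h6⟩ | ⟨-, h6⟩) <;> omega
      · obtain ⟨x, y, rfl⟩ := exists_lt (odd_TiR h3)
        rw [mem_TiR] at h3
        refine hin (mem_EJ.2 (by omega)) ?_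
        rw [mem_ENU]
        rintro (h6 | ⟨h6, -⟩ | ⟨-, h6⟩)
        · omega
        · rw [ha] at h6; exact Bool.false_ne_true h6
        · omega
      · have ho : (l.1 + l.2) % 2 = 1 := odd_EJ (OT_sub hw w2 h2 (by omega) le_rfl hh h2 h3)
        obtain ⟨x, y, rfl⟩ := exists_lt ho
        rw [mem_OT (by omega) w2 h2 (by omega) le_rfl h2] at h3
        have h5 : y = h - 1 ∧ 0 < x ∧ x + 1 < w := by omega
        refine hin (mem_EJ.2 (by omega)) ?_
        rw [mem_ENU]
        rintro (h6 | ⟨-, h6⟩ | ⟨h6, -⟩)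
        · omega
        · omega
        · rw [hb] at h6; exact Bool.false_ne_true h6
  rw [hW]
  unfold H13.Q1.iW
  refine Ec_congr_q (fun e he => ?_) _
  obtain ⟨x, y, rfl⟩ := exists_lt (odd_ENU he)
  rw [mem_ENU] at he
  unfold qEU
  simp only [tt_lt]
  rcases he with h1 | ⟨ha, h1⟩ | ⟨hb, h1⟩
  · rw [if_neg (by rw [mem_RRU]; omega), if_neg (by omega), if_neg (by omega)]
  · rw [if_neg (by rw [mem_RRU]; omega), if_pos (by omega), if_pos ha]
  · rw [if_neg (by rw [mem_RRU]; omega), if_neg (by omega), if_pos (by omega), if_pos hb]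

/-- the tied form, above -/
theorem tied_up (O : Out w h) (hS : S ⊆ RRU w h) {c : ℤ × ℤ} (hr : ∀ g ∈ PT w h h, ¬ Ag g O.c0)
    (hc : ∀ g ∈ PT w h h, ¬ Ag g c) :
    iW (RT 0 w (-1) (h - 1) ∪ TTU w h) (WU' O S) (qTU w h S α β) O.c0 O.k0 c =
      iW (EJ w h h) (WJ w h h O.Wo) (qEU w h S α β) O.c0 O.k0 c := by
  classical
  have hw := O.hw
  have hh := O.hh
  have w2 := O.w2
  have h2 := O.h2
  have e1 : iW (ET w h h) (WT w h h O.Wo) (qTU w h S α β) O.c0 O.k0 c =
      iW (EJ w h h) (WJ w h h O.Wo) (qEU w h S α β) O.c0 O.k0 c := by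
    unfold ET WT OT
    refine iW_ties (PT w h h) ev gp (eK w) (eR w) (fun g hg => cap_PT O (by omega) le_rfl h2 hg)
      (disj_EW O (by omega) le_rfl)
      (fun k hk l hl hne => dis_PT (by omega) w2 h2 (by omega) le_rfl hh h2 hk hl hne)
      hr hc ?_ ?_
    · intro g hg
      obtain ⟨x, y⟩ := g
      rw [mem_PT (by omega) (by omega) le_rfl] at hg
      unfold PTp at hg
      simp only at hg
      rcases hg with hg | hg | hg | hg
      · omega
      · have f1 : ev (x, y) = false := ev_false.2 (by omega)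
        have f2 : eK w (x, y) = lt (x - 1, y - 1) := by
          unfold eK; rw [if_neg (by simp only; omega), if_pos (by simp only; omega)]
        have f3 : eR w (x, y) = lt (x - 1, y) := by
          unfold eR; rw [if_neg (by simp only; omega), if_pos (by simp only; omega)]
        have q1 : qTU w h S α β (lt (x - 1, y - 1)) = if α = true then 3 / 4 else 1 := by
          unfold qTU
          rw [if_neg (by rw [mem_RRU]; omega), if_pos (mem_TiR.2 (by omega))]
        have q2 : qEU w h S α β (lt (x - 1, y - 1)) = if α = true then 1 / 2 else 1 := by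
          unfold qEU
          simp only [tt_lt]
          rw [if_neg (by rw [mem_RRU]; omega), if_pos (by omega),
            if_pos (by omega : (y - 1) % 2 = 1)]
        have q3 : qEU w h S α β (lt (x - 1, y)) = if α = true then 1 / 2 else 0 := by
          unfold qEU
          simp only [tt_lt]
          rw [if_neg (by rw [mem_RRU]; omega), if_pos (by omega), if_neg (by omega : ¬ y % 2 = 1)]
        rw [f1, f2, f3, q1, q2, q3]
        unfold mg
        cases α
        · simp
        · simp only [if_true, Bool.false_eq_true, if_false]; norm_num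
      · omega
      · have f1 : ev (x, y) = true := ev_true.2 (by omega)
        have f2 : eK w (x, y) = lt (x, y - 1) := by
          unfold eK
          rw [if_neg (by simp only; omega), if_neg (by simp only; omega),
            if_neg (by simp only; omega)]
        have f3 : eR w (x, y) = lt (x - 1, y - 1) := by
          unfold eR
          rw [if_neg (by simp only; omega), if_neg (by simp only; omega),
            if_neg (by simp only; omega)]
        have q1 : qTU w h S α β (lt (x, y - 1)) = if β = true then 1 / 4 else 0 := by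
          unfold qTU
          rw [if_neg (by rw [mem_RRU]; omega), if_neg (by rw [mem_TiR]; omega),
            if_pos (mem_TiU.2 (by omega))]
        have q2 : qEU w h S α β (lt (x, y - 1)) = if β = true then 1 / 2 else 0 := by
          unfold qEU
          simp only [tt_lt]
          rw [if_neg (by rw [mem_RRU]; omega), if_neg (by omega), if_pos (by omega),
            if_neg (by omega : ¬ x % 2 = 1)]
        have q3 : qEU w h S α β (lt (x - 1, y - 1)) = if β = true then 1 / 2 else 1 := by
          unfold qEU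
          simp only [tt_lt]
          rw [if_neg (by rw [mem_RRU]; omega), if_neg (by omega), if_pos (by omega),
            if_pos (by omega : (x - 1) % 2 = 1)]
        rw [f1, f2, f3, q1, q2, q3]
        unfold mg
        cases β
        · simp
        · simp only [if_true]; norm_num
    · intro e he hn
      obtain ⟨x, y, rfl⟩ := exists_lt (odd_EJ he)
      rw [mem_EJ] at he
      unfold qTU qEU
      simp only [tt_lt]
      by_cases hrr : lt (x, y) ∈ RRU w h
      · rw [if_pos hrr, if_pos hrr]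
      · rw [if_neg hrr, if_neg hrr]
        rw [mem_RRU] at hrr
        have m : ∀ {g : ℤ × ℤ}, PTp w h h g → g ∈ PT w h h := fun hg =>
          (mem_PT (by omega) (by omega) le_rfl).2 hg
        by_cases hx : x = w
        · exfalso
          by_cases hy : y % 2 = 1
          · refine (hn (x + 1, y + 1) (m (Or.inr (Or.inl ⟨?_, ?_, ?_, ?_⟩)))).1 ?_
            · simp only; omega
            · simp only; omega
            · simp only; omega
            · simp only; omega
            · unfold eK
              rw [if_neg (by simp only; omega), if_pos (by simp only; omega)]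
              congr 2 <;> ring
          · refine (hn (x + 1, y) (m (Or.inr (Or.inl ⟨?_, ?_, ?_, ?_⟩)))).2 ?_
            · simp only; omega
            · simp only; omega
            · simp only; omega
            · simp only; omega
            · unfold eR
              rw [if_neg (by simp only; omega), if_pos (by simp only; omega)]
              congr 2; ring
        · by_cases hy : y = h - 1
          · exfalso
            by_cases hx2 : x % 2 = 1
            · refine (hn (x + 1, y + 1) (m (Or.inr (Or.inr (Or.inr ⟨rfl, ?_, ?_, ?_, ?_⟩))))).2 ?_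
              · simp only; omega
              · simp only; omega
              · simp only; omega
              · simp only; omega
              · unfold eR
                rw [if_neg (by simp only; omega), if_neg (by simp only; omega),
                  if_neg (by simp only; omega)]
                congr 2 <;> ring
            · refine (hn (x, y + 1) (m (Or.inr (Or.inr (Or.inr ⟨rfl, ?_, ?_, ?_, ?_⟩))))).1 ?_
              · simp only; omega
              · simp only; omega
              · simp only; omega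
              · simp only; omega
              · unfold eK
                rw [if_neg (by simp only; omega), if_neg (by simp only; omega),
                  if_neg (by simp only; omega)]
                congr 2; ring
          · rw [if_neg (by rw [mem_TiR]; omega), if_neg (by rw [mem_TiU]; omega), if_neg hx,
              if_neg hy]
  rw [← e1, iW_det (RRU_sub O) (p := fun e => e ∈ S) (fun e he => by
    unfold qTU
    rw [if_pos he]), E_up O]
  congr 1
  unfold WU'
  congr 1
  ext l
  rw [mem_filter]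
  exact ⟨fun h1 => ⟨hS h1, h1⟩, fun h1 => h1.2⟩

theorem WNU_sub (O : Out w h) (hS : S ⊆ RRU w h) : WNU O α β S ⊆ GA w h ∪ O.Wo := by
  have hw := O.hw
  have hh := O.hh
  have w2 := O.w2
  have h2 := O.h2
  intro l hl
  unfold WNU at hl
  rw [mem_union, mem_union, mem_union, mem_ifF, mem_ifF] at hl
  have hE : EJ w h h ⊆ GA w h := EJ_sub (by omega) (by omega) le_rfl
  rcases hl with ((h3 | h3) | ⟨-, h3⟩) | ⟨-, h3⟩
  · exact EW_sub O (by omega) le_rfl (mem_union_right _ h3)
  · exact mem_union_left _ (hE (ET_sub (RRU_sub O (hS h3))))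
  · exact mem_union_left _ (hE (ET_sub (TiR_sub O (by omega) le_rfl h2 h3)))
  · exact mem_union_left _ (hE (OT_sub hw w2 h2 (by omega) le_rfl hh h2 h3))

theorem disj_NU (O : Out w h) (hS : S ⊆ RRU w h) : Disjoint (ENU w h α β) (WNU O α β S) := by
  have hw := O.hw
  have hh := O.hh
  rw [disjoint_left]
  intro e he he'
  obtain ⟨x, y, rfl⟩ := exists_lt (odd_ENU he)
  rw [mem_ENU] at he
  rw [mem_WNU] at he'
  rcases he' with (h5 | h5 | h5 | h5) | ⟨ha, h5⟩ | ⟨hb, h5⟩
  · rcases he with h6 | ⟨-, h6⟩ | ⟨-, h6⟩ <;> omega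
  · rcases he with h6 | ⟨-, h6⟩ | ⟨-, h6⟩ <;> omega
  · have := O.far x y h5
    rcases he with h6 | ⟨-, h6⟩ | ⟨-, h6⟩ <;> omega
  · have := mem_RRU.1 (hS h5)
    rcases he with h6 | ⟨-, h6⟩ | ⟨-, h6⟩ <;> omega
  · rcases he with h6 | ⟨h7, h6⟩ | ⟨-, h6⟩
    · omega
    · rw [ha] at h7; exact Bool.false_ne_true h7
    · omega
  · rcases he with h6 | ⟨-, h6⟩ | ⟨h7, h6⟩
    · omega
    · omega
    · rw [hb] at h7; exact Bool.false_ne_true h7

/-- **The natural environment above**: frozen real tiles `S`, column natural iff `α`, row iff `β`. -/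
noncomputable def XNU (O : Out w h) (α β : Bool) (S : Finset (ℤ × ℤ)) (hS : S ⊆ RRU w h) : Env :=
  EO O (ENU w h α β) (WNU O α β S) (disj_NU O hS)
    ((ENU_sub O).trans (EJ_sub (by have := O.hw; omega) (by have := O.hh; omega) le_rfl))
    (WNU_sub O hS)

/-- **The tied environment with frozen real tiles and the natural environment.** -/
theorem natU (hS : S ⊆ RRU w h) {c : ℤ × ℤ} (hr : ∀ g ∈ PT w h h, ¬ Ag g O.c0)
    (hc : ∀ g ∈ PT w h h, ¬ Ag g c) :
    (XU O S hS).incW (qTU w h S α β) c = (XNU O α β S hS).inc c := by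
  unfold XU XNU
  rw [XF_incW, EO_inc, E_up O, ← real_up O hS, ← tied_up O hS hr hc]
  rfl

/-! ### Odd labels, one more frozen tile -/

theorem odd_WNL (ho : ∀ e ∈ O.Wo, (e.1 + e.2) % 2 = 1) (hS : S ⊆ RRL h) :
    ∀ e ∈ WNL O α β S, (e.1 + e.2) % 2 = 1 := by
  intro e he
  rcases mem_union.1 (WNL_sub O hS he) with h1 | h1
  · exact odd_RT h1
  · exact ho e h1

theorem odd_WNU (ho : ∀ e ∈ O.Wo, (e.1 + e.2) % 2 = 1) (hS : S ⊆ RRU w h) :
    ∀ e ∈ WNU O α β S, (e.1 + e.2) % 2 = 1 := by
  intro e he
  rcases mem_union.1 (WNU_sub O hS he) with h1 | h1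
  · exact odd_RT h1
  · exact ho e h1

theorem XNL_planeEnv (ho : ∀ e ∈ O.Wo, (e.1 + e.2) % 2 = 1) (hS : S ⊆ RRL h) :
    PlaneEnv (XNL O α β S hS) (WNL O α β S) := EO_planeEnv (odd_WNL ho hS)

theorem XNU_planeEnv (ho : ∀ e ∈ O.Wo, (e.1 + e.2) % 2 = 1) (hS : S ⊆ RRU w h) :
    PlaneEnv (XNU O α β S hS) (WNU O α β S) := EO_planeEnv (odd_WNU ho hS)

@[simp] theorem XNL_E {hS : S ⊆ RRL h} : (XNL O α β S hS).E = ENL w h α β := rfl
@[simp] theorem XNL_c0 {hS : S ⊆ RRL h} : (XNL O α β S hS).c0 = O.c0 := rfl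
@[simp] theorem XNL_k0 {hS : S ⊆ RRL h} : (XNL O α β S hS).k0 = O.k0 := rfl
@[simp] theorem XNU_E {hS : S ⊆ RRU w h} : (XNU O α β S hS).E = ENU w h α β := rfl
@[simp] theorem XNU_c0 {hS : S ⊆ RRU w h} : (XNU O α β S hS).c0 = O.c0 := rfl
@[simp] theorem XNU_k0 {hS : S ⊆ RRU w h} : (XNU O α β S hS).k0 = O.k0 := rfl

theorem WNL_insert (t : ℤ × ℤ) : WNL O α β (insert t S) = insert t (WNL O α β S) := by
  unfold WNL
  ext l
  simp only [mem_union, mem_insert]
  tauto

theorem WNU_insert (t : ℤ × ℤ) : WNU O α β (insert t S) = insert t (WNU O α β S) := by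
  unfold WNU
  ext l
  simp only [mem_union, mem_insert]
  tauto

/-! ### The weights of the tied form -/

theorem qT_c1 {a b : ℂ} (h1 : 0 < y) (h2 : y < h) (h3 : y % 2 = 0) :
    qT w h 0 a b (lt (-1, y)) = 1 - b * (1 - b) := by
  unfold qT
  rw [tt_lt, if_pos (Or.inl ⟨rfl, h3, h1, h2⟩)]

theorem qT_c2 {a b : ℂ} (h1 : -1 ≤ y) (h2 : y < h - 1) (h3 : y % 2 = 1) :
    qT w h h a b (lt (w, y)) = 1 - b * (1 - b) := by
  unfold qT
  rw [tt_lt, if_pos (Or.inr ⟨rfl, h3, h1, h2⟩)]

theorem qT_r1 {a b : ℂ} (hh : 2 ≤ h) (h1 : 0 ≤ x) (h2 : x < w) (h3 : x % 2 = 0) :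
    qT w h 0 a b (lt (x, -1)) = a * (1 - a) := by
  unfold qT
  rw [tt_lt, if_neg, if_pos (Or.inl ⟨rfl, rfl, h3, h1, h2⟩)]
  simp only
  omega

theorem qT_r2 {a b : ℂ} (hh : 2 ≤ h) (h1 : 0 < x) (h2 : x < w) (h3 : x % 2 = 0) :
    qT w h h a b (lt (x, h - 1)) = a * (1 - a) := by
  unfold qT
  rw [tt_lt, if_neg, if_pos (Or.inr ⟨rfl, rfl, h3, h1, h2⟩)]
  simp only
  omega

theorem qT_b1 {a b : ℂ} (h1 : 0 ≤ x) (h2 : x < w) (h3 : 0 ≤ y) (h4 : y < h) :
    qT w h 0 a b (lt (x, y)) = 1 / 2 := by
  unfold qT qJ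
  rw [tt_lt]
  simp only
  rw [if_neg (by omega), if_neg (by omega), if_neg (by omega), if_neg (by omega)]

theorem qT_b2 {a b : ℂ} (h1 : 0 ≤ x) (h2 : x < w) (h3 : -1 ≤ y) (h4 : y < h - 1) (hh : 0 < h) :
    qT w h h a b (lt (x, y)) = 1 / 2 := by
  unfold qT qJ
  rw [tt_lt]
  simp only
  rw [if_neg (by omega), if_neg (by omega), if_neg (by omega), if_neg (by omega)]

theorem qTL_c (h1 : 0 < y) (h2 : y < h) (h3 : y % 2 = 0) (hh : h % 2 = 0) :
    qTL w h S α β (lt (-1, y)) = if α = true then 3 / 4 else 1 := by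
  unfold qTL
  rw [if_neg (by rw [mem_RRL]; omega), if_pos (mem_TiL.2 (by omega))]

theorem qTL_r (hh : 2 ≤ h) (h1 : 0 ≤ x) (h2 : x < w) (h3 : x % 2 = 0) :
    qTL w h S α β (lt (x, -1)) = if β = true then 1 / 4 else 0 := by
  unfold qTL
  rw [if_neg (by rw [mem_RRL]; omega), if_neg (by rw [mem_TiL]; omega),
    if_pos (mem_TiF.2 (by omega))]

theorem qTL_b (h1 : 0 ≤ x) (h2 : x < w) (h3 : 0 ≤ y) (h4 : y < h) :
    qTL w h S α β (lt (x, y)) = 1 / 2 := by
  unfold qTL
  rw [if_neg (by rw [mem_RRL]; omega), if_neg (by rw [mem_TiL]; omega),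
    if_neg (by rw [mem_TiF]; omega)]

theorem qTU_c (hw : 2 ≤ w) (h1 : -1 ≤ y) (h2 : y < h - 1) (h3 : y % 2 = 1) :
    qTU w h S α β (lt (w, y)) = if α = true then 3 / 4 else 1 := by
  unfold qTU
  rw [if_neg (by rw [mem_RRU]; omega), if_pos (mem_TiR.2 (by omega))]

theorem qTU_r (hw : w % 2 = 0) (hh : 2 ≤ h) (h1 : 0 < x) (h2 : x < w) (h3 : x % 2 = 0) :
    qTU w h S α β (lt (x, h - 1)) = if β = true then 1 / 4 else 0 := by
  unfold qTU
  rw [if_neg (by rw [mem_RRU]; omega), if_neg (by rw [mem_TiR]; omega),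
    if_pos (mem_TiU.2 (by omega))]

theorem qTU_b (h1 : 0 ≤ x) (h2 : x < w) (h3 : -1 ≤ y) (h4 : y < h - 1) :
    qTU w h S α β (lt (x, y)) = 1 / 2 := by
  unfold qTU
  rw [if_neg (by rw [mem_RRU]; omega), if_neg (by rw [mem_TiR]; omega),
    if_neg (by rw [mem_TiU]; omega)]

/-- the weights of the tied form with frozen tiles are those of `qT` for `a = 0, 1/2`, `b = 1, 1/2` -/
theorem qTL_eq (O : Out w h) {e : ℤ × ℤ} (he : e ∈ RT 0 w 0 h ∪ TTL w h) :
    qTL w h S α β e = qT w h 0 (if β = true then 1 / 2 else 0) (if α = true then 1 / 2 else 1) e := by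
  have hw := O.hw
  have hh := O.hh
  have h2 := O.h2
  have ho : (e.1 + e.2) % 2 = 1 := by
    rcases mem_union.1 he with h1 | h1
    · exact odd_RT h1
    · exact odd_TTL h1
  obtain ⟨x, y, rfl⟩ := exists_lt ho
  rw [mem_union, lt_mem_RT, mem_TTL] at he
  rcases he with he | he | he
  · rw [qTL_b he.1 he.2.1 he.2.2.1 he.2.2.2, qT_b1 he.1 he.2.1 he.2.2.1 he.2.2.2]
  · obtain ⟨rfl, h3, h4, h5⟩ := he
    rw [qTL_c h3 h4 h5 h2, qT_c1 h3 h4 h5]
    cases α
    · simp
    · simp only [if_true]; norm_num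
  · obtain ⟨rfl, h3, h4, h5⟩ := he
    rw [qTL_r hh h3 h4 h5, qT_r1 hh h3 h4 h5]
    cases β
    · simp
    · simp only [if_true]; norm_num

theorem qTU_eq (O : Out w h) {e : ℤ × ℤ} (he : e ∈ RT 0 w (-1) (h - 1) ∪ TTU w h) :
    qTU w h S α β e = qT w h h (if β = true then 1 / 2 else 0) (if α = true then 1 / 2 else 1) e := by
  have hw := O.hw
  have hh := O.hh
  have h2 := O.h2
  have w2 := O.w2
  have ho : (e.1 + e.2) % 2 = 1 := by
    rcases mem_union.1 he with h1 | h1
    · exact odd_RT h1
    · exact odd_TTU h1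
  obtain ⟨x, y, rfl⟩ := exists_lt ho
  rw [mem_union, lt_mem_RT, mem_TTU] at he
  rcases he with he | he | he
  · rw [qTU_b he.1 he.2.1 he.2.2.1 he.2.2.2, qT_b2 he.1 he.2.1 he.2.2.1 he.2.2.2 (by omega)]
  · obtain ⟨rfl, h3, h4, h5⟩ := he
    rw [qTU_c hw h3 h4 h5, qT_c2 h3 h4 h5]
    cases α
    · simp
    · simp only [if_true]; norm_num
  · obtain ⟨rfl, h3, h4, h5⟩ := he
    rw [qTU_r w2 hh h3 h4 h5, qT_r2 hh h3 h4 h5]
    cases β
    · simp
    · simp only [if_true]; norm_num

end Pool.Agent.H13.R45
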