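import Mathlib
import Pool.Agent.H13.R45.Fam
import Pool.Agent.H39.Q1.Multi

set_option autoImplicit false
open Finset

/-! # The tied forms as environments with several families of ties (`Multi`)

`iW_freeze` : sum over the states of a set of random labels. `XF` : the tied form `XT` with some random
labels frozen. `RRL` : the real tiles of `X_low` (`j = 0`), `RRU` : the real tiles of `X_up` (`j = h`).
`multiL`, `multiU` : the structure `Multi` for the two tied forms with frozen real tiles. -/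

namespace Pool.Agent.H13.R45

open Pool.Agent.H75.Perc Pool.Agent.H75.TwoArm Pool.Agent.Q1 Pool.Agent.H33.Q1
open Pool.Agent.H75.Four Pool.Agent.H69.Q1
open Pool.Agent.H74.R45 Pool.Agent.H13.Q1
open Pool.Agent.H39.Q1

/-! ### Frozen labels -/

/-- **Sum over the states of the labels of `Rl`.** -/
theorem iW_freeze {E W Rl : Finset (ℤ × ℤ)} (hR : Rl ⊆ E) (q : ℤ × ℤ → ℂ) (c0 : ℤ × ℤ) (k0 : ℤ)
    (c : ℤ × ℤ) : iW E W q c0 k0 c =
      ∑ S ∈ Rl.powerset, wtc q Rl S * iW (E \ Rl) (W ∪ S) q c0 k0 c := by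
  unfold iW
  rw [Ec_split q hR]
  show ∑ ω ∈ Rl.powerset, wtc q Rl ω * _ = _
  refine sum_congr rfl fun S _ => ?_
  congr 1
  refine Ec_congr fun ω _ => ?_
  congr 1
  ext l
  simp only [mem_union]
  tauto

section freeze

variable {w h j : ℤ}

theorem XF_sub {O : Out w h} {Rl S : Finset (ℤ × ℤ)} (hS : S ⊆ Rl) (hR : Rl ⊆ ET w h j) :
    (ET w h j \ Rl) ∪ (WT w h j O.Wo ∪ S) ⊆ ET w h j ∪ WT w h j O.Wo := by
  intro l hl
  rcases mem_union.1 hl with h1 | h1
  · exact mem_union_left _ (mem_sdiff.1 h1).1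
  · rcases mem_union.1 h1 with h2 | h2
    · exact mem_union_right _ h2
    · exact mem_union_left _ (hR (hS h2))

theorem XF_disj (O : Out w h) (h0 : 0 ≤ j) (h1 : j ≤ h) {Rl S : Finset (ℤ × ℤ)} (hS : S ⊆ Rl) :
    Disjoint (ET w h j \ Rl) (WT w h j O.Wo ∪ S) := by
  rw [disjoint_union_right]
  refine ⟨(disj_ETWT O h0 h1).mono_left sdiff_subset, ?_⟩
  rw [disjoint_left]
  exact fun l h1 h2 => (mem_sdiff.1 h1).2 (hS h2)

/-- **The tied form with frozen labels**: the labels of `Rl` are not random, those of `S` are open. -/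
noncomputable def XF (O : Out w h) (j : ℤ) (h0 : 0 ≤ j) (h1 : j ≤ h) (j2 : j % 2 = 0)
    (Rl S : Finset (ℤ × ℤ)) (hS : S ⊆ Rl) (hR : Rl ⊆ ET w h j) : Env :=
  Env.plane (ET w h j \ Rl) (WT w h j O.Wo ∪ S) O.c0 O.k0 O.g
    (fun _ he => odd_EJ (ET_sub (mem_sdiff.1 he).1)) (XF_disj O h0 h1 hS) O.hk
    (fun h => O.hroot (EJ_sub (by have := O.hw; omega) h0 h1 (ET_sub (mem_sdiff.1 h).1)))
    (O.hg.anti ((XF_sub hS hR).trans (ETWT_sub O h0 h1 j2)))
    (fun v hv => O.hlow v (hv.mono ((XF_sub hS hR).trans (ETWT_sub O h0 h1 j2))))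

variable {O : Out w h} {h0 : 0 ≤ j} {h1 : j ≤ h} {j2 : j % 2 = 0} {Rl S : Finset (ℤ × ℤ)}
  {hS : S ⊆ Rl} {hR : Rl ⊆ ET w h j}

@[simp] theorem XF_E : (XF O j h0 h1 j2 Rl S hS hR).E = ET w h j \ Rl := rfl
@[simp] theorem XF_c0 : (XF O j h0 h1 j2 Rl S hS hR).c0 = O.c0 := rfl
@[simp] theorem XF_k0 : (XF O j h0 h1 j2 Rl S hS hR).k0 = O.k0 := rfl
@[simp] theorem XF_T : (XF O j h0 h1 j2 Rl S hS hR).T = 4 := rfl

theorem XF_planeLike : (XF O j h0 h1 j2 Rl S hS hR).PlaneLike (WT w h j O.Wo ∪ S) :=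
  Env.planeLike_plane

theorem XF_incW (q : ℤ × ℤ → ℂ) (c : ℤ × ℤ) : (XF O j h0 h1 j2 Rl S hS hR).incW q c =
    iW (ET w h j \ Rl) (WT w h j O.Wo ∪ S) q O.c0 O.k0 c := plane_incW q c

/-- **The tied form as a sum over the states of the labels of `Rl`.** -/
theorem XT_freeze (hR : Rl ⊆ ET w h j) (q : ℤ × ℤ → ℂ) (c : ℤ × ℤ) :
    (XT O j h0 h1 j2).incW q c = ∑ S ∈ Rl.powerset,
      wtc q Rl S * iW (ET w h j \ Rl) (WT w h j O.Wo ∪ S) q O.c0 O.k0 c := by
  unfold XT
  rw [plane_incW]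
  exact iW_freeze hR q _ _ c

end freeze

/-! ### Grid points and labels -/

/-- a label at a grid point -/
theorem tg_end {o : Bool} {g p e : ℤ × ℤ} (hg : ev g = o) (hu : IsUnit4 (p - gp g))
    (he : if o = true then gp g + p = e else gp g + p - (1, 1) = e) : Tg g e := by
  obtain ⟨g1, g2⟩ := g
  obtain ⟨p1, p2⟩ := p
  obtain ⟨e1, e2⟩ := e
  have hc := unit_cases hu
  unfold gp at hc he
  unfold Tg lt
  cases o
  · rw [ev_false] at hg
    simp only [Bool.false_eq_true, if_false, Prod.mk_add_mk, Prod.mk_sub_mk, Prod.mk.injEq] at he hc ⊢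
    omega
  · rw [ev_true] at hg
    simp only [if_true, Prod.mk_add_mk, Prod.mk.injEq] at he hc ⊢
    omega

theorem tg_lt {g : ℤ × ℤ} {u v : ℤ} (h : Tg g (lt (u, v))) :
    (u = g.1 ∨ u = g.1 - 1) ∧ (v = g.2 ∨ v = g.2 - 1) := by
  rcases h with h | h | h | h <;>
    · have := lt_inj h
      simp only [Prod.mk.injEq] at this
      omega

section grid

variable {x0 x1 y0 y1 : ℤ} {T : Finset (ℤ × ℤ)} {f : ℤ × ℤ → ℤ × ℤ} {p : ℤ × ℤ}

/-- in the closed rectangle -/
def InR (x0 x1 y0 y1 : ℤ) (g : ℤ × ℤ) : Prop := x0 ≤ g.1 ∧ g.1 ≤ x1 ∧ y0 ≤ g.2 ∧ g.2 ≤ y1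

/-- vertices of a rectangular layer -/
theorem grid_VO (hb : ∀ e ∈ T, ∃ g, InR x0 x1 y0 y1 g ∧ ev g = true ∧ gp g = f e)
    (hx : VO (RT x0 x1 y0 y1) T f p) : ∃ g, InR x0 x1 y0 y1 g ∧ ev g = true ∧ gp g = p := by
  rcases hx with ⟨e, he, rfl⟩ | ⟨z, h1, h2⟩
  · exact hb e he
  · obtain ⟨g, h3, h4, h5⟩ := rect_end (o := true) h1 (by simpa using h2)
    exact ⟨g, h3, h4, h5⟩

/-- faces of a rectangular layer -/
theorem grid_VC (hb : ∀ e ∈ T, ∃ g, InR x0 x1 y0 y1 g ∧ ev g = false ∧ gp g = f e)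
    (hx : VC (RT x0 x1 y0 y1) T f p) : ∃ g, InR x0 x1 y0 y1 g ∧ ev g = false ∧ gp g = p := by
  rcases hx with ⟨e, he, rfl⟩ | ⟨z, h1, h2⟩
  · exact hb e he
  · obtain ⟨g, h3, h4, h5⟩ := rect_end (o := false) h1 (by simpa using h2)
    exact ⟨g, h3, h4, h5⟩

theorem gp_inj {g g' : ℤ × ℤ} (he : ev g = ev g') (h : gp g = gp g') : g = g' := by
  obtain ⟨a, b⟩ := g
  obtain ⟨a', b'⟩ := g'
  unfold ev at he
  unfold gp at h
  simp only [Prod.mk.injEq, decide_eq_decide] at h he ⊢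
  omega

end grid

/-! ### Change of the environment of a family of ties -/

section env

variable {X X' : Env} {W W' Ti W1 W1' : Finset (ℤ × ℤ)} {tv tu tv' tu' : ℤ × ℤ → ℤ × ℤ}

theorem tiesO_env (h : TiesO X W Ti W1 tv tu) (hE : Ti ⊆ X'.E) (hd : Disjoint Ti W')
    (hW : W1' ⊆ W') (hW1 : W1 ⊆ W1') (e1 : ∀ e ∈ Ti, tv' e = tv e) (e2 : ∀ e ∈ Ti, tu' e = tu e)
    (hx : ∀ p q, IsUnit4 (q - p) → p + q ∈ W1' → p + q ∉ W1 → ∀ e ∈ Ti, Co W1' (tu e) p) :
    TiesO X' W' Ti W1' tv' tu' := by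
  refine ⟨hE, hd, hW, ?_, ?_, ?_, ?_⟩
  · intro e he; rw [e1 e he, e2 e he]; exact h.unit e he
  · intro e he; rw [e1 e he, e2 e he]; exact h.ends e he
  · intro e he e' he'; rw [e2 e he, e2 e' he']; exact (h.conn e he e' he').mono hW1
  · intro p q hpq hl e he
    rw [e2 e he]
    by_cases hin : p + q ∈ W1
    · exact (h.conn' p q hpq hin e he).mono hW1
    · exact hx p q hpq hl hin e he

theorem tiesC_env (h : TiesC X W Ti W1 tv tu) (hE : Ti ⊆ X'.E) (hd : Disjoint Ti W')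
    (hkE : Disjoint W1' X'.E) (hkW : Disjoint W1' W') (hW1 : W1 ⊆ W1')
    (e1 : ∀ e ∈ Ti, tv' e = tv e) (e2 : ∀ e ∈ Ti, tu' e = tu e)
    (hx : ∀ p q, IsUnit4 (q - p) → p + q - (1, 1) ∈ W1' → p + q - (1, 1) ∉ W1 →
      ∀ e ∈ Ti, Co (du W1' ∅) (tu e) p) :
    TiesC X' W' Ti W1' tv' tu' := by
  have hm : du W1 ∅ ⊆ du W1' ∅ := by
    unfold du
    exact map_subset_map.2 (sdiff_subset_sdiff hW1 (Subset.refl _))
  refine ⟨hE, hd, hkE, hkW, ?_, ?_, ?_, ?_⟩
  · intro e he; rw [e1 e he, e2 e he]; exact h.unit e he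
  · intro e he; rw [e1 e he, e2 e he]; exact h.ends e he
  · intro e he e' he'; rw [e2 e he, e2 e' he']; exact (h.conn e he e' he').mono hm
  · intro p q hpq hl e he
    rw [e2 e he]
    by_cases hin : p + q - (1, 1) ∈ W1
    · exact (h.conn' p q hpq hin e he).mono hm
    · exact hx p q hpq hl hin e he

end env

/-! ### The lower environment, `j = 0` -/

/-- the real tiles of the lower environment -/
noncomputable def RRL (h : ℤ) : Finset (ℤ × ℤ) := {lt (-1, 0), lt (-1, h - 1)}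

/-- the real tiles of the upper environment -/
noncomputable def RRU (w h : ℤ) : Finset (ℤ × ℤ) := {lt (0, h - 1), lt (w - 1, h - 1)}

variable {w h H x y : ℤ}

theorem mem_RRL : lt (x, y) ∈ RRL h ↔ x = -1 ∧ (y = 0 ∨ y = h - 1) := by
  unfold RRL
  rw [mem_insert, mem_singleton]
  constructor
  · rintro (h1 | h1) <;>
      · have := lt_inj h1
        simp only [Prod.mk.injEq] at this
        omega
  · rintro ⟨rfl, rfl | rfl⟩
    · exact Or.inl rfl
    · exact Or.inr rfl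

theorem mem_RRU : lt (x, y) ∈ RRU w h ↔ (x = 0 ∨ x = w - 1) ∧ y = h - 1 := by
  unfold RRU
  rw [mem_insert, mem_singleton]
  constructor
  · rintro (h1 | h1) <;>
      · have := lt_inj h1
        simp only [Prod.mk.injEq] at this
        omega
  · rintro ⟨rfl | rfl, rfl⟩
    · exact Or.inl rfl
    · exact Or.inr rfl

theorem odd_RRL {e : ℤ × ℤ} (he : e ∈ RRL h) : (e.1 + e.2) % 2 = 1 := by
  unfold RRL at he
  rw [mem_insert, mem_singleton] at he
  rcases he with rfl | rfl <;> exact lt_odd _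

theorem odd_RRU {e : ℤ × ℤ} (he : e ∈ RRU w h) : (e.1 + e.2) % 2 = 1 := by
  unfold RRU at he
  rw [mem_insert, mem_singleton] at he
  rcases he with rfl | rfl <;> exact lt_odd _

theorem RRL_sub (O : Out w h) : RRL h ⊆ ET w h 0 := by
  intro e he
  obtain ⟨x, y, rfl⟩ := exists_lt (odd_RRL he)
  have := O.hw
  have := O.hh
  have := O.h2
  rw [mem_RRL] at he
  rw [mem_ET (by omega) O.w2 O.h2 le_rfl (by omega) rfl, mem_EJ]
  omega

theorem RRU_sub (O : Out w h) : RRU w h ⊆ ET w h h := by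
  intro e he
  obtain ⟨x, y, rfl⟩ := exists_lt (odd_RRU he)
  have := O.hw
  have := O.hh
  have := O.w2
  rw [mem_RRU] at he
  rw [mem_ET (by omega) O.w2 O.h2 (by omega) le_rfl O.h2, mem_EJ]
  omega

/-- all ties of the lower environment -/
noncomputable def TTL (w h : ℤ) : Finset (ℤ × ℤ) := TiL h 0 ∪ TiF w

/-- all ties of the upper environment -/
noncomputable def TTU (w h : ℤ) : Finset (ℤ × ℤ) := TiR w h ∪ TiU w h

theorem odd_TTL {e : ℤ × ℤ} (he : e ∈ TTL w h) : (e.1 + e.2) % 2 = 1 := by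
  rcases mem_union.1 he with h1 | h1
  · exact odd_TiL h1
  · exact odd_TiF h1

theorem odd_TTU {e : ℤ × ℤ} (he : e ∈ TTU w h) : (e.1 + e.2) % 2 = 1 := by
  rcases mem_union.1 he with h1 | h1
  · exact odd_TiR h1
  · exact odd_TiU h1

theorem mem_TTL : lt (x, y) ∈ TTL w h ↔ (x = -1 ∧ 0 < y ∧ y < h ∧ y % 2 = 0) ∨
    (y = -1 ∧ 0 ≤ x ∧ x < w ∧ x % 2 = 0) := by
  unfold TTL; rw [mem_union, mem_TiL, mem_TiF]

theorem mem_TTU : lt (x, y) ∈ TTU w h ↔ (x = w ∧ -1 ≤ y ∧ y < h - 1 ∧ y % 2 = 1) ∨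
    (y = h - 1 ∧ 0 < x ∧ x < w ∧ x % 2 = 0) := by
  unfold TTU; rw [mem_union, mem_TiR, mem_TiU]

/-- the random labels of the lower environment with frozen real tiles -/
theorem E_low (O : Out w h) : ET w h 0 \ RRL h = RT 0 w 0 h ∪ TTL w h := by
  have := O.hw
  have := O.hh
  have := O.h2
  ext l
  constructor
  · intro hl
    obtain ⟨x, y, rfl⟩ := exists_lt (odd_EJ (ET_sub (mem_sdiff.1 hl).1))
    rw [mem_sdiff, mem_ET (by omega) O.w2 O.h2 le_rfl (by omega) rfl, mem_EJ, mem_RRL] at hl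
    obtain ⟨⟨h5, h6⟩, h7⟩ := hl
    rw [not_or, not_or, not_or] at h6
    obtain ⟨h6a, -, h6c, -⟩ := h6
    rw [mem_union, lt_mem_RT, mem_TTL]
    rcases h5 with h5 | h5 | h5
    · by_cases hy : y = -1
      · right; right
        clear h7 h6a
        refine ⟨hy, h5.1, h5.2.1, ?_⟩
        by_contra hc
        exact h6c ⟨rfl, hy, by omega, by omega, by omega⟩
      · left; omega
    · right; left
      clear h6c
      by_cases hy : y % 2 = 1
      · exfalso
        by_cases hy2 : y + 1 < h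
        · exact h6a ⟨h5.1, by omega, hy2, hy⟩
        · exact h7 ⟨h5.1, Or.inr (by omega)⟩
      · refine ⟨h5.1, ?_, h5.2.2, by omega⟩
        by_contra hc
        exact h7 ⟨h5.1, Or.inl (by omega)⟩
    · exfalso; clear h6a h6c h7; omega
  · intro hl
    have ho : (l.1 + l.2) % 2 = 1 := by
      rcases mem_union.1 hl with h1 | h1
      · exact odd_RT h1
      · exact odd_TTL h1
    obtain ⟨x, y, rfl⟩ := exists_lt ho
    rw [mem_union, lt_mem_RT, mem_TTL] at hl
    rw [mem_sdiff, mem_ET (by omega) O.w2 O.h2 le_rfl (by omega) rfl, mem_EJ, mem_RRL]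
    rcases hl with hl | hl | hl
    · exact ⟨⟨Or.inl (by omega), by omega⟩, by omega⟩
    · exact ⟨⟨Or.inr (Or.inl (by omega)), by omega⟩, by omega⟩
    · exact ⟨⟨Or.inl (by omega), by omega⟩, by omega⟩

/-- the random labels of the upper environment with frozen real tiles -/
theorem E_up (O : Out w h) : ET w h h \ RRU w h = RT 0 w (-1) (h - 1) ∪ TTU w h := by
  have := O.hw
  have := O.hh
  have := O.h2
  have := O.w2
  ext l
  constructor
  · intro hl
    obtain ⟨x, y, rfl⟩ := exists_lt (odd_EJ (ET_sub (mem_sdiff.1 hl).1))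
    rw [mem_sdiff, mem_ET (by omega) O.w2 O.h2 (by omega) le_rfl O.h2, mem_EJ, mem_RRU] at hl
    obtain ⟨⟨h5, h6⟩, h7⟩ := hl
    rw [not_or, not_or, not_or] at h6
    obtain ⟨-, h6b, -, h6d⟩ := h6
    rw [mem_union, lt_mem_RT, mem_TTU]
    rcases h5 with h5 | h5 | h5
    · by_cases hy : y = h - 1
      · right; right
        clear h6b
        by_cases hx : x % 2 = 1
        · exfalso
          by_cases hx2 : x + 1 < w
          · exact h6d ⟨rfl, hy, by omega, hx2, hx⟩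
          · exact h7 ⟨Or.inr (by omega), hy⟩
        · refine ⟨hy, ?_, h5.2.1, by omega⟩
          by_contra hc
          exact h7 ⟨Or.inl (by omega), hy⟩
      · left; clear h6b h6d h7; omega
    · exfalso; clear h6b h6d h7; omega
    · right; left
      clear h6d h7
      refine ⟨h5.1, h5.2.1, h5.2.2, ?_⟩
      by_contra hc
      exact h6b ⟨h5.1, by omega, h5.2.2, by omega⟩
  · intro hl
    have ho : (l.1 + l.2) % 2 = 1 := by
      rcases mem_union.1 hl with h1 | h1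
      · exact odd_RT h1
      · exact odd_TTU h1
    obtain ⟨x, y, rfl⟩ := exists_lt ho
    rw [mem_union, lt_mem_RT, mem_TTU] at hl
    rw [mem_sdiff, mem_ET (by omega) O.w2 O.h2 (by omega) le_rfl O.h2, mem_EJ, mem_RRU]
    rcases hl with hl | hl | hl
    · exact ⟨⟨Or.inl (by omega), by omega⟩, by omega⟩
    · exact ⟨⟨Or.inr (Or.inr (by omega)), by omega⟩, by omega⟩
    · exact ⟨⟨Or.inl (by omega), by omega⟩, by omega⟩

/-- open labels of the lower environment -/
theorem mem_W_low (O : Out w h) : lt (x, y) ∈ WT w h 0 O.Wo ↔ (x = w ∧ -1 ≤ y ∧ y < h) ∨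
    (x = -2 ∧ -1 ≤ y ∧ y < h) ∨ (x = w + 1 ∧ -1 ≤ y ∧ y < h) ∨
    (y = -1 ∧ 0 < x ∧ x < w ∧ x % 2 = 1) ∨ lt (x, y) ∈ O.Wo := by
  have := O.hw
  have := O.hh
  unfold WT WJ
  rw [mem_union, mem_union, H74.R45.mem_WR, mem_OT (by omega) O.w2 O.h2 le_rfl (by omega) rfl]
  have e1 : ¬ ((0 : ℤ) = h) := by omega
  constructor
  · rintro ((h1 | h1) | h1)
    · omega
    · exact Or.inr (Or.inr (Or.inr (Or.inr h1)))
    · omega
  · rintro (h1 | h1 | h1 | h1 | h1)
    · exact Or.inl (Or.inl (by omega))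
    · exact Or.inl (Or.inl (by omega))
    · exact Or.inl (Or.inl (by omega))
    · exact Or.inr (by omega)
    · exact Or.inl (Or.inr h1)

/-- open labels of the upper environment -/
theorem mem_W_up (O : Out w h) : lt (x, y) ∈ WT w h h O.Wo ↔ (x = -1 ∧ -1 ≤ y ∧ y < h - 1) ∨
    (x = w ∧ y = h - 1) ∨ (x = -2 ∧ -1 ≤ y ∧ y < h) ∨ (x = w + 1 ∧ -1 ≤ y ∧ y < h) ∨
    (y = h - 1 ∧ 0 < x ∧ x + 1 < w ∧ x % 2 = 1) ∨ lt (x, y) ∈ O.Wo := by
  have := O.hw
  have := O.hh
  unfold WT WJ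
  rw [mem_union, mem_union, H74.R45.mem_WR, mem_OT (by omega) O.w2 O.h2 (by omega) le_rfl O.h2]
  constructor
  · rintro ((h1 | h1) | h1)
    · omega
    · exact Or.inr (Or.inr (Or.inr (Or.inr (Or.inr h1))))
    · omega
  · rintro (h1 | h1 | h1 | h1 | h1 | h1)
    · exact Or.inl (Or.inl (by omega))
    · exact Or.inl (Or.inl (by omega))
    · exact Or.inl (Or.inl (by omega))
    · exact Or.inl (Or.inl (by omega))
    · exact Or.inr (by omega)
    · exact Or.inl (Or.inr h1)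

/-- family of a tie of the lower environment: `true` : left wall (open ties), `false` : floor -/
def fmL (e : ℤ × ℤ) : Bool := decide ((tt e).1 = -1)

/-- family of a tie of the upper environment: `true` : right wall (open ties), `false` : ceiling -/
def fmU (w : ℤ) (e : ℤ × ℤ) : Bool := decide ((tt e).1 = w)

/-- inner ends of the ties of the lower environment -/
def bL (e : ℤ × ℤ) : ℤ × ℤ := if (tt e).1 = -1 then pt 1 0 e else pt 1 1 e

/-- outer ends of the ties of the lower environment -/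
def oL (e : ℤ × ℤ) : ℤ × ℤ := if (tt e).1 = -1 then pt 0 1 e else pt 0 0 e

/-- inner ends of the ties of the upper environment -/
def bU (w : ℤ) (e : ℤ × ℤ) : ℤ × ℤ := if (tt e).1 = w then pt 0 1 e else pt 0 0 e

/-- outer ends of the ties of the upper environment -/
def oU (w : ℤ) (e : ℤ × ℤ) : ℤ × ℤ := if (tt e).1 = w then pt 1 0 e else pt 1 1 e

/-- walls of the lower environment; `K` : closed labels below the floor. A frozen real tile which joins
a wall point to the wall belongs to the wall. -/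
noncomputable def WlL (h : ℤ) (S K : Finset (ℤ × ℤ)) (i : Bool) : Finset (ℤ × ℤ) :=
  if i = true then RT (-2) (-1) (-1) h ∪ S else K ∪ insert (lt (-1, -1)) ({lt (-1, 0)} \ S)

/-- walls of the upper environment; `K` : closed labels above the ceiling -/
noncomputable def WlU (w h : ℤ) (S K : Finset (ℤ × ℤ)) (i : Bool) : Finset (ℤ × ℤ) :=
  if i = true then RT (w + 1) (w + 2) (-1) h ∪ insert (lt (w, h - 1)) (S ∩ {lt (w - 1, h - 1)})
  else K ∪ insert (lt (-1, h - 1)) (RRU w h \ S)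

/-- layers of the lower environment -/
noncomputable def LaL (w h H : ℤ) (i : Bool) : Finset (ℤ × ℤ) :=
  if i = true then RT 0 H 0 h else RT 0 w 0 H

/-- layers of the upper environment -/
noncomputable def LaU (w h H : ℤ) (i : Bool) : Finset (ℤ × ℤ) :=
  if i = true then RT (w - H) w (-1) (h - 1) else RT 0 w (h - 1 - H) (h - 1)

/-- the bulk labels near the two walls with ties, lower environment -/
noncomputable def LLL (w h H : ℤ) : Finset (ℤ × ℤ) := RT 0 H 0 h ∪ RT 0 w 0 H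

/-- the bulk labels near the two walls with ties, upper environment -/
noncomputable def LLU (w h H : ℤ) : Finset (ℤ × ℤ) :=
  RT (w - H) w (-1) (h - 1) ∪ RT 0 w (h - 1 - H) (h - 1)

/-- extended layers of the lower environment -/
noncomputable def LbL (w h H : ℤ) (i : Bool) : Finset (ℤ × ℤ) :=
  if i = true then LLL w h H ∪ RT 0 w (-1) 0 else LLL w h H ∪ RT (-1) 0 1 h

/-- extended layers of the upper environment -/
noncomputable def LbU (w h H : ℤ) (i : Bool) : Finset (ℤ × ℤ) :=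
  if i = true then LLU w h H ∪ RT 0 (w - 1) (h - 1) h else LLU w h H ∪ RT w (w + 1) (-1) (h - 1)

theorem TF_L_true : TF (TTL w h) fmL true = TiL h 0 := by
  ext l
  rw [mem_TF]
  constructor
  · rintro ⟨h1, h2⟩
    obtain ⟨x, y, rfl⟩ := exists_lt (odd_TTL h1)
    unfold fmL at h2
    rw [decide_eq_true_eq, tt_lt] at h2
    rw [mem_TTL] at h1
    rw [mem_TiL]
    simp only at h2
    omega
  · intro h1
    refine ⟨mem_union_left _ h1, ?_⟩
    obtain ⟨x, y, rfl⟩ := exists_lt (odd_TiL h1)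
    rw [mem_TiL] at h1
    unfold fmL
    rw [decide_eq_true_eq, tt_lt]
    exact h1.1

theorem TF_L_false : TF (TTL w h) fmL false = TiF w := by
  ext l
  rw [mem_TF]
  constructor
  · rintro ⟨h1, h2⟩
    obtain ⟨x, y, rfl⟩ := exists_lt (odd_TTL h1)
    unfold fmL at h2
    rw [decide_eq_false_iff_not, tt_lt] at h2
    rw [mem_TTL] at h1
    rw [mem_TiF]
    simp only at h2
    omega
  · intro h1
    refine ⟨mem_union_right _ h1, ?_⟩
    obtain ⟨x, y, rfl⟩ := exists_lt (odd_TiF h1)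
    rw [mem_TiF] at h1
    unfold fmL
    rw [decide_eq_false_iff_not, tt_lt]
    simp only
    omega

theorem TF_U_true : TF (TTU w h) (fmU w) true = TiR w h := by
  ext l
  rw [mem_TF]
  constructor
  · rintro ⟨h1, h2⟩
    obtain ⟨x, y, rfl⟩ := exists_lt (odd_TTU h1)
    unfold fmU at h2
    rw [decide_eq_true_eq, tt_lt] at h2
    rw [mem_TTU] at h1
    rw [mem_TiR]
    simp only at h2
    omega
  · intro h1
    refine ⟨mem_union_left _ h1, ?_⟩
    obtain ⟨x, y, rfl⟩ := exists_lt (odd_TiR h1)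
    rw [mem_TiR] at h1
    unfold fmU
    rw [decide_eq_true_eq, tt_lt]
    exact h1.1

theorem TF_U_false : TF (TTU w h) (fmU w) false = TiU w h := by
  ext l
  rw [mem_TF]
  constructor
  · rintro ⟨h1, h2⟩
    obtain ⟨x, y, rfl⟩ := exists_lt (odd_TTU h1)
    unfold fmU at h2
    rw [decide_eq_false_iff_not, tt_lt] at h2
    rw [mem_TTU] at h1
    rw [mem_TiU]
    simp only at h2
    omega
  · intro h1
    refine ⟨mem_union_right _ h1, ?_⟩
    obtain ⟨x, y, rfl⟩ := exists_lt (odd_TiU h1)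
    rw [mem_TiU] at h1
    unfold fmU
    rw [decide_eq_false_iff_not, tt_lt]
    simp only
    omega

/-- ends of the ties -/
theorem bL_left {e : ℤ × ℤ} (he : e ∈ TiL h 0) : bL e = pt 1 0 e ∧ oL e = pt 0 1 e := by
  obtain ⟨x, y, rfl⟩ := exists_lt (odd_TiL he)
  rw [mem_TiL] at he
  unfold bL oL
  rw [tt_lt, if_pos he.1, if_pos he.1]
  exact ⟨rfl, rfl⟩

theorem bL_floor {e : ℤ × ℤ} (he : e ∈ TiF w) : bL e = pt 1 1 e ∧ oL e = pt 0 0 e := by
  obtain ⟨x, y, rfl⟩ := exists_lt (odd_TiF he)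
  rw [mem_TiF] at he
  unfold bL oL
  rw [tt_lt, if_neg (by simp only; omega), if_neg (by simp only; omega)]
  exact ⟨rfl, rfl⟩

theorem bU_right {e : ℤ × ℤ} (he : e ∈ TiR w h) : bU w e = pt 0 1 e ∧ oU w e = pt 1 0 e := by
  obtain ⟨x, y, rfl⟩ := exists_lt (odd_TiR he)
  rw [mem_TiR] at he
  unfold bU oU
  rw [tt_lt, if_pos he.1, if_pos he.1]
  exact ⟨rfl, rfl⟩

theorem bU_ceil {e : ℤ × ℤ} (he : e ∈ TiU w h) : bU w e = pt 0 0 e ∧ oU w e = pt 1 1 e := by
  obtain ⟨x, y, rfl⟩ := exists_lt (odd_TiU he)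
  rw [mem_TiU] at he
  unfold bU oU
  rw [tt_lt, if_neg (by simp only; omega), if_neg (by simp only; omega)]
  exact ⟨rfl, rfl⟩

end Pool.Agent.H13.R45
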