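import Pool.Agent.H13.R45.Mul2

set_option autoImplicit false
open Finset

/-! # Corners far from the layers (`FarM`) for the lower and the upper tied environment

`Ring` : labels of the rectangles around a frame, `ring_co` : connectivity. `farL`, `farLb`, `farU`,
`farUb` : the structure `FarM` for the layers `LaL`, `LbL`, `LaU`, `LbU`. -/

namespace Pool.Agent.H13.R45

open Pool.Agent.H75.Perc Pool.Agent.H75.TwoArm Pool.Agent.Q1 Pool.Agent.H33.Q1
open Pool.Agent.H75.Four Pool.Agent.H69.Q1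
open Pool.Agent.H74.R45 Pool.Agent.H13.Q1
open Pool.Agent.H39.Q1

variable {w h m : ℤ} {S K B : Finset (ℤ × ℤ)} {O : Out w h}

/-! ### Points of a corner -/

theorem corner_pts (c : ℤ × ℤ) : (∃ g, ev g = true ∧ gp g = vx c ∧ Ag g c) ∧
    ∃ g, ev g = false ∧ gp g = fi c ∧ Ag g c := by
  have key : ∀ g, Ag g c → (ev g = true → gp g = vx c) ∧ (ev g = false → gp g = fi c) := by
    intro g hg
    unfold Ag At at hg
    constructor
    · intro h1; rw [h1, if_pos rfl] at hg; exact hg.symm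
    · intro h1
      rw [h1, if_neg Bool.false_ne_true] at hg; exact hg.symm
  have two : ∃ g g' : ℤ × ℤ, Ag g c ∧ Ag g' c ∧ (g.1 + g.2) % 2 = 0 ∧ (g'.1 + g'.2) % 2 = 1 := by
    rcases corner_cases c with ⟨x, y, rfl⟩ | ⟨x, y, rfl⟩
    · rcases Int.emod_two_eq_zero_or_one (x + y) with h0 | h0
      · exact ⟨(x, y), (x, y + 1), ag_ve.2 (Or.inl rfl), ag_ve.2 (Or.inr rfl), h0,
          by simp only; omega⟩
      · exact ⟨(x, y + 1), (x, y), ag_ve.2 (Or.inr rfl), ag_ve.2 (Or.inl rfl),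
          by simp only; omega, h0⟩
    · rcases Int.emod_two_eq_zero_or_one (x + y) with h0 | h0
      · exact ⟨(x, y), (x + 1, y), ag_he.2 (Or.inl rfl), ag_he.2 (Or.inr rfl), h0,
          by simp only; omega⟩
      · exact ⟨(x + 1, y), (x, y), ag_he.2 (Or.inr rfl), ag_he.2 (Or.inl rfl),
          by simp only; omega, h0⟩
  obtain ⟨⟨a, b⟩, ⟨a', b'⟩, h1, h2, h3, h4⟩ := two
  have e1 : ev (a, b) = true := ev_true.2 h3
  have e2 : ev (a', b') = false := ev_false.2 h4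
  exact ⟨⟨(a, b), e1, (key _ h1).1 e1, h1⟩, ⟨(a', b'), e2, (key _ h2).2 e2, h2⟩⟩

theorem ag_of_vx {g c : ℤ × ℤ} (h1 : ev g = true) (h2 : gp g = vx c) : Ag g c := by
  unfold Ag At; rw [h1, if_pos rfl]; exact h2.symm

theorem ag_of_fi {g c : ℤ × ℤ} (h1 : ev g = false) (h2 : gp g = fi c) : Ag g c := by
  unfold Ag At; rw [h1, if_neg Bool.false_ne_true]; exact h2.symm

/-! ### Nodes of a layer -/

theorem grid_V {La T : Finset (ℤ × ℤ)} {f : ℤ × ℤ → ℤ × ℤ} {p : ℤ × ℤ} {Rg : ℤ × ℤ → Prop}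
    (hodd : ∀ e ∈ La, (e.1 + e.2) % 2 = 1)
    (hLa : ∀ x y, lt (x, y) ∈ La → ∀ g, InR x (x + 1) y (y + 1) g → Rg g)
    (o : Bool) (hb : ∀ e ∈ T, ∃ g, Rg g ∧ ev g = o ∧ gp g = f e)
    (hx : if o = true then VO La T f p else VC La T f p) : ∃ g, Rg g ∧ ev g = o ∧ gp g = p := by
  cases o
  · rw [if_neg Bool.false_ne_true] at hx
    rcases hx with ⟨e, he, rfl⟩ | ⟨z, h1, h2⟩
    · exact hb e he
    · obtain ⟨x, y, h3⟩ := exists_lt (hodd _ h2)
      obtain ⟨g, h4, h5, h6⟩ := rect_end (o := false) (x0 := x) (x1 := x + 1) (y0 := y)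
        (y1 := y + 1) h1 (by
          simp only [Bool.false_eq_true, if_false]
          rw [h3]; exact lt_mem_RT.2 (by omega))
      exact ⟨g, hLa x y (by rw [← h3]; exact h2) g h4, h5, h6⟩
  · rw [if_pos rfl] at hx
    rcases hx with ⟨e, he, rfl⟩ | ⟨z, h1, h2⟩
    · exact hb e he
    · obtain ⟨x, y, h3⟩ := exists_lt (hodd _ h2)
      obtain ⟨g, h4, h5, h6⟩ := rect_end (o := true) (x0 := x) (x1 := x + 1) (y0 := y)
        (y1 := y + 1) h1 (by
          simp only [if_true]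
          rw [h3]; exact lt_mem_RT.2 (by omega))
      exact ⟨g, hLa x y (by rw [← h3]; exact h2) g h4, h5, h6⟩

/-! ### Around a frame -/

/-- labels around the frame `[r0, r1] × [s0, s1]`, and the labels of the rectangle `R` -/
noncomputable def Ring (R : Finset (ℤ × ℤ)) (r0 r1 s0 s1 M : ℤ) : Finset (ℤ × ℤ) :=
  R ∪ (RT (r0 - M) (r1 + M) s1 (s1 + M) ∪ RT r1 (r1 + M) (s0 - M) (s1 + M) ∪
    RT (r0 - M) r0 (s0 - M) (s1 + M) ∪ RT (r0 - M) (r1 + M) (s0 - M) s0)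

/-- outside the frame -/
def OutF (r0 r1 s0 s1 : ℤ) (g : ℤ × ℤ) : Prop := g.1 ≤ r0 ∨ r1 ≤ g.1 ∨ g.2 ≤ s0 ∨ s1 ≤ g.2

/-- inside the big box -/
def InB (r0 r1 s0 s1 M : ℤ) (g : ℤ × ℤ) : Prop :=
  (r0 - M ≤ g.1 ∧ g.1 ≤ r1 + M) ∧ (s0 - M ≤ g.2 ∧ g.2 ≤ s1 + M)

theorem odd_Ring {R : Finset (ℤ × ℤ)} {r0 r1 s0 s1 M : ℤ} (hR : ∀ e ∈ R, (e.1 + e.2) % 2 = 1)
    {e : ℤ × ℤ} (he : e ∈ Ring R r0 r1 s0 s1 M) : (e.1 + e.2) % 2 = 1 := by
  unfold Ring at he
  rw [mem_union, mem_union, mem_union, mem_union] at he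
  rcases he with h | ((h | h) | h) | h
  · exact hR e h
  · exact odd_RT h
  · exact odd_RT h
  · exact odd_RT h
  · exact odd_RT h

theorem mem_Ring {R : Finset (ℤ × ℤ)} {r0 r1 s0 s1 M x y : ℤ} :
    lt (x, y) ∈ Ring R r0 r1 s0 s1 M → lt (x, y) ∈ R ∨ s1 ≤ y ∨ r1 ≤ x ∨ x < r0 ∨ y < s0 := by
  intro h
  unfold Ring at h
  rw [mem_union, mem_union, mem_union, mem_union, lt_mem_RT, lt_mem_RT, lt_mem_RT, lt_mem_RT] at h
  rcases h with h | ((h | h) | h) | h
  · exact Or.inl h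
  · exact Or.inr (Or.inl h.2.2.1)
  · exact Or.inr (Or.inr (Or.inl h.1))
  · exact Or.inr (Or.inr (Or.inr (Or.inl h.2.1)))
  · exact Or.inr (Or.inr (Or.inr (Or.inr h.2.2.2)))

section ring

variable {R : Finset (ℤ × ℤ)} {r0 r1 s0 s1 M : ℤ} {o : Bool} {g g' : ℤ × ℤ}

/-- a point of parity `o` among two neighbours -/
theorem pick (o : Bool) (x y x' y' : ℤ) (h : (x + y + x' + y') % 2 = 1) :
    ∃ g, ev g = o ∧ (g = (x, y) ∨ g = (x', y')) := by
  cases o
  · rcases Int.emod_two_eq_zero_or_one (x + y) with h0 | h0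
    · exact ⟨(x', y'), ev_false.2 (by omega), Or.inr rfl⟩
    · exact ⟨(x, y), ev_false.2 h0, Or.inl rfl⟩
  · rcases Int.emod_two_eq_zero_or_one (x + y) with h0 | h0
    · exact ⟨(x, y), ev_true.2 h0, Or.inl rfl⟩
    · exact ⟨(x', y'), ev_true.2 (by omega), Or.inr rfl⟩

theorem co_rect' (hx : r0 < r1) (hy : s0 < s1) (hsub : RT r0 r1 s0 s1 ⊆ R)
    (hg : InR r0 r1 s0 s1 g) (hg' : InR r0 r1 s0 s1 g') (he : ev g = o) (he' : ev g' = o) :
    Co (Gc o R) (gp g) (gp g') :=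
  (rect_co (o := o) hx hy hg hg' he he').mono (Gc_mono hsub)

/-- all points around the frame are joined to a point above the frame -/
theorem ring_top (hM : 1 ≤ M) (hr : r0 < r1) (hs : s0 < s1) (he : ev g = o)
    (h1 : OutF r0 r1 s0 s1 g) (h2 : InB r0 r1 s0 s1 M g) {p : ℤ × ℤ} (hp : ev p = o)
    (hp1 : InR (r0 - M) (r1 + M) s1 (s1 + M) p) :
    Co (Gc o (Ring R r0 r1 s0 s1 M)) (gp g) (gp p) := by
  unfold InB at h2
  obtain ⟨⟨h3, h4⟩, h5, h6⟩ := h2
  have t1 : RT (r0 - M) (r1 + M) s1 (s1 + M) ⊆ Ring R r0 r1 s0 s1 M := fun l hl => by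
    unfold Ring; simp only [mem_union]; tauto
  have t2 : RT r1 (r1 + M) (s0 - M) (s1 + M) ⊆ Ring R r0 r1 s0 s1 M := fun l hl => by
    unfold Ring; simp only [mem_union]; tauto
  have t3 : RT (r0 - M) r0 (s0 - M) (s1 + M) ⊆ Ring R r0 r1 s0 s1 M := fun l hl => by
    unfold Ring; simp only [mem_union]; tauto
  have t4 : RT (r0 - M) (r1 + M) (s0 - M) s0 ⊆ Ring R r0 r1 s0 s1 M := fun l hl => by
    unfold Ring; simp only [mem_union]; tauto
  have top : ∀ q : ℤ × ℤ, ev q = o → InR (r0 - M) (r1 + M) s1 (s1 + M) q →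
      Co (Gc o (Ring R r0 r1 s0 s1 M)) (gp q) (gp p) := fun q h7 h8 =>
    co_rect' (by omega) (by omega) t1 h8 hp1 h7 hp
  have right : ∀ q : ℤ × ℤ, ev q = o → InR r1 (r1 + M) (s0 - M) (s1 + M) q →
      Co (Gc o (Ring R r0 r1 s0 s1 M)) (gp q) (gp p) := by
    intro q h7 h8
    obtain ⟨z, hz, hz'⟩ := pick o r1 s1 r1 (s1 + 1) (by omega)
    refine (co_rect' (g' := z) (by omega) (by omega) t2 h8 ?_ h7 hz).trans (top z hz ?_)
    · rcases hz' with rfl | rfl <;> (unfold InR; simp only; omega)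
    · rcases hz' with rfl | rfl <;> (unfold InR; simp only; omega)
  have left : ∀ q : ℤ × ℤ, ev q = o → InR (r0 - M) r0 (s0 - M) (s1 + M) q →
      Co (Gc o (Ring R r0 r1 s0 s1 M)) (gp q) (gp p) := by
    intro q h7 h8
    obtain ⟨z, hz, hz'⟩ := pick o r0 s1 r0 (s1 + 1) (by omega)
    refine (co_rect' (g' := z) (by omega) (by omega) t3 h8 ?_ h7 hz).trans (top z hz ?_)
    · rcases hz' with rfl | rfl <;> (unfold InR; simp only; omega)
    · rcases hz' with rfl | rfl <;> (unfold InR; simp only; omega)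
  have bot : ∀ q : ℤ × ℤ, ev q = o → InR (r0 - M) (r1 + M) (s0 - M) s0 q →
      Co (Gc o (Ring R r0 r1 s0 s1 M)) (gp q) (gp p) := by
    intro q h7 h8
    obtain ⟨z, hz, hz'⟩ := pick o r1 s0 r1 (s0 - 1) (by omega)
    refine (co_rect' (g' := z) (by omega) (by omega) t4 h8 ?_ h7 hz).trans (right z hz ?_)
    · rcases hz' with rfl | rfl <;> (unfold InR; simp only; omega)
    · rcases hz' with rfl | rfl <;> (unfold InR; simp only; omega)
  rcases h1 with h7 | h7 | h7 | h7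
  · exact left g he (by unfold InR; omega)
  · exact right g he (by unfold InR; omega)
  · exact bot g he (by unfold InR; omega)
  · exact top g he (by unfold InR; omega)

/-- the arm goes up -/
theorem ring_up {u0 u1 v0 : ℤ} (hM : 1 ≤ M) (hr : r0 < r1) (hs : s0 < s1) (hu : u0 < u1)
    (hu0 : r0 ≤ u0) (hu1 : u1 ≤ r1) (hv : v0 < s1)
    (he : ev g = o) (h1 : OutF r0 r1 s0 s1 g) (h2 : InB r0 r1 s0 s1 M g) (he' : ev g' = o)
    (h3 : InR u0 u1 v0 s1 g') :
    Co (Gc o (Ring (RT u0 u1 v0 s1) r0 r1 s0 s1 M)) (gp g) (gp g') := by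
  obtain ⟨z, hz, hz'⟩ := pick o u0 s1 (u0 + 1) s1 (by omega)
  refine (ring_top (p := z) hM hr hs he h1 h2 hz ?_).trans (co_rect' (g := z) (by omega)
    (by omega) (r0 := u0) (r1 := u1) (s0 := v0) (s1 := s1) ?_ ?_ h3 hz he')
  · rcases hz' with rfl | rfl <;> (unfold InR; simp only; omega)
  · unfold Ring; exact subset_union_left
  · rcases hz' with rfl | rfl <;> (unfold InR; simp only; omega)

/-- the arm goes down -/
theorem ring_dn {u0 u1 v1 : ℤ} (hM : 1 ≤ M) (hr : r0 < r1) (hs : s0 < s1) (hu : u0 < u1)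
    (hu0 : r0 ≤ u0) (hu1 : u1 ≤ r1) (hv : s0 < v1)
    (he : ev g = o) (h1 : OutF r0 r1 s0 s1 g) (h2 : InB r0 r1 s0 s1 M g) (he' : ev g' = o)
    (h3 : InR u0 u1 s0 v1 g') :
    Co (Gc o (Ring (RT u0 u1 s0 v1) r0 r1 s0 s1 M)) (gp g) (gp g') := by
  obtain ⟨z, hz, hz'⟩ := pick o u0 s0 (u0 + 1) s0 (by omega)
  obtain ⟨t, ht, ht'⟩ := pick o r1 s1 r1 (s1 + 1) (by omega)
  have k1 : Co (Gc o (Ring (RT u0 u1 s0 v1) r0 r1 s0 s1 M)) (gp g) (gp t) := by
    refine ring_top (p := t) hM hr hs he h1 h2 ht ?_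
    rcases ht' with rfl | rfl <;> (unfold InR; simp only; omega)
  have k2 : Co (Gc o (Ring (RT u0 u1 s0 v1) r0 r1 s0 s1 M)) (gp z) (gp t) := by
    refine ring_top (p := t) hM hr hs hz ?_ ?_ ht ?_
    · rcases hz' with rfl | rfl <;> (unfold OutF; simp only; omega)
    · rcases hz' with rfl | rfl <;> (unfold InB; simp only; omega)
    · rcases ht' with rfl | rfl <;> (unfold InR; simp only; omega)
  refine (k1.trans k2.symm).trans (co_rect' (g := z) (by omega)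
    (by omega) (r0 := u0) (r1 := u1) (s0 := s0) (s1 := v1) ?_ ?_ h3 hz he')
  · unfold Ring; exact subset_union_left
  · rcases hz' with rfl | rfl <;> (unfold InR; simp only; omega)

end ring

/-! ### `FarM` -/

/-- a general criterion -/
theorem farM_of {X : Env} {TT : Finset (ℤ × ℤ)} {fm : ℤ × ℤ → Bool}
    {Wl La : Bool → Finset (ℤ × ℤ)} {b o : ℤ × ℤ → ℤ × ℤ} {c : ℤ × ℤ} {N : Finset (ℤ × ℤ)}
    {Rg Rt Rc : ℤ × ℤ → Prop}
    (hrt : ∀ g, Ag g X.c0 → Rt g) (hrc : ∀ g, Ag g c → Rc g)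
    (hco : ∀ (o : Bool) (g g' : ℤ × ℤ), Rt g → Rc g' → (Ag g X.c0) → ev g = o → ev g' = o →
      Co (Gc o N) (gp g) (gp g'))
    (hd : ∀ i, Disjoint N (La i ∪ TF TT fm i ∪ Wl i))
    (hodd : ∀ i, ∀ e ∈ La i, (e.1 + e.2) % 2 = 1)
    (hLa : ∀ i x y, lt (x, y) ∈ La i → ∀ g, InR x (x + 1) y (y + 1) g → Rg g)
    (hb : ∀ i, ∀ e ∈ TF TT fm i, ∃ g, Rg g ∧ ev g = i ∧ gp g = b e)
    (h1 : ∀ g, Rg g → Rt g → False) (h2 : ∀ g, Rg g → Rc g → False) :
    FarM X TT fm id Wl La b o c := by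
  obtain ⟨⟨g1, a1, a2, a3⟩, ⟨g2, b1, b2, b3⟩⟩ := corner_pts X.c0
  obtain ⟨⟨g1', a1', a2', a3'⟩, ⟨g2', b1', b2', b3'⟩⟩ := corner_pts c
  have hv := hco true g1 g1' (hrt _ a3) (hrc _ a3') a3 a1 a1'
  have hf := hco false g2 g2' (hrt _ b3) (hrc _ b3') b3 b1 b1'
  rw [a2, a2', Gc_true] at hv
  rw [b2, b2', Gc_false] at hf
  have noO : ∀ p, VO (La true) (TF TT fm true) b p →
      ∃ g, Rg g ∧ ev g = true ∧ gp g = p := fun p hp =>
    grid_V (hodd true) (hLa true) true (hb true) (by rw [if_pos rfl]; exact hp)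
  have noC : ∀ p, VC (La false) (TF TT fm false) b p →
      ∃ g, Rg g ∧ ev g = false ∧ gp g = p := fun p hp =>
    grid_V (hodd false) (hLa false) false (hb false) (by
      rw [if_neg Bool.false_ne_true]; exact hp)
  refine ⟨?_, ?_, ?_, ?_, ?_, ?_⟩
  · intro i hi
    have hi' : i = true := hi
    subst hi'
    exact dco_of_du' (w := ∅) (fun l hl hl' => absurd hl (disjoint_left.1 (hd true) hl')) hf
  · intro i hi
    exact ⟨N, hv, hd i⟩
  · intro i hi hx
    have hi' : i = true := hi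
    subst hi'
    obtain ⟨g, h3, h4, h5⟩ := noO _ hx
    exact (h1 g h3 (hrt _ (ag_of_vx h4 h5))).elim
  · intro i hi hx
    have hi' : i = false := hi
    subst hi'
    obtain ⟨g, h3, h4, h5⟩ := noC _ hx
    exact (h1 g h3 (hrt _ (ag_of_fi h4 h5))).elim
  · intro i hi hx
    have hi' : i = true := hi
    subst hi'
    obtain ⟨g, h3, h4, h5⟩ := noO _ hx
    exact h2 g h3 (hrc _ (ag_of_vx h4 h5))
  · intro i hi hx
    have hi' : i = false := hi
    subst hi'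
    obtain ⟨g, h3, h4, h5⟩ := noC _ hx
    exact h2 g h3 (hrc _ (ag_of_fi h4 h5))

/-- **The root is outside a frame.** -/
structure RootFr (O : Out w h) (r0 r1 s0 s1 : ℤ) : Prop where
  hr0 : r0 ≤ -2
  hr1 : w + 2 ≤ r1
  hs0 : s0 ≤ -2
  hs1 : h + 1 ≤ s1
  out : ∀ g, Ag g O.c0 → OutF r0 r1 s0 s1 g

/-- a box around the two points of the root -/
theorem exists_M (c : ℤ × ℤ) (r0 r1 s0 s1 : ℤ) : ∃ M : ℤ, 1 ≤ M ∧ ∀ g, Ag g c →
    InB r0 r1 s0 s1 M g := by
  have two : ∃ g g' : ℤ × ℤ, ∀ z, Ag z c → z = g ∨ z = g' := by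
    rcases corner_cases c with ⟨x, y, rfl⟩ | ⟨x, y, rfl⟩
    · exact ⟨(x, y), (x, y + 1), fun z hz => ag_ve.1 hz⟩
    · exact ⟨(x, y), (x + 1, y), fun z hz => ag_he.1 hz⟩
  obtain ⟨g, g', hg⟩ := two
  refine ⟨1 + |r0 - g.1| + |r1 - g.1| + |s0 - g.2| + |s1 - g.2| + |r0 - g'.1| + |r1 - g'.1| +
    |s0 - g'.2| + |s1 - g'.2|, ?_, ?_⟩
  · have := abs_nonneg (r0 - g.1); have := abs_nonneg (r1 - g.1)
    have := abs_nonneg (s0 - g.2); have := abs_nonneg (s1 - g.2)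
    have := abs_nonneg (r0 - g'.1); have := abs_nonneg (r1 - g'.1)
    have := abs_nonneg (s0 - g'.2); have := abs_nonneg (s1 - g'.2)
    linarith
  · intro z hz
    have a1 := abs_nonneg (r0 - g.1); have a2 := abs_nonneg (r1 - g.1)
    have a3 := abs_nonneg (s0 - g.2); have a4 := abs_nonneg (s1 - g.2)
    have a5 := abs_nonneg (r0 - g'.1); have a6 := abs_nonneg (r1 - g'.1)
    have a7 := abs_nonneg (s0 - g'.2); have a8 := abs_nonneg (s1 - g'.2)
    have b1 := le_abs_self (r0 - g.1); have b2 := neg_abs_le (r1 - g.1)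
    have b3 := le_abs_self (s0 - g.2); have b4 := neg_abs_le (s1 - g.2)
    have b5 := le_abs_self (r0 - g'.1); have b6 := neg_abs_le (r1 - g'.1)
    have b7 := le_abs_self (s0 - g'.2); have b8 := neg_abs_le (s1 - g'.2)
    unfold InB
    rcases hg z hz with rfl | rfl
    · refine ⟨⟨?_, ?_⟩, ?_, ?_⟩ <;> linarith
    · refine ⟨⟨?_, ?_⟩, ?_, ?_⟩ <;> linarith

/-- nodes of the layers of the lower environment -/
def RgL (w h m : ℤ) (g : ℤ × ℤ) : Prop :=
  ((-1 ≤ g.1 ∧ g.1 ≤ w) ∧ (-1 ≤ g.2 ∧ g.2 ≤ h)) ∧ (g.1 ≤ m ∨ g.2 ≤ m)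

/-- nodes of the layers of the upper environment -/
def RgU (w h m : ℤ) (g : ℤ × ℤ) : Prop :=
  ((0 ≤ g.1 ∧ g.1 ≤ w + 1) ∧ (-1 ≤ g.2 ∧ g.2 ≤ h)) ∧ (w - m ≤ g.1 ∨ h - 1 - m ≤ g.2)

/-- far from the left wall and the floor -/
def RcL (w h m : ℤ) (g : ℤ × ℤ) : Prop := (m < g.1 ∧ g.1 ≤ w) ∧ (m < g.2 ∧ g.2 ≤ h)

/-- far from the right wall and the ceiling -/
def RcU (w h m : ℤ) (g : ℤ × ℤ) : Prop :=
  (0 ≤ g.1 ∧ g.1 < w - m) ∧ (-1 ≤ g.2 ∧ g.2 < h - 1 - m)

theorem lb_low {x y : ℤ} {i : Bool} (h1 : lt (x, y) ∈ LbL w h m i) :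
    ((0 ≤ x ∧ x < w ∨ 0 ≤ x ∧ x < m) ∧ (0 ≤ y ∧ y < h ∨ 0 ≤ y ∧ y < m) ∧ (x < m ∨ y < m)) ∨
      (0 ≤ x ∧ x < w ∧ y = -1) ∨ (x = -1 ∧ 1 ≤ y ∧ y < h) := by
  unfold LbL LLL at h1
  cases i
  · rw [if_neg Bool.false_ne_true, mem_union, mem_union, lt_mem_RT, lt_mem_RT, lt_mem_RT] at h1
    omega
  · rw [if_pos rfl, mem_union, mem_union, lt_mem_RT, lt_mem_RT, lt_mem_RT] at h1
    omega

theorem la_low {i : Bool} : LaL w h m i ⊆ LbL w h m i := by
  intro l hl
  unfold LaL at hl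
  unfold LbL LLL
  cases i
  · rw [if_neg Bool.false_ne_true] at hl ⊢
    exact mem_union_left _ (mem_union_right _ hl)
  · rw [if_pos rfl] at hl ⊢
    exact mem_union_left _ (mem_union_left _ hl)

theorem odd_LbL {i : Bool} {e : ℤ × ℤ} (he : e ∈ LbL w h m i) : (e.1 + e.2) % 2 = 1 := by
  unfold LbL LLL at he
  cases i
  · rw [if_neg Bool.false_ne_true, mem_union, mem_union] at he
    rcases he with (h1 | h1) | h1 <;> exact odd_RT h1
  · rw [if_pos rfl, mem_union, mem_union] at he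
    rcases he with (h1 | h1) | h1 <;> exact odd_RT h1

/-- **Corners far from the left wall and the floor**, any layers inside the extended layers. -/
theorem farL (hS : S ⊆ RRL h) {x0 x1 y0 r0 r1 s0 s1 : ℤ} (hm : 1 ≤ m) (hmw : m + 1 ≤ w)
    (hmh : m + 1 ≤ h) (hR : RootFr O r0 r1 s0 s1) (hx0 : r0 ≤ x0) (hx1 : x1 ≤ r1) (hy0 : s0 ≤ y0)
    {La : Bool → Finset (ℤ × ℤ)} (hLa : ∀ i, La i ⊆ LbL w h m i) {c : ℤ × ℤ}
    (hc : ∀ g, Ag g c → RcL w h m g) :
    FarM (XL O S hS) (TTL w h) fmL id (WlL h S (RT x0 x1 y0 (-1))) La bL oL c := by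
  have hw := O.hw
  have hh := O.hh
  have q1 := hR.hr0
  have q2 := hR.hr1
  have q3 := hR.hs0
  have q4 := hR.hs1
  obtain ⟨M, hM1, hM2⟩ := exists_M O.c0 r0 r1 s0 s1
  refine farM_of (N := Ring (RT m w m s1) r0 r1 s0 s1 M) (Rg := RgL w h m)
    (Rt := OutF r0 r1 s0 s1) (Rc := RcL w h m) (fun g hg => hR.out g hg) hc ?_ ?_ ?_ ?_ ?_ ?_ ?_
  · intro o g g' h1 h2 h3 h4 h5
    unfold RcL at h2
    refine ring_up hM1 (by omega) (by omega) (by omega) (by omega) (by omega) (by omega) h4 h1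
      (hM2 g h3) h5 ?_
    unfold InR; omega
  · intro i
    rw [disjoint_left]
    intro e he he'
    obtain ⟨x, y, rfl⟩ := exists_lt (odd_Ring (fun e he => odd_RT he) he)
    have h1 := mem_Ring he
    rw [lt_mem_RT] at h1
    rw [mem_union, mem_union] at he'
    rcases he' with (h2 | h2) | h2
    · have := lb_low (hLa i h2); omega
    · have := (mem_TF.1 h2).1
      rw [mem_TTL] at this
      omega
    · unfold WlL at h2
      cases i
      · rw [if_neg Bool.false_ne_true, mem_union, mem_insert, mem_sdiff, mem_singleton,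
          lt_mem_RT] at h2
        rcases h2 with h2 | h2 | ⟨h2, -⟩
        · omega
        · have := lt_inj h2; simp only [Prod.mk.injEq] at this; omega
        · have := lt_inj h2; simp only [Prod.mk.injEq] at this; omega
      · rw [if_pos rfl, mem_union, lt_mem_RT] at h2
        rcases h2 with h2 | h2
        · omega
        · have := mem_RRL.1 (hS h2); omega
  · intro i e he; exact odd_LbL (hLa i he)
  · intro i x y h1 g h2
    have h3 := lb_low (hLa i h1)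
    unfold InR at h2
    unfold RgL
    omega
  · intro i e he
    cases i
    · rw [TF_L_false] at he
      obtain ⟨x, y, rfl⟩ := exists_lt (odd_TiF he)
      rw [(bL_floor he).1, pt_lt]
      rw [mem_TiF] at he
      refine ⟨(x + 1, y + 1), ?_, ev_false.2 (by omega), rfl⟩
      unfold RgL; simp only; omega
    · rw [TF_L_true] at he
      obtain ⟨x, y, rfl⟩ := exists_lt (odd_TiL he)
      rw [(bL_left he).1, pt_lt]
      rw [mem_TiL] at he
      refine ⟨(x + 1, y + 0), ?_, ev_true.2 (by omega), rfl⟩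
      unfold RgL; simp only; omega
  · intro g h1 h2
    unfold RgL at h1
    unfold OutF at h2
    omega
  · intro g h1 h2
    unfold RgL at h1
    unfold RcL at h2
    omega

theorem lb_up {x y : ℤ} {i : Bool} (h1 : lt (x, y) ∈ LbU w h m i) :
    ((w - m ≤ x ∧ x < w ∨ 0 ≤ x ∧ x < w) ∧ (-1 ≤ y ∧ y < h - 1 ∨ h - 1 - m ≤ y ∧ y < h - 1) ∧
      (w - m ≤ x ∨ h - 1 - m ≤ y)) ∨
      (0 ≤ x ∧ x < w - 1 ∧ y = h - 1) ∨ (x = w ∧ -1 ≤ y ∧ y < h - 1) := by
  unfold LbU LLU at h1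
  cases i
  · rw [if_neg Bool.false_ne_true, mem_union, mem_union, lt_mem_RT, lt_mem_RT, lt_mem_RT] at h1
    omega
  · rw [if_pos rfl, mem_union, mem_union, lt_mem_RT, lt_mem_RT, lt_mem_RT] at h1
    omega

theorem la_up {i : Bool} : LaU w h m i ⊆ LbU w h m i := by
  intro l hl
  unfold LaU at hl
  unfold LbU LLU
  cases i
  · rw [if_neg Bool.false_ne_true] at hl ⊢
    exact mem_union_left _ (mem_union_right _ hl)
  · rw [if_pos rfl] at hl ⊢
    exact mem_union_left _ (mem_union_left _ hl)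

theorem odd_LbU {i : Bool} {e : ℤ × ℤ} (he : e ∈ LbU w h m i) : (e.1 + e.2) % 2 = 1 := by
  unfold LbU LLU at he
  cases i
  · rw [if_neg Bool.false_ne_true, mem_union, mem_union] at he
    rcases he with (h1 | h1) | h1 <;> exact odd_RT h1
  · rw [if_pos rfl, mem_union, mem_union] at he
    rcases he with (h1 | h1) | h1 <;> exact odd_RT h1

/-- **Corners far from the right wall and the ceiling**, any layers inside the extended layers. -/
theorem farU (hS : S ⊆ RRU w h) {x0 x1 y1 r0 r1 s0 s1 : ℤ} (hm : 1 ≤ m) (hmw : m + 1 ≤ w)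
    (hmh : m + 1 ≤ h) (hR : RootFr O r0 r1 s0 s1) (hx0 : r0 ≤ x0) (hx1 : x1 ≤ r1) (hy1 : y1 ≤ s1)
    {La : Bool → Finset (ℤ × ℤ)} (hLa : ∀ i, La i ⊆ LbU w h m i) {c : ℤ × ℤ}
    (hc : ∀ g, Ag g c → RcU w h m g) :
    FarM (XU O S hS) (TTU w h) (fmU w) id (WlU w h S (RT x0 x1 h y1)) La (bU w) (oU w) c := by
  have hw := O.hw
  have hh := O.hh
  have h2' := O.h2
  have w2' := O.w2
  have q1 := hR.hr0
  have q2 := hR.hr1
  have q3 := hR.hs0
  have q4 := hR.hs1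
  obtain ⟨M, hM1, hM2⟩ := exists_M O.c0 r0 r1 s0 s1
  refine farM_of (N := Ring (RT 0 (w - m) s0 (h - 1 - m)) r0 r1 s0 s1 M) (Rg := RgU w h m)
    (Rt := OutF r0 r1 s0 s1) (Rc := RcU w h m) (fun g hg => hR.out g hg) hc ?_ ?_ ?_ ?_ ?_ ?_ ?_
  · intro o g g' h1 h2 h3 h4 h5
    unfold RcU at h2
    refine ring_dn hM1 (by omega) (by omega) (by omega) (by omega) (by omega) (by omega) h4 h1
      (hM2 g h3) h5 ?_
    unfold InR; omega
  · intro i
    rw [disjoint_left]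
    intro e he he'
    obtain ⟨x, y, rfl⟩ := exists_lt (odd_Ring (fun e he => odd_RT he) he)
    have h1 := mem_Ring he
    rw [lt_mem_RT] at h1
    rw [mem_union, mem_union] at he'
    rcases he' with (h2 | h2) | h2
    · have := lb_up (hLa i h2); omega
    · have := (mem_TF.1 h2).1
      rw [mem_TTU] at this
      omega
    · unfold WlU at h2
      cases i
      · rw [if_neg Bool.false_ne_true, mem_union, mem_insert, lt_mem_RT] at h2
        rcases h2 with h2 | h2 | h2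
        · omega
        · have := lt_inj h2; simp only [Prod.mk.injEq] at this; omega
        · have := mem_RRU.1 (mem_sdiff.1 h2).1; omega
      · rw [if_pos rfl, mem_union, mem_insert, mem_inter, mem_singleton, lt_mem_RT] at h2
        rcases h2 with h2 | h2 | ⟨-, h2⟩
        · omega
        · have := lt_inj h2; simp only [Prod.mk.injEq] at this; omega
        · have := lt_inj h2; simp only [Prod.mk.injEq] at this; omega
  · intro i e he; exact odd_LbU (hLa i he)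
  · intro i x y h1 g h2
    have h3 := lb_up (hLa i h1)
    unfold InR at h2
    unfold RgU
    omega
  · intro i e he
    cases i
    · rw [TF_U_false] at he
      obtain ⟨x, y, rfl⟩ := exists_lt (odd_TiU he)
      rw [(bU_ceil he).1, pt_lt]
      rw [mem_TiU] at he
      refine ⟨(x + 0, y + 0), ?_, ev_false.2 (by omega), rfl⟩
      unfold RgU; simp only; omega
    · rw [TF_U_true] at he
      obtain ⟨x, y, rfl⟩ := exists_lt (odd_TiR he)
      rw [(bU_right he).1, pt_lt]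
      rw [mem_TiR] at he
      refine ⟨(x + 0, y + 1), ?_, ev_true.2 (by omega), rfl⟩
      unfold RgU; simp only; omega
  · intro g h1 h2
    unfold RgU at h1
    unfold OutF at h2
    omega
  · intro g h1 h2
    unfold RgU at h1
    unfold RcU at h2
    omega

end Pool.Agent.H13.R45
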