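import Mathlib
import Pool.Agent.H13.R45.Mul3
import Pool.Agent.H39.Q1.FlatW

set_option autoImplicit false
open Finset

/-! # Flat walls (`FlatL`) of the lower and the upper tied environment

`mem_bx_gp` : the boxes in the tile frame. `WFar O D` : the far labels are in the row `y = -1` next to the
rectangle or at distance `D`. `flat_left`, `flat_floor`, `flat_right`, `flat_ceil`. -/

namespace Pool.Agent.H13.R45

open Pool.Agent.H75.Perc Pool.Agent.H75.TwoArm Pool.Agent.Q1 Pool.Agent.H33.Q1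
open Pool.Agent.H75.Four Pool.Agent.H69.Q1
open Pool.Agent.H74.R45 Pool.Agent.H13.Q1
open Pool.Agent.H60.Q1 Pool.Agent.Q1.M6c Pool.Agent.H99.NC
open Pool.Agent.H39.Q1

variable {w h m : ℤ} {S K B : Finset (ℤ × ℤ)} {O : Out w h}

/-! ### Boxes in the tile frame -/

theorem mem_bx_gp {c : Bool} {g : ℤ × ℤ} (hg : ev g = c) {x y R : ℤ} :
    lt (x, y) ∈ bx c (gp g) R ↔
      (-2 * R ≤ (x - g.1) - (y - g.2) ∧ (x - g.1) - (y - g.2) ≤ 2 * R) ∧
      (-2 * R ≤ (x - g.1) + (y - g.2) + 1 ∧ (x - g.1) + (y - g.2) + 1 ≤ 2 * R) := by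
  obtain ⟨a, b⟩ := g
  unfold bx gp
  cases c
  · rw [ev_false] at hg
    rw [if_neg Bool.false_ne_true, mem_BD', mem_BRz]
    unfold lt
    simp only [Prod.mk_add_mk]
    omega
  · rw [ev_true] at hg
    rw [if_pos rfl, mem_BRz]
    unfold lt
    simp only
    omega

theorem bx_lt {c : Bool} {v l : ℤ × ℤ} {R : ℤ} (h : l ∈ bx c v R) : ∃ x y, l = lt (x, y) := by
  refine exists_lt ?_
  unfold bx at h
  cases c
  · rw [if_neg Bool.false_ne_true, mem_BD', mem_BRz] at h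
    have := h.2.2
    simp only [Prod.fst_add, Prod.snd_add] at this
    omega
  · rw [if_pos rfl, mem_BRz] at h
    exact h.2.2

theorem lm_bx {c : Bool} {ε : Bool × Bool} {v l : ℤ × ℤ} {R : ℤ} :
    lm c ε l ∈ BR (gm ε v) R ↔ l ∈ bx c v R := by
  rw [mem_BR_gm, lm_apply, gm_gm, ← mem_bx]

/-- the heights -/
theorem hg_left {g : ℤ × ℤ} (hg' : ev g = true) (x y : ℤ) :
    hg (gm (false, false) (gp g)) (lm true (false, false) (lt (x, y))) = 2 * (x - g.1) + 1 := by
  obtain ⟨a, b⟩ := g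
  rw [ev_true] at hg'
  unfold hg gm sgb
  rw [lm_apply]
  unfold gm sgb H39.Q1.tc gp lt
  simp only [Bool.false_eq_true, if_false, if_true, Prod.mk_add_mk]
  omega

theorem hg_floor {g : ℤ × ℤ} (hg' : ev g = false) (x y : ℤ) :
    hg (gm (true, false) (gp g)) (lm false (true, false) (lt (x, y))) = 2 * (y - g.2) + 1 := by
  obtain ⟨a, b⟩ := g
  rw [ev_false] at hg'
  unfold hg gm sgb
  rw [lm_apply]
  unfold gm sgb H39.Q1.tc gp lt
  simp only [Bool.false_eq_true, if_false, if_true, Prod.mk_add_mk]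
  omega

theorem hg_right {g : ℤ × ℤ} (hg' : ev g = true) (x y : ℤ) :
    hg (gm (true, true) (gp g)) (lm true (true, true) (lt (x, y))) = -2 * (x - g.1) - 1 := by
  obtain ⟨a, b⟩ := g
  rw [ev_true] at hg'
  unfold hg gm sgb
  rw [lm_apply]
  unfold gm sgb H39.Q1.tc gp lt
  simp only [if_true, Prod.mk_add_mk]
  omega

theorem hg_ceil {g : ℤ × ℤ} (hg' : ev g = false) (x y : ℤ) :
    hg (gm (false, true) (gp g)) (lm false (false, true) (lt (x, y))) = -2 * (y - g.2) - 1 := by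
  obtain ⟨a, b⟩ := g
  rw [ev_false] at hg'
  unfold hg gm sgb
  rw [lm_apply]
  unfold gm sgb H39.Q1.tc gp lt
  simp only [Bool.false_eq_true, if_false, if_true, Prod.mk_add_mk]
  omega

/-! ### The far labels -/

/-- the far labels are in the row `y = -1` on both sides, or at distance `D` from the rectangle -/
def WFar (O : Out w h) (D : ℤ) : Prop := ∀ x y, lt (x, y) ∈ O.Wo →
  (y = -1 ∧ (x ≤ -3 ∨ w + 2 ≤ x)) ∨ x ≤ -D ∨ w + D ≤ x ∨ y ≤ -D ∨ h + D ≤ y

/-- closed labels below the floor -/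
theorem WFar.floor {D : ℤ} (hW : WFar O D) {x0 x1 y0 : ℤ} (h1 : -D < x0) (h2 : x1 ≤ w + D)
    (h3 : -D < y0) (hh : 0 ≤ h) : Disjoint (RT x0 x1 y0 (-1)) O.Wo := by
  rw [disjoint_left]
  intro e he he'
  obtain ⟨x, y, rfl⟩ := exists_lt (odd_RT he)
  rw [lt_mem_RT] at he
  have := hW x y he'
  have := O.far x y he'
  omega

/-- closed labels above the ceiling -/
theorem WFar.ceil {D : ℤ} (hW : WFar O D) {x0 x1 y1 : ℤ} (h1 : -D < x0) (h2 : x1 ≤ w + D)
    (h3 : y1 ≤ h + D) (hD : 1 ≤ D) : Disjoint (RT x0 x1 h y1) O.Wo := by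
  have hh := O.hh
  rw [disjoint_left]
  intro e he he'
  obtain ⟨x, y, rfl⟩ := exists_lt (odd_RT he)
  rw [lt_mem_RT] at he
  have := hW x y he'
  omega

/-- the root is not in a box inside the frame -/
theorem root_bx {r0 r1 s0 s1 : ℤ} (hR : RootFr O r0 r1 s0 s1) {c : Bool} {g : ℤ × ℤ}
    (hg : ev g = c) {R : ℤ} (h1 : r0 < g.1 - 2 * R) (h2 : g.1 + 2 * R < r1)
    (h3 : s0 < g.2 - 2 * R) (h4 : g.2 + 2 * R < s1) : lab O.c0 ∉ bx c (gp g) R := by
  intro hl
  obtain ⟨⟨g1, -, -, a3⟩, -⟩ := corner_pts O.c0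
  have h5 := hR.out g1 a3
  have h6 := lab_at a3
  obtain ⟨x, y, h7⟩ := bx_lt hl
  rw [h7] at hl h6
  rw [mem_bx_gp hg] at hl
  have h8 := tg_lt h6
  unfold OutF at h5
  omega

/-! ### The four walls -/

/-- **The left wall.** -/
theorem flat_left (hS : S ⊆ RRL h) {D : ℤ} (hW : WFar O D) {y0 R : ℤ} (hy : y0 % 2 = 0)
    (hy1 : 1 ≤ y0 - 2 * R) (hy2 : y0 + 2 * R + 1 ≤ h) (hRm : 2 * R ≤ m) (hRw : 2 * R ≤ w)
    (hRD : 2 * R < D) {Kf : Finset (ℤ × ℤ)} :
    FlatL (WL' O S) (RT 0 w 0 h) (TTL w h) (TF (TTL w h) fmL true) (WlL h S Kf true)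
      (LaL w h m true) bL oL true (false, false) (1, 0) (gp (0, y0)) R := by
  have hw := O.hw
  have he : ev (0, y0) = true := ev_true.2 (by omega)
  rw [TF_L_true]
  unfold WlL LaL
  rw [if_pos rfl, if_pos rfl]
  have key : ∀ l, lm true (false, false) l ∈ BR (gm (false, false) (gp (0, y0))) R →
      ∃ x y, l = lt (x, y) ∧ (-2 * R ≤ x ∧ x < 2 * R) ∧ (y0 - 2 * R ≤ y ∧ y < y0 + 2 * R) ∧
        hg (gm (false, false) (gp (0, y0))) (lm true (false, false) l) = 2 * x + 1 := by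
    intro l hl
    rw [lm_bx] at hl
    obtain ⟨x, y, rfl⟩ := bx_lt hl
    rw [mem_bx_gp he] at hl
    refine ⟨x, y, rfl, by omega, by omega, ?_⟩
    rw [hg_left he]; ring
  refine FlatL.of_line (Or.inl rfl) ?_ ?_ ?_ ?_ ?_ ?_
  · intro l hl
    obtain ⟨x, y, rfl, h1, h2, h3⟩ := key l hl
    rw [h3, lt_mem_RT]
    omega
  · intro l hl1 hl
    obtain ⟨x, y, rfl, h1, h2, h3⟩ := key l hl
    rw [h3]
    rw [mem_union, mem_sdiff, lt_mem_RT, mem_TTL, mem_TiL] at hl1
    omega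
  · intro l hl
    obtain ⟨x, y, rfl, h1, h2, h3⟩ := key l hl
    rw [h3, mem_TiL, lm_apply]
    unfold gm sgb H39.Q1.tc lt
    simp only [Bool.false_eq_true, if_false, if_true, Prod.mk_add_mk]
    omega
  · intro l hl1 hl
    obtain ⟨x, y, rfl, h1, h2, h3⟩ := key l hl
    obtain ⟨e1, e2⟩ := bL_left hl1
    rw [mem_TiL] at hl1
    rw [e1, e2, pt_lt, pt_lt]
    unfold gm sgb H39.Q1.tc lt gp
    simp only [Bool.false_eq_true, if_false, if_true, Prod.mk_add_mk, Prod.mk_sub_mk,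
      Prod.mk.injEq]
    omega
  · intro l hl
    obtain ⟨x, y, rfl, h1, h2, h3⟩ := key l hl
    rw [h3, if_pos rfl, mem_union, lt_mem_RT]
    constructor
    · rintro (h4 | h4)
      · omega
      · have := mem_RRL.1 (hS h4); omega
    · intro h4
      left; omega
  · intro l hl
    obtain ⟨x, y, rfl, h1, h2, h3⟩ := key l hl
    rw [if_pos rfl]
    intro h4
    unfold WL' at h4
    rw [mem_union, mem_W_low] at h4
    rw [mem_union, lt_mem_RT]
    rcases h4 with (h4 | h4 | h4 | h4 | h4) | h4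
    · omega
    · left; omega
    · omega
    · omega
    · have := hW x y h4; omega
    · exact Or.inr h4

/-- **The floor.** -/
theorem flat_floor {x0 x1 y0 : ℤ} (hx0 : x0 ≤ 0) (hx1 : w ≤ x1) {u R : ℤ} (hu : u % 2 = 1)
    (hu1 : 0 ≤ u - 2 * R) (hu2 : u + 2 * R ≤ w) (hRm : 2 * R ≤ m) (hRh : 2 * R ≤ h)
    (hRy : y0 ≤ -2 * R) :
    FlatL (WL' O S) (RT 0 w 0 h) (TTL w h) (TF (TTL w h) fmL false)
      (WlL h S (RT x0 x1 y0 (-1)) false)
      (LaL w h m false) bL oL false (true, false) (0, 1) (gp (u, 0)) R := by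
  have hw := O.hw
  have he : ev (u, 0) = false := ev_false.2 (by omega)
  rw [TF_L_false]
  unfold WlL LaL
  rw [if_neg Bool.false_ne_true, if_neg Bool.false_ne_true]
  have key : ∀ l, lm false (true, false) l ∈ BR (gm (true, false) (gp (u, 0))) R →
      ∃ x y, l = lt (x, y) ∧ (u - 2 * R ≤ x ∧ x < u + 2 * R) ∧ (-2 * R ≤ y ∧ y < 2 * R) ∧
        hg (gm (true, false) (gp (u, 0))) (lm false (true, false) l) = 2 * y + 1 := by
    intro l hl
    rw [lm_bx] at hl
    obtain ⟨x, y, rfl⟩ := bx_lt hl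
    rw [mem_bx_gp he] at hl
    refine ⟨x, y, rfl, by omega, by omega, ?_⟩
    rw [hg_floor he]; ring
  refine FlatL.of_line (Or.inr rfl) ?_ ?_ ?_ ?_ ?_ ?_
  · intro l hl
    obtain ⟨x, y, rfl, h1, h2, h3⟩ := key l hl
    rw [h3, lt_mem_RT]
    omega
  · intro l hl1 hl
    obtain ⟨x, y, rfl, h1, h2, h3⟩ := key l hl
    rw [h3]
    rw [mem_union, mem_sdiff, lt_mem_RT, mem_TTL, mem_TiF] at hl1
    omega
  · intro l hl
    obtain ⟨x, y, rfl, h1, h2, h3⟩ := key l hl
    rw [h3, mem_TiF, lm_apply]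
    unfold gm sgb H39.Q1.tc lt
    simp only [Bool.false_eq_true, if_false, if_true, Prod.mk_add_mk]
    omega
  · intro l hl1 hl
    obtain ⟨x, y, rfl, h1, h2, h3⟩ := key l hl
    obtain ⟨e1, e2⟩ := bL_floor hl1
    rw [mem_TiF] at hl1
    rw [e1, e2, pt_lt, pt_lt]
    unfold gm sgb H39.Q1.tc lt gp
    simp only [Bool.false_eq_true, if_false, if_true, Prod.mk_add_mk, Prod.mk_sub_mk,
      Prod.mk.injEq]
    omega
  · intro l hl
    obtain ⟨x, y, rfl, h1, h2, h3⟩ := key l hl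
    rw [h3, if_neg Bool.false_ne_true, mem_union, mem_insert, mem_sdiff, mem_singleton, lt_mem_RT]
    constructor
    · rintro (h4 | h4 | ⟨h4, -⟩)
      · omega
      · have := lt_inj h4; simp only [Prod.mk.injEq] at this; omega
      · have := lt_inj h4; simp only [Prod.mk.injEq] at this; omega
    · intro h4
      left; omega
  · intro l hl
    obtain ⟨x, y, rfl, h1, h2, h3⟩ := key l hl
    rw [if_neg Bool.false_ne_true, h3]
    intro h4 h5
    rw [mem_TiF] at h5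
    unfold WL'
    rw [mem_union, mem_W_low]
    left; right; right; right; left
    omega

/-- **The right wall.** -/
theorem flat_right (hS : S ⊆ RRU w h) {D : ℤ} (hW : WFar O D) {y0 R : ℤ} (hy : y0 % 2 = 0)
    (hy1 : 0 ≤ y0 - 2 * R) (hy2 : y0 + 2 * R + 1 ≤ h) (hRm : 2 * R ≤ m) (hRw : 2 * R ≤ w)
    (hRD : 2 * R < D) {Kf : Finset (ℤ × ℤ)} :
    FlatL (WU' O S) (RT 0 w (-1) (h - 1)) (TTU w h) (TF (TTU w h) (fmU w) true)
      (WlU w h S Kf true)
      (LaU w h m true) (bU w) (oU w) true (true, true) (1, 0) (gp (w, y0)) R := by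
  have hw := O.hw
  have w2 := O.w2
  have he : ev (w, y0) = true := ev_true.2 (by omega)
  rw [TF_U_true]
  unfold WlU LaU
  rw [if_pos rfl, if_pos rfl]
  have key : ∀ l, lm true (true, true) l ∈ BR (gm (true, true) (gp (w, y0))) R →
      ∃ x y, l = lt (x, y) ∧ (w - 2 * R ≤ x ∧ x < w + 2 * R) ∧ (y0 - 2 * R ≤ y ∧ y < y0 + 2 * R) ∧
        hg (gm (true, true) (gp (w, y0))) (lm true (true, true) l) = -2 * (x - w) - 1 := by
    intro l hl
    rw [lm_bx] at hl
    obtain ⟨x, y, rfl⟩ := bx_lt hl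
    rw [mem_bx_gp he] at hl
    exact ⟨x, y, rfl, by omega, by omega, hg_right he x y⟩
  refine FlatL.of_line (Or.inl rfl) ?_ ?_ ?_ ?_ ?_ ?_
  · intro l hl
    obtain ⟨x, y, rfl, h1, h2, h3⟩ := key l hl
    rw [h3, lt_mem_RT]
    omega
  · intro l hl1 hl
    obtain ⟨x, y, rfl, h1, h2, h3⟩ := key l hl
    rw [h3]
    rw [mem_union, mem_sdiff, lt_mem_RT, mem_TTU, mem_TiR] at hl1
    omega
  · intro l hl
    obtain ⟨x, y, rfl, h1, h2, h3⟩ := key l hl
    rw [h3, mem_TiR, lm_apply]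
    unfold gm sgb H39.Q1.tc lt
    simp only [if_true, Prod.mk_add_mk]
    omega
  · intro l hl1 hl
    obtain ⟨x, y, rfl, h1, h2, h3⟩ := key l hl
    obtain ⟨e1, e2⟩ := bU_right hl1
    rw [mem_TiR] at hl1
    rw [e1, e2, pt_lt, pt_lt]
    unfold gm sgb H39.Q1.tc lt gp
    simp only [if_true, Prod.mk_add_mk, Prod.mk_sub_mk, Prod.mk.injEq]
    omega
  · intro l hl
    obtain ⟨x, y, rfl, h1, h2, h3⟩ := key l hl
    rw [h3, if_pos rfl, mem_union, mem_insert, mem_inter, mem_singleton, lt_mem_RT]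
    constructor
    · rintro (h4 | h4 | ⟨-, h4⟩)
      · omega
      · have := lt_inj h4; simp only [Prod.mk.injEq] at this; omega
      · have := lt_inj h4; simp only [Prod.mk.injEq] at this; omega
    · intro h4
      left; omega
  · intro l hl
    obtain ⟨x, y, rfl, h1, h2, h3⟩ := key l hl
    rw [if_pos rfl]
    intro h4
    unfold WU' at h4
    rw [mem_union, mem_W_up] at h4
    rw [mem_union, lt_mem_RT]
    rcases h4 with (h4 | h4 | h4 | h4 | h4 | h4) | h4
    · omega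
    · omega
    · omega
    · left; omega
    · omega
    · have := hW x y h4; omega
    · have := mem_RRU.1 (hS h4); omega

/-- **The ceiling.** -/
theorem flat_ceil {x0 x1 y1 : ℤ} (hx0 : x0 ≤ 0) (hx1 : w ≤ x1) {u R : ℤ} (hu : u % 2 = 0)
    (hu1 : 1 ≤ u - 2 * R) (hu2 : u + 2 * R + 1 ≤ w) (hRm : 2 * R ≤ m) (hRh : 2 * R ≤ h)
    (hRy : h + 2 * R ≤ y1) :
    FlatL (WU' O S) (RT 0 w (-1) (h - 1)) (TTU w h) (TF (TTU w h) (fmU w) false)
      (WlU w h S (RT x0 x1 h y1) false)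
      (LaU w h m false) (bU w) (oU w) false (false, true) (0, 1) (gp (u, h - 1)) R := by
  have hw := O.hw
  have w2 := O.w2
  have h2 := O.h2
  have he : ev (u, h - 1) = false := ev_false.2 (by omega)
  rw [TF_U_false]
  unfold WlU LaU
  rw [if_neg Bool.false_ne_true, if_neg Bool.false_ne_true]
  have key : ∀ l, lm false (false, true) l ∈ BR (gm (false, true) (gp (u, h - 1))) R →
      ∃ x y, l = lt (x, y) ∧ (u - 2 * R ≤ x ∧ x < u + 2 * R) ∧
        (h - 1 - 2 * R ≤ y ∧ y < h - 1 + 2 * R) ∧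
        hg (gm (false, true) (gp (u, h - 1))) (lm false (false, true) l) =
          -2 * (y - (h - 1)) - 1 := by
    intro l hl
    rw [lm_bx] at hl
    obtain ⟨x, y, rfl⟩ := bx_lt hl
    rw [mem_bx_gp he] at hl
    exact ⟨x, y, rfl, by omega, by omega, hg_ceil he x y⟩
  refine FlatL.of_line (Or.inr rfl) ?_ ?_ ?_ ?_ ?_ ?_
  · intro l hl
    obtain ⟨x, y, rfl, h1, h2, h3⟩ := key l hl
    rw [h3, lt_mem_RT]
    omega
  · intro l hl1 hl
    obtain ⟨x, y, rfl, h1, h2, h3⟩ := key l hl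
    rw [h3]
    rw [mem_union, mem_sdiff, lt_mem_RT, mem_TTU, mem_TiU] at hl1
    omega
  · intro l hl
    obtain ⟨x, y, rfl, h1, h2, h3⟩ := key l hl
    rw [h3, mem_TiU, lm_apply]
    unfold gm sgb H39.Q1.tc lt
    simp only [Bool.false_eq_true, if_false, if_true, Prod.mk_add_mk]
    omega
  · intro l hl1 hl
    obtain ⟨x, y, rfl, h1, h2, h3⟩ := key l hl
    obtain ⟨e1, e2⟩ := bU_ceil hl1
    rw [mem_TiU] at hl1
    rw [e1, e2, pt_lt, pt_lt]
    unfold gm sgb H39.Q1.tc lt gp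
    simp only [Bool.false_eq_true, if_false, if_true, Prod.mk_add_mk, Prod.mk_sub_mk,
      Prod.mk.injEq]
    omega
  · intro l hl
    obtain ⟨x, y, rfl, h1, h2, h3⟩ := key l hl
    rw [h3, if_neg Bool.false_ne_true, mem_union, mem_insert, lt_mem_RT]
    constructor
    · rintro (h4 | h4 | h4)
      · omega
      · have := lt_inj h4; simp only [Prod.mk.injEq] at this; omega
      · have := mem_RRU.1 (mem_sdiff.1 h4).1; omega
    · intro h4
      left; omega
  · intro l hl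
    obtain ⟨x, y, rfl, h1, h2, h3⟩ := key l hl
    rw [if_neg Bool.false_ne_true, h3]
    intro h4 h5
    rw [mem_TiU] at h5
    unfold WU'
    rw [mem_union, mem_W_up]
    left; right; right; right; right; left
    omega

end Pool.Agent.H13.R45
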