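import Pool.Agent.H13.R45.NatS
import Pool.Agent.H74.R45.Pot

set_option autoImplicit false
open Finset

/-! # The fields of the two end rows for `a = 0, 1/2`, `b = 1, 1/2` as sums of natural increments

`FJ O a b 0` and `FJ O a b h` (helper74) at `a = 0` or `1/2`, `b = 1` or `1/2` are the sums over the
states `S` of the two real tiles of the increments of the natural environments `XNL O α β S`,
`XNU O α β S` (all random labels have weight `1/2`). `INL`, `INU` : these increments as functions of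
`S`. `FJ_low`, `FJ_up`, and the six cases of the displacement identity: `H0_low`, `H1_low`, `H2_low`,
`H0_up`, `H1_up`, `H2_up`. -/

namespace Pool.Agent.H13.R45

open Pool.Agent.H75.Perc Pool.Agent.H75.TwoArm Pool.Agent.Q1 Pool.Agent.H33.Q1
open Pool.Agent.H75.Four Pool.Agent.H69.Q1
open Pool.Agent.H74.R45 Pool.Agent.H13.Q1
open Pool.Agent.Q1.M6c

variable {w h : ℤ} {S : Finset (ℤ × ℤ)} {O : Out w h} {α β : Bool} {x y : ℤ}

theorem incW_congr {X : Env} {q q' : ℤ × ℤ → ℂ} (h : ∀ e ∈ X.E, q e = q' e) (c : ℤ × ℤ) :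
    X.incW q c = X.incW q' c := by
  unfold Env.incW
  exact Ec_congr_q h _

/-- the parameters of the two states of a wall -/
noncomputable def va (β : Bool) : ℂ := if β = true then 1 / 2 else 0
noncomputable def vb (α : Bool) : ℂ := if α = true then 1 / 2 else 1

@[simp] theorem va_true : va true = 1 / 2 := rfl
@[simp] theorem va_false : va false = 0 := rfl
@[simp] theorem vb_true : vb true = 1 / 2 := rfl
@[simp] theorem vb_false : vb false = 1 := rfl

/-- increments of the natural environments below, as functions of the state of the real tiles -/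
noncomputable def INL (O : Out w h) (α β : Bool) (c : ℤ × ℤ) (S : Finset (ℤ × ℤ)) : ℂ :=
  iW (ENL w h α β) (WNL O α β S) (fun _ => 1 / 2) O.c0 O.k0 c

/-- increments of the natural environments above, as functions of the state of the real tiles -/
noncomputable def INU (O : Out w h) (α β : Bool) (c : ℤ × ℤ) (S : Finset (ℤ × ℤ)) : ℂ :=
  iW (ENU w h α β) (WNU O α β S) (fun _ => 1 / 2) O.c0 O.k0 c

theorem XNL_inc (hS : S ⊆ RRL h) (c : ℤ × ℤ) : (XNL O α β S hS).inc c = INL O α β c S :=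
  EO_inc c

theorem XNU_inc (hS : S ⊆ RRU w h) (c : ℤ × ℤ) : (XNU O α β S hS).inc c = INU O α β c S :=
  EO_inc c

theorem FJ_low {c : ℤ × ℤ} (hr : ∀ g ∈ PT w h 0, ¬ Ag g O.c0) (hc : ∀ g ∈ PT w h 0, ¬ Ag g c) :
    FJ O (va β) (vb α) 0 c = Ec (qT w h 0 (va β) (vb α)) (RRL h) (INL O α β c) := by
  have hh := O.hh
  rw [FJ_eq le_rfl (by omega), ← XJ_tied hr hc (h0 := le_rfl) (h1 := by omega) (j2 := rfl),
    XT_freeze (RRL_sub O)]
  refine sum_congr rfl fun S hS => ?_
  rw [mem_powerset] at hS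
  congr 1
  rw [← XNL_inc hS, ← natL hS hr hc]
  rw [incW_congr (X := XL O S hS) (q' := qT w h 0 (va β) (vb α))
    (fun e he => qTL_eq O (by rwa [XL_E] at he)) c]
  unfold XL
  rw [XF_incW]

theorem FJ_up {c : ℤ × ℤ} (hr : ∀ g ∈ PT w h h, ¬ Ag g O.c0) (hc : ∀ g ∈ PT w h h, ¬ Ag g c) :
    FJ O (va β) (vb α) h c = Ec (qT w h h (va β) (vb α)) (RRU w h) (INU O α β c) := by
  have hh := O.hh
  rw [FJ_eq (by omega) le_rfl, ← XJ_tied hr hc (h0 := by omega) (h1 := le_rfl) (j2 := O.h2),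
    XT_freeze (RRU_sub O)]
  refine sum_congr rfl fun S hS => ?_
  rw [mem_powerset] at hS
  congr 1
  rw [← XNU_inc hS, ← natU hS hr hc]
  rw [incW_congr (X := XU O S hS) (q' := qT w h h (va β) (vb α))
    (fun e he => qTU_eq O (by rwa [XU_E] at he)) c]
  unfold XU
  rw [XF_incW]

/-! ### The weights of the states of the real tiles -/

theorem r_ne (hh : 2 ≤ h) : lt (-1, 0) ≠ lt (-1, h - 1) := by
  intro h1
  have := lt_inj h1
  simp only [Prod.mk.injEq] at this
  omega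

theorem r_ne' (hw : 2 ≤ w) : lt (0, h - 1) ≠ lt (w - 1, h - 1) := by
  intro h1
  have := lt_inj h1
  simp only [Prod.mk.injEq] at this
  omega

theorem qT_rl1 {a b : ℂ} (hh : 2 ≤ h) : qT w h 0 a b (lt (-1, 0)) = b := by
  unfold qT qJ
  rw [tt_lt]
  dsimp only
  rw [if_neg (by omega), if_neg (by omega), if_pos (Or.inl rfl), if_pos (by omega)]

theorem qT_rl2 {a b : ℂ} (hh : 2 ≤ h) (h2 : h % 2 = 0) : qT w h 0 a b (lt (-1, h - 1)) = 1 - b := by
  unfold qT qJ
  rw [tt_lt]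
  dsimp only
  rw [if_neg (by omega), if_neg (by omega), if_pos (Or.inl rfl), if_neg (by omega)]

theorem qT_ru1 {a b : ℂ} (hw : 2 ≤ w) (hh : 2 ≤ h) (h2 : h % 2 = 0) :
    qT w h h a b (lt (0, h - 1)) = 1 - a := by
  unfold qT qJ
  rw [tt_lt]
  dsimp only
  rw [if_neg (by omega), if_neg (by omega), if_neg (by omega : ¬ ((0 : ℤ) = -1 ∨ 0 = w)),
    if_pos rfl, if_neg (by omega)]

theorem qT_ru2 {a b : ℂ} (hw : 2 ≤ w) (w2 : w % 2 = 0) (h2 : h % 2 = 0) :
    qT w h h a b (lt (w - 1, h - 1)) = a := by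
  unfold qT qJ
  rw [tt_lt]
  dsimp only
  rw [if_neg (by omega), if_neg (by omega), if_neg (by omega : ¬ (w - 1 = -1 ∨ w - 1 = w)),
    if_pos rfl, if_pos (by omega)]

theorem Ec_pair1 {q : ℤ × ℤ → ℂ} (r : ℤ × ℤ) (F : Finset (ℤ × ℤ) → ℂ) :
    Ec q {r} F = q r * F {r} + (1 - q r) * F ∅ := by
  have h := Ec_insert q (E := ∅) (e := r) (notMem_empty r) F
  rw [insert_empty_eq, Ec_empty, Ec_empty, insert_empty_eq] at h
  rw [h]
  ring

theorem Ec_pair2 {q : ℤ × ℤ → ℂ} {r s : ℤ × ℤ} (hne : r ≠ s) (F : Finset (ℤ × ℤ) → ℂ) :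
    Ec q {r, s} F = q r * (q s * F {r, s} + (1 - q s) * F {r})
      + (1 - q r) * (q s * F {s} + (1 - q s) * F ∅) := by
  rw [Ec_insert q (by rwa [mem_singleton]) F, Ec_pair1, Ec_pair1, insert_empty_eq]
  ring

/-! ### The six fields of the displacement identity -/

section six

variable {c : ℤ × ℤ}

/-- the sum over the states of the real tiles, below -/
theorem Ec_low (O : Out w h) (a b : ℂ) (F : Finset (ℤ × ℤ) → ℂ) :
    Ec (qT w h 0 a b) (RRL h) F =
      b * ((1 - b) * F (RRL h) + b * F {lt (-1, 0)})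
        + (1 - b) * ((1 - b) * F {lt (-1, h - 1)} + b * F ∅) := by
  have h1 := Ec_pair2 (q := qT w h 0 a b) (r_ne O.hh) F
  unfold RRL
  rw [h1, qT_rl1 O.hh, qT_rl2 O.hh O.h2]
  ring

/-- the sum over the states of the real tiles, above -/
theorem Ec_up (O : Out w h) (a b : ℂ) (F : Finset (ℤ × ℤ) → ℂ) :
    Ec (qT w h h a b) (RRU w h) F =
      (1 - a) * (a * F (RRU w h) + (1 - a) * F {lt (0, h - 1)})
        + a * (a * F {lt (w - 1, h - 1)} + (1 - a) * F ∅) := by
  have h1 := Ec_pair2 (q := qT w h h a b) (r_ne' (h := h) O.hw) F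
  unfold RRU
  rw [h1, qT_ru1 O.hw O.hh O.h2, qT_ru2 O.hw O.w2 O.h2]
  ring

theorem H0_low (hr : ∀ g ∈ PT w h 0, ¬ Ag g O.c0) (hc : ∀ g ∈ PT w h 0, ¬ Ag g c) :
    FJ O 0 1 0 c = INL O false false c {lt (-1, 0)} := by
  have h1 := FJ_low (α := false) (β := false) hr hc
  rw [Ec_low O, va_false, vb_false] at h1
  rw [h1]; ring

theorem H1_low (hr : ∀ g ∈ PT w h 0, ¬ Ag g O.c0) (hc : ∀ g ∈ PT w h 0, ¬ Ag g c) :
    FJ O (1 / 2) 1 0 c = INL O false true c {lt (-1, 0)} := by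
  have h1 := FJ_low (α := false) (β := true) hr hc
  rw [Ec_low O, va_true, vb_false] at h1
  rw [h1]; ring

theorem H2_low (hr : ∀ g ∈ PT w h 0, ¬ Ag g O.c0) (hc : ∀ g ∈ PT w h 0, ¬ Ag g c) :
    FJ O 0 (1 / 2) 0 c = (INL O true false c (RRL h) + INL O true false c {lt (-1, 0)}
      + INL O true false c {lt (-1, h - 1)} + INL O true false c ∅) / 4 := by
  have h1 := FJ_low (α := true) (β := false) hr hc
  rw [Ec_low O, va_false, vb_true] at h1
  rw [h1]; ring

theorem H0_up (hr : ∀ g ∈ PT w h h, ¬ Ag g O.c0) (hc : ∀ g ∈ PT w h h, ¬ Ag g c) :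
    FJ O 0 1 h c = INU O false false c {lt (0, h - 1)} := by
  have h1 := FJ_up (α := false) (β := false) hr hc
  rw [Ec_up O, va_false, vb_false] at h1
  rw [h1]; ring

theorem H1_up (hr : ∀ g ∈ PT w h h, ¬ Ag g O.c0) (hc : ∀ g ∈ PT w h h, ¬ Ag g c) :
    FJ O (1 / 2) 1 h c = (INU O false true c (RRU w h) + INU O false true c {lt (0, h - 1)}
      + INU O false true c {lt (w - 1, h - 1)} + INU O false true c ∅) / 4 := by
  have h1 := FJ_up (α := false) (β := true) hr hc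
  rw [Ec_up O, va_true, vb_false] at h1
  rw [h1]; ring

theorem H2_up (hr : ∀ g ∈ PT w h h, ¬ Ag g O.c0) (hc : ∀ g ∈ PT w h h, ¬ Ag g c) :
    FJ O 0 (1 / 2) h c = INU O true false c {lt (0, h - 1)} := by
  have h1 := FJ_up (α := true) (β := false) hr hc
  rw [Ec_up O, va_false, vb_true] at h1
  rw [h1]; ring

end six

end Pool.Agent.H13.R45
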